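import Pool.Agent.helper70.M8.Defs

set_option autoImplicit false

/-!
# OCT-C1: pull-backs and partial derivatives (helper41)
-/

open MvPolynomial Set Filter Topology

namespace Oct

theorem eval_pull (F : MvPolynomial (Fin 3) ℝ) (c : Chart) (t u : ℝ) :
    eval ![t, u] (c.pull F) = eval (c.pt t u) F := by
  unfold Chart.pull
  rw [MvPolynomial.aeval_def, MvPolynomial.eval_eval₂]
  have h1 : (fun s => eval ![t, u] ((![C (c.x0 : ℝ) + C (c.x1 : ℝ) * X 0,
      C (c.y0 : ℝ) + C (c.y1 : ℝ) * X 0,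
      C (c.al : ℝ) * X 1 + C (c.b0 : ℝ) + C (c.b1 : ℝ) * X 0 + C (c.b2 : ℝ) * X 0 ^ 2] :
        Fin 3 → MvPolynomial (Fin 2) ℝ) s)) = c.pt t u := by
    funext i
    fin_cases i <;>
      simp [Chart.pt, Chart.vx, Chart.vy, Chart.be, add_assoc]
  have h2 : (eval ![t, u]).comp (algebraMap ℝ (MvPolynomial (Fin 2) ℝ)) = RingHom.id ℝ := by
    ext r
    simp
  rw [h1, h2]
  rfl

theorem eval_pullEnd (F : MvPolynomial (Fin 3) ℝ) (c : Chart) (h : ℤ) (σ : Bool) (t s : ℝ) :
    eval ![t, s] (c.pullEnd h σ F) = eval (s • c.pt t h + (1 - s) • pole (!σ)) F := by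
  unfold Chart.pullEnd
  rw [MvPolynomial.aeval_def, MvPolynomial.eval_eval₂]
  have h1 : (fun i => eval ![t, s] ((![X 1 * (C (c.x0 : ℝ) + C (c.x1 : ℝ) * X 0),
      X 1 * (C (c.y0 : ℝ) + C (c.y1 : ℝ) * X 0),
      X 1 * (C (c.al * h + c.b0 : ℝ) + C (c.b1 : ℝ) * X 0 + C (c.b2 : ℝ) * X 0 ^ 2)
        + C (sg σ) * (1 - X 1)] :
        Fin 3 → MvPolynomial (Fin 2) ℝ) i)) = s • c.pt t h + (1 - s) • pole (!σ) := by
    funext i
    fin_cases i
    · simp [Chart.pt, Chart.vx, Chart.vy, Chart.be, pole]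
    · simp [Chart.pt, Chart.vx, Chart.vy, Chart.be, pole]
    · simp [Chart.pt, Chart.vx, Chart.vy, Chart.be, pole]
      ring
  have h2 : (eval ![t, s]).comp (algebraMap ℝ (MvPolynomial (Fin 2) ℝ)) = RingHom.id ℝ := by
    ext r
    simp
  rw [h1, h2]
  rfl

theorem hasDerivAt_fst (P : MvPolynomial (Fin 2) ℝ) (t u : ℝ) :
    HasDerivAt (fun x => eval ![x, u] P) (eval ![t, u] (pderiv 0 P)) t := by
  induction P using MvPolynomial.induction_on with
  | C a => simpa using hasDerivAt_const t a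
  | add p q hp hq => simpa using hp.fun_add hq
  | mul_X p i hp =>
    have hX : HasDerivAt (fun x : ℝ => eval ![x, u] (X i : MvPolynomial (Fin 2) ℝ))
        (eval ![t, u] (pderiv 0 (X i : MvPolynomial (Fin 2) ℝ))) t := by
      fin_cases i
      · simpa using hasDerivAt_id' t
      · simpa using hasDerivAt_const t u
    have h := hp.fun_mul hX
    simp only [Derivation.leibniz, smul_eq_mul, map_add, map_mul] at h ⊢
    rw [add_comm, mul_comm (eval ![t, u] (X i))]
    exact h

theorem hasDerivAt_snd (P : MvPolynomial (Fin 2) ℝ) (t u : ℝ) :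
    HasDerivAt (fun x => eval ![t, x] P) (eval ![t, u] (pderiv 1 P)) u := by
  induction P using MvPolynomial.induction_on with
  | C a => simpa using hasDerivAt_const u a
  | add p q hp hq => simpa using hp.fun_add hq
  | mul_X p i hp =>
    have hX : HasDerivAt (fun x : ℝ => eval ![t, x] (X i : MvPolynomial (Fin 2) ℝ))
        (eval ![t, u] (pderiv 1 (X i : MvPolynomial (Fin 2) ℝ))) u := by
      fin_cases i
      · simpa using hasDerivAt_const u t
      · simpa using hasDerivAt_id' u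
    have h := hp.fun_mul hX
    simp only [Derivation.leibniz, smul_eq_mul, map_add, map_mul] at h ⊢
    rw [add_comm, mul_comm (eval ![t, u] (X i))]
    exact h

end Oct
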