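import Pool.Agent.helper70.M8.Base

set_option autoImplicit false

/-!
# Integer checker, analytic part

All the sign conditions of a certificate are of the form: a polynomial `G(t,u)` with integer
coefficients is positive (negative) on a box `[a,b] × [lo,hi]` with natural corners. The test: all
the coefficients of `(1+s)^m (1+w)^n (G - 1)((a+bs)/(1+s), (lo+hi w)/(1+w))` are nonnegative. The
coefficients are computed all at once: `w = 2^B`, `s = 2^(B(n+1))`, modulo `2^(B(m+1)(n+1))`, and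
all the digits (base `2^B`) must be smaller than `2^(B-1)`.
The functions are written with recursors and `Nat.add`, `Nat.mul`, ... for a fast evaluation by
the kernel.
-/

namespace Oct

/-! ## integer polynomials -/

/-- derivative of a polynomial; `k`: index of the first coefficient -/
def derP (k : ℕ) (l : List ℤ) : List ℤ :=
  match l with
  | [] => []
  | c :: l => (k : ℤ) * c :: derP (k + 1) l

/-- `∂/∂t` -/
def dT (G : List (List ℤ)) : List (List ℤ) := G.map (fun l => derP 1 l.tail)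

def derT (k : ℕ) (G : List (List ℤ)) : List (List ℤ) :=
  match G with
  | [] => []
  | l :: G => (l.map (fun c => (k : ℤ) * c)) :: derT (k + 1) G

/-- `∂/∂u` -/
def dU (G : List (List ℤ)) : List (List ℤ) := derT 1 G.tail

/-- `∑ |l[i]| xⁱ` -/
def absP (l : List ℤ) (x : ℕ) : ℕ := l.foldr (fun c r => c.natAbs + x * r) 0

/-- `∑ |G[j][i]| tⁱ uʲ` -/
def absT (G : List (List ℤ)) (t u : ℕ) : ℕ := G.foldr (fun l r => absP l t + u * r) 0

/-- sizes and a bound for the coefficients -/
def sizeOK (B m n : ℕ) (G : List (List ℤ)) (tm um : ℕ) : Bool :=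
  decide (G.length ≤ n + 1) && G.all (fun l => decide (l.length ≤ m + 1)) &&
    decide (2 ^ (m + n) * (absT G tm um + 1) < 2 ^ (B - 1)) && decide (1 ≤ B) && decide (1 ≤ um) && decide (1 ≤ tm)

/-! ## packed arithmetic -/

/-- `z * c` modulo `M` (`M2` a multiple of `M`, large) -/
noncomputable def term (M2 : ℕ) (z : ℤ) (c : ℕ) : ℕ :=
  Int.rec (motive := fun _ => ℕ) (fun n => Nat.mul n c)
    (fun n => Nat.sub M2 (Nat.mul (Nat.succ n) c)) z

/-- `∑ᵢ l[i] Aⁱ CP[i]` modulo `M` -/
noncomputable def vrow (M2 A : ℕ) (l : List ℤ) : List ℕ → ℕ :=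
  List.rec (motive := fun _ => List ℕ → ℕ) (fun _ => 0)
    (fun g _ ih CP => List.rec (motive := fun _ => ℕ) 0
      (fun c cs _ => Nat.add (term M2 g c) (Nat.mul A (ih cs))) CP) l

noncomputable def vrows (M1 M2 A : ℕ) (CP : List ℕ) (G : List (List ℤ)) : List ℕ :=
  List.rec (motive := fun _ => List ℕ) [] (fun l _ ih => (Nat.land (vrow M2 A l CP) M1) :: ih) G

/-- products, entry by entry -/
noncomputable def zipM (l : List ℕ) : List ℕ → List ℕ :=
  List.rec (motive := fun _ => List ℕ → List ℕ) (fun _ => [])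
    (fun v _ ih CP => List.rec (motive := fun _ => List ℕ) []
      (fun c cs _ => (Nat.mul v c) :: ih cs) CP) l

/-- `∑ W[j] Aʲ` -/
noncomputable def horU (A : ℕ) (W : List ℕ) : ℕ :=
  List.rec (motive := fun _ => ℕ) 0 (fun w _ ih => Nat.add w (Nat.mul A ih)) W

/-- `[cⁿ, ..., c, 1]` -/
noncomputable def pw (c : ℕ) (n : ℕ) : List ℕ :=
  Nat.rec (motive := fun _ => List ℕ) [1]
    (fun _ ih => List.rec (motive := fun _ => List ℕ) [] (fun a _ _ => (Nat.mul c a) :: ih) ih) n

/-- digits `2^(B-1)` in base `2^B` -/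
noncomputable def mask (B : ℕ) (n : ℕ) : ℕ :=
  Nat.rec (motive := fun _ => ℕ) 0
    (fun _ ih => Nat.add (Nat.mul ih (Nat.pow 2 B)) (Nat.pow 2 (Nat.pred B))) n

/-- alternating signs modulo `M` (entries `< M`); `f`: the first sign is negative -/
noncomputable def altM (M : ℕ) (V : List ℕ) : Bool → List ℕ :=
  List.rec (motive := fun _ => Bool → List ℕ) (fun _ => [])
    (fun v _ ih f => Bool.rec (motive := fun _ => List ℕ) (v :: ih true)
      ((Nat.sub M v) :: ih false) f) V

/-- constants of the packed arithmetic -/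
structure Pk where
  B : ℕ
  m : ℕ
  n : ℕ
  M : ℕ
  M1 : ℕ
  M2 : ℕ
  Tu : ℕ
  Ts : ℕ
  ms : ℕ
  CP : List ℕ
  CU : List ℕ
  /-- `(1+S)^m (1+T)^n` -/
  o1 : ℕ
  /-- `(1+S)^m` -/
  o2 : ℕ

noncomputable def pkOf (B m n : ℕ) : Pk where
  B := B
  m := m
  n := n
  M := 2 ^ (B * ((m + 1) * (n + 1)))
  M1 := 2 ^ (B * ((m + 1) * (n + 1))) - 1
  M2 := 2 ^ (B * ((m + 1) * (n + 1)) + B)
  Tu := 2 ^ B
  Ts := 2 ^ (B * (n + 1))
  ms := mask B ((m + 1) * (n + 1))
  CP := pw (1 + 2 ^ (B * (n + 1))) m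
  CU := pw (1 + 2 ^ B) n
  o1 := (1 + 2 ^ (B * (n + 1))) ^ m * (1 + 2 ^ B) ^ n
  o2 := (1 + 2 ^ (B * (n + 1))) ^ m

/-- a row: first entries for the tests `G ≥ 1` and `G ≤ -1`, other entries -/
structure Rw where
  p : ℕ
  m : ℕ
  t : List ℕ

noncomputable def mkRw (M o : ℕ) (W : List ℕ) : Rw :=
  List.rec (motive := fun _ => Rw) ⟨Nat.sub M o, o, []⟩
    (fun w W _ => ⟨Nat.add w (Nat.sub M o), Nat.add w o, W⟩) W

/-- the test: `G ≥ 1` (`s = true`) or `G ≤ -1`; `A` packed interval -/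
noncomputable def tst (k : Pk) (r : Rw) (s : Bool) (A : ℕ) : Bool :=
  Bool.rec (motive := fun _ => Bool)
    (Nat.beq (Nat.land (Nat.sub k.M (Nat.land (Nat.add r.m (Nat.mul A (horU A r.t))) k.M1)) k.ms) 0)
    (Nat.beq (Nat.land (Nat.add r.p (Nat.mul A (horU A r.t))) k.ms) 0) s

/-- `V` rows for `t ∈ [a,b]` -/
noncomputable def vOf (k : Pk) (G : List (List ℤ)) (a b : ℕ) : List ℕ :=
  vrows k.M1 k.M2 (Nat.add a (Nat.mul b k.Ts)) k.CP G

/-- row for boxes -/
noncomputable def rwOf (k : Pk) (V : List ℕ) : Rw := mkRw k.M k.o1 (zipM V k.CU)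

/-- packed interval `[lo,hi]` -/
noncomputable def ivl (k : Pk) (lo hi : ℕ) : ℕ := Nat.add lo (Nat.mul hi k.Tu)

/-- `[1, 2, ..., n]` -/
def cnt (n : ℕ) : List ℕ := (List.range n).map (· + 1)

/-- nonnegative -/
noncomputable def nn (z : ℤ) : Bool :=
  Int.rec (motive := fun _ => Bool) (fun _ => true) (fun _ => false) z
noncomputable def tn (z : ℤ) : ℕ := Int.rec (motive := fun _ => ℕ) (fun n => n) (fun _ => 0) z

/-- test of the two unbounded parts of a column, `V` rows -/
noncomputable def capA (k : Pk) (V : List ℕ) (um : ℕ) (sp : Bool) (L H : ℕ) : Bool :=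
  Nat.ble H um && Nat.ble L um && Nat.ble L k.Tu &&
  tst k (mkRw k.M k.o2 V) sp (Nat.add H k.Tu) &&
  tst k (mkRw k.M k.o2 (altM k.M V false)) sp (Nat.sub k.Tu L)

/-! ## composition with a chart -/

def addP : List ℤ → List ℤ → List ℤ
  | [], q => q
  | p, [] => p
  | a :: p, b :: q => (a + b) :: addP p q

def smulP (k : ℤ) (p : List ℤ) : List ℤ := p.map (fun a => k * a)

/-- product of polynomials -/
def mulP : List ℤ → List ℤ → List ℤ
  | [], _ => []
  | a :: p, q => addP (smulP a q) (0 :: mulP p q)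

def addT : List (List ℤ) → List (List ℤ) → List (List ℤ)
  | [], q => q
  | p, [] => p
  | a :: p, b :: q => addP a b :: addT p q

/-- product of a table and of a polynomial in `t` -/
def mulPT (p : List ℤ) (G : List (List ℤ)) : List (List ℤ) := G.map (mulP p)

/-- product with `al u + be(t)` -/
def mulZ (al : ℤ) (be : List ℤ) (G : List (List ℤ)) : List (List ℤ) :=
  addT (mulPT be G) ([] :: G.map (smulP al))

/-- `[Zᵈ, ..., Z, 1]` -/
def zpows (al : ℤ) (be : List ℤ) : ℕ → List (List (List ℤ))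
  | 0 => [[[1]]]
  | d + 1 => match zpows al be d with
    | [] => []
    | Z :: l => mulZ al be Z :: Z :: l

/-- `∑ⱼ row[j] yʲ ZP[j]` -/
def compY (y : List ℤ) : List ℤ → List (List (List ℤ)) → List (List ℤ)
  | c :: row, Z :: ZP => addT (Z.map (smulP c)) (mulPT y (compY y row ZP))
  | _, _ => []

def compX (x y : List ℤ) : List (List ℤ) → List (List (List ℤ)) → List (List ℤ)
  | row :: tab, Z :: ZP => addT (compY y row (Z :: ZP)) (mulPT x (compX x y tab ZP))
  | _, _ => []

/-- `be` without trailing zeros -/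
def beL (ch : Chart) : List ℤ :=
  if ch.b2 = 0 then (if ch.b1 = 0 then [ch.b0] else [ch.b0, ch.b1]) else [ch.b0, ch.b1, ch.b2]

/-- the table of `F (pt t u)` -/
def compC (d : ℕ) (ch : Chart) (tab : List (List ℤ)) : List (List ℤ) :=
  compX [ch.x0, ch.x1] [ch.y0, ch.y1] tab (zpows ch.al (beL ch) d)

end Oct
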