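import Pool.Agent.helper70.M8.Defs
import Pool.Agent.helper70.M8.ChkB

set_option autoImplicit false

/-!
# Integer checker, analytic part: meaning of the tables
-/

open MvPolynomial Set

namespace Oct

/-- value of a polynomial (list of coefficients, constant first) -/
def evP (l : List ℤ) (x : ℝ) : ℝ := l.foldr (fun c r => (c : ℝ) + x * r) 0

/-- a table `G` describes `∑ⱼ uʲ ∑ᵢ G[j][i] tⁱ` -/
def evT (G : List (List ℤ)) (t u : ℝ) : ℝ := G.foldr (fun l r => evP l t + u * r) 0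

/-- `∑ᵢ l[i] Aⁱ C^(m-i)` -/
def homP {R : Type} [CommRing R] : ℕ → List ℤ → R → R → R
  | _, [], _, _ => 0
  | m, g :: l, A, D => (g : R) * D ^ m + A * homP (m - 1) l A D

/-- `∑ⱼ (∑ᵢ G[j][i] Aⁱ D^(m-i)) A'ʲ D'^(n-j)` -/
def homT {R : Type} [CommRing R] (m : ℕ) : ℕ → List (List ℤ) → R → R → R → R → R
  | _, [], _, _, _, _ => 0
  | n, l :: G, A, D, A', D' => homP m l A D * D' ^ n + A' * homT m (n - 1) G A D A' D'

/-- `∑ tab[i][j] xⁱ yʲ z^(d-i-j)` -/
noncomputable def polyOf (d : ℕ) (tab : List (List ℤ)) : MvPolynomial (Fin 3) ℝ :=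
  ∑ i ∈ Finset.range (d + 1), ∑ j ∈ Finset.range (d + 1 - i),
    C (((tab.getD i []).getD j 0 : ℤ) : ℝ) * X 0 ^ i * X 1 ^ j * X 2 ^ (d - i - j)

end Oct
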