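import Pool.Agent.helper70.M8.Chk

set_option autoImplicit false

/-!
# OCT-J3a: from the homogeneous form to the table
-/

open MvPolynomial Set Filter Topology

namespace Oct

theorem homP_eq_aux {l : List ℤ} : ∀ {m : ℕ}, l.length ≤ m + 1 → ∀ {A D : ℝ}, D ≠ 0 →
    homP m l A D = D ^ m * evP l (A / D) := by
  induction l with
  | nil => intro m _ A D _; simp [homP, evP]
  | cons g l ih =>
    intro m hl A D hD
    rcases m with _ | m
    · have hl0 : l = [] := by
        have : l.length = 0 := by simp at hl; simp [hl]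
        exact List.length_eq_zero_iff.mp this
      subst hl0
      simp [homP, evP]
    · have h1 : l.length ≤ m + 1 := by simpa using hl
      have h2 := ih h1 (A := A) hD
      have e1 : homP (m + 1) (g :: l) A D = (g : ℝ) * D ^ (m + 1) + A * homP m l A D := by
        simp [homP]
      have e2 : evP (g :: l) (A / D) = (g : ℝ) + A / D * evP l (A / D) := by
        simp [evP]
      rw [e1, e2, h2]
      field_simp
      ring

theorem homT_eq {m n : ℕ} {G : List (List ℤ)} (hn : G.length ≤ n + 1)
    (hm : ∀ l ∈ G, l.length ≤ m + 1) {A D A' D' : ℝ} (hD : D ≠ 0) (hD' : D' ≠ 0) :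
    homT m n G A D A' D' = D ^ m * D' ^ n * evT G (A / D) (A' / D') := by
  induction G generalizing n with
  | nil => simp [homT, evT]
  | cons l G ih =>
    have hl : l.length ≤ m + 1 := hm l (by simp)
    have hG : ∀ l' ∈ G, l'.length ≤ m + 1 := fun l' h => hm l' (by simp [h])
    have e2 : evT (l :: G) (A / D) (A' / D') = evP l (A / D) + A' / D' * evT G (A / D) (A' / D') := by
      simp [evT]
    rcases n with _ | n
    · have hG0 : G = [] := by
        have : G.length = 0 := by simp at hn; simp [hn]
        exact List.length_eq_zero_iff.mp this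
      subst hG0
      rw [e2]
      simp [homT, evT, homP_eq_aux hl hD]
    · have h1 : G.length ≤ n + 1 := by simpa using hn
      have h2 := ih h1 hG
      have e1 : homT m (n + 1) (l :: G) A D A' D'
          = homP m l A D * D' ^ (n + 1) + A' * homT m n G A D A' D' := by
        simp [homT]
      rw [e1, e2, h2, homP_eq_aux hl hD]
      field_simp
      ring

theorem continuous_evP_aux (l : List ℤ) : Continuous (evP l) := by
  induction l with
  | nil =>
    have e : evP [] = fun _ => (0 : ℝ) := by funext x; simp [evP]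
    rw [e]
    exact continuous_const
  | cons g l ih =>
    have e : evP (g :: l) = fun x => (g : ℝ) + x * evP l x := by
      funext x; simp [evP]
    rw [e]
    exact continuous_const.add (continuous_id.mul ih)

theorem continuous_evT_aux1 (G : List (List ℤ)) (u : ℝ) : Continuous (fun t => evT G t u) := by
  induction G with
  | nil => simpa [evT] using (continuous_const : Continuous (fun _ : ℝ => (0 : ℝ)))
  | cons l G ih =>
    have e : (fun t => evT (l :: G) t u) = fun t => evP l t + u * evT G t u := by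
      funext x; simp [evT]
    rw [e]
    exact (continuous_evP_aux l).add (continuous_const.mul ih)

theorem continuous_evT_aux2 (G : List (List ℤ)) (t : ℝ) : Continuous (fun u => evT G t u) := by
  induction G with
  | nil => simpa [evT] using (continuous_const : Continuous (fun _ : ℝ => (0 : ℝ)))
  | cons l G ih =>
    have e : (fun u => evT (l :: G) t u) = fun u => evP l t + u * evT G t u := by
      funext x; simp [evT]
    rw [e]
    exact continuous_const.add (continuous_id.mul ih)

theorem one_le_of_param_aux {f : ℝ → ℝ} (hf : Continuous f) {a b : ℝ}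
    (h : ∀ s : ℝ, 0 ≤ s → 1 ≤ f ((a + b * s) / (1 + s))) : ∀ t ∈ Icc a b, 1 ≤ f t := by
  intro t ht
  have hIco : ∀ t ∈ Ico a b, 1 ≤ f t := by
    intro t ht
    have hb : 0 < b - t := by linarith [ht.2]
    have ha : 0 ≤ t - a := by linarith [ht.1]
    have hs : 0 ≤ (t - a) / (b - t) := div_nonneg ha hb.le
    have h1 := h _ hs
    have h2 : (a + b * ((t - a) / (b - t))) / (1 + (t - a) / (b - t)) = t := by
      have h3 : 1 + (t - a) / (b - t) ≠ 0 := by positivity
      rw [div_eq_iff h3]
      field_simp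
      ring
    rwa [h2] at h1
  rcases eq_or_ne a b with hab | hab
  · subst hab
    have h1 := h 0 le_rfl
    have h2 : t = a := le_antisymm ht.2 ht.1
    rw [h2]
    simpa using h1
  · have hcl : IsClosed {x | 1 ≤ f x} := isClosed_le continuous_const hf
    have hsub : closure (Ico a b) ⊆ {x | 1 ≤ f x} := closure_minimal hIco hcl
    rw [closure_Ico hab] at hsub
    exact hsub ht

theorem one_le_of_hom_aux {m n : ℕ} {G : List (List ℤ)} (hn : G.length ≤ n + 1)
    (hm : ∀ l ∈ G, l.length ≤ m + 1) {A D A' D' : ℝ} (hD : 0 < D) (hD' : 0 < D')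
    (h : D ^ m * D' ^ n ≤ homT m n G A D A' D') : 1 ≤ evT G (A / D) (A' / D') := by
  rw [homT_eq hn hm hD.ne' hD'.ne'] at h
  have hpos : 0 < D ^ m * D' ^ n := by positivity
  nlinarith [hpos, h]

/-- box -/
theorem pos_box {m n : ℕ} {G : List (List ℤ)} (hn : G.length ≤ n + 1)
    (hm : ∀ l ∈ G, l.length ≤ m + 1) {a b lo hi : ℝ}
    (h : ∀ s w : ℝ, 0 ≤ s → 0 ≤ w → (1 + s) ^ m * (1 + w) ^ n ≤
      homT m n G (a + b * s) (1 + s) (lo + hi * w) (1 + w)) :
    ∀ t ∈ Icc a b, ∀ u ∈ Icc lo hi, 1 ≤ evT G t u := by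
  have h1 : ∀ s w : ℝ, 0 ≤ s → 0 ≤ w → 1 ≤ evT G ((a + b * s) / (1 + s)) ((lo + hi * w) / (1 + w)) := by
    intro s w hs hw
    exact one_le_of_hom_aux hn hm (by linarith) (by linarith) (h s w hs hw)
  intro t ht
  refine one_le_of_param_aux (continuous_evT_aux2 G t) ?_
  intro w hw
  exact one_le_of_param_aux (continuous_evT_aux1 G ((lo + hi * w) / (1 + w)))
    (fun s hs => h1 s w hs hw) t ht

/-- upper half line -/
theorem pos_top {m n : ℕ} {G : List (List ℤ)} (hn : G.length ≤ n + 1)
    (hm : ∀ l ∈ G, l.length ≤ m + 1) {a b H : ℝ}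
    (h : ∀ s w : ℝ, 0 ≤ s → 0 ≤ w → (1 + s) ^ m ≤
      homT m n G (a + b * s) (1 + s) (H + w) 1) :
    ∀ t ∈ Icc a b, ∀ u, H ≤ u → 1 ≤ evT G t u := by
  intro t ht u hu
  refine one_le_of_param_aux (continuous_evT_aux1 G u) (fun s hs => ?_) t ht
  have h1 := h s (u - H) hs (by linarith)
  have h2 := one_le_of_hom_aux hn hm (A := a + b * s) (D := 1 + s) (A' := H + (u - H)) (D' := 1)
    (by linarith) one_pos (by simpa using h1)
  have e : (H + (u - H)) / 1 = u := by ring
  rwa [e] at h2

/-- lower half line -/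
theorem pos_bot {m n : ℕ} {G : List (List ℤ)} (hn : G.length ≤ n + 1)
    (hm : ∀ l ∈ G, l.length ≤ m + 1) {a b L : ℝ}
    (h : ∀ s w : ℝ, 0 ≤ s → 0 ≤ w → (1 + s) ^ m ≤
      homT m n G (a + b * s) (1 + s) (L - w) 1) :
    ∀ t ∈ Icc a b, ∀ u, u ≤ L → 1 ≤ evT G t u := by
  intro t ht u hu
  refine one_le_of_param_aux (continuous_evT_aux1 G u) (fun s hs => ?_) t ht
  have h1 := h s (L - u) hs (by linarith)
  have h2 := one_le_of_hom_aux hn hm (A := a + b * s) (D := 1 + s) (A' := L - (L - u)) (D' := 1)
    (by linarith) one_pos (by simpa using h1)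
  have e : (L - (L - u)) / 1 = u := by ring
  rwa [e] at h2

end Oct
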