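import Pool.Agent.helper70.M8.Defs
import Pool.Agent.helper70.M8.C1
import Pool.Agent.helper70.M8.W

set_option autoImplicit false

/-!
# OCT2-E2: the sides of a box as segments of a ray (adapted from helper69.Oct.E2)
-/

open MvPolynomial Set Filter Topology

namespace Oct

theorem e2_eval_smul {F : MvPolynomial (Fin 3) ℝ} {d : ℕ} (hF : F.IsHomogeneous d) (m : ℝ)
    (v : Fin 3 → ℝ) : eval (m • v) F = m ^ d * eval v F := by
  rw [eval_eq, eval_eq, Finset.mul_sum]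
  refine Finset.sum_congr rfl fun e he => ?_
  have h1 : ∑ i ∈ e.support, e i = d := (hF.degree_eq_sum_deg_support he).symm
  have h2 : ∏ i ∈ e.support, (m • v) i ^ e i = m ^ d * ∏ i ∈ e.support, v i ^ e i := by
    simp only [Pi.smul_apply, smul_eq_mul, mul_pow]
    rw [Finset.prod_mul_distrib, Finset.prod_pow_eq_pow_sum, h1]
  rw [h2]
  ring

theorem e2_ray {F : MvPolynomial (Fin 3) ℝ} {d : ℕ} (hF : F.IsHomogeneous d) (ch : Chart)
    (T m : ℤ) (u : ℝ) :
    rayF F ((m * ch.vxZ T : ℤ) : ℝ) ((m * ch.vyZ T : ℤ) : ℝ)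
      ((m : ℝ) * ((ch.al : ℝ) * u + (ch.beZ T : ℤ))) = (m : ℝ) ^ d * eval (ch.pt T u) F := by
  have hv : (![((m * ch.vxZ T : ℤ) : ℝ), ((m * ch.vyZ T : ℤ) : ℝ),
      (m : ℝ) * ((ch.al : ℝ) * u + (ch.beZ T : ℤ))] : Fin 3 → ℝ) = (m : ℝ) • ch.pt T u := by
    ext i
    fin_cases i
    · simp [Chart.pt, Chart.vx, Chart.vxZ]
    · simp [Chart.pt, Chart.vy, Chart.vyZ]
    · simp [Chart.pt, Chart.be, Chart.beZ]
  unfold rayF
  rw [hv, e2_eval_smul hF]

theorem e2_posOn {F : MvPolynomial (Fin 3) ℝ} {ch : Chart} {r a b c d t u : ℝ}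
    (h : PosOn (C r * ch.pull F) a b c d) (ht : t ∈ Icc a b) (hu : u ∈ Icc c d) :
    0 < r * eval (ch.pt t u) F := by
  have h1 := h t ht u hu
  rwa [map_mul, eval_C, eval_pull] at h1

theorem e2_side {F : MvPolynomial (Fin 3) ℝ} {d : ℕ} (hF : F.IsHomogeneous d) {col : Column}
    {b : Box} (h : BoxOK F col b) (hs : 0 < b.s) (hal : 0 < col.ch.al)
    (par : List ℕ) (s0 : Bool) {m : ℤ} (hm : 0 < m) (T : ℤ)
    (hT : (T : ℝ) ∈ Icc (col.a : ℝ) col.b) (right : Bool)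
    (hdf : (if right then b.ty == 3 else b.ty == 2) = true → b.sl = b.sh ∧
      ∀ u ∈ Icc (b.lo : ℝ) b.hi, 0 < sg b.sl * eval (col.ch.pt T u) F) :
    SegOK (rayF F (m * col.ch.vxZ T : ℤ) (m * col.ch.vyZ T : ℤ))
      (segOf par s0 col.ch (col.ch.beZ T) m right b) := by
  have hmR : (0 : ℝ) < m := by exact_mod_cast hm
  have halR : (0 : ℝ) < col.ch.al := by exact_mod_cast hal
  have hsR : (0 : ℝ) < b.s := by exact_mod_cast hs
  have hlohi : (b.lo : ℝ) < b.hi := by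
    simp only [Box.lo, Box.hi]
    push_cast
    linarith
  have hmd : (0 : ℝ) < (m : ℝ) ^ d := pow_pos hmR d
  set Z : ℝ → ℝ := fun u => (m : ℝ) * ((col.ch.al : ℝ) * u + (col.ch.beZ T : ℤ)) with hZ
  set U : ℝ → ℝ := fun z => (z / m - (col.ch.beZ T : ℤ)) / col.ch.al with hU
  have hZU : ∀ z, Z (U z) = z := by
    intro z
    simp only [hZ, hU]
    field_simp
    ring
  have hZmono : StrictMono Z := by
    intro u v huv
    simp only [hZ]
    have := mul_lt_mul_of_pos_left huv halR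
    exact mul_lt_mul_of_pos_left (by linarith) hmR
  have hUmem : ∀ z ∈ Icc (Z b.lo) (Z b.hi), U z ∈ Icc (b.lo : ℝ) b.hi := by
    intro z hz
    constructor
    · rw [← hZmono.le_iff_le, hZU]; exact hz.1
    · rw [← hZmono.le_iff_le, hZU]; exact hz.2
  set g := rayF F ((m * col.ch.vxZ T : ℤ) : ℝ) ((m * col.ch.vyZ T : ℤ) : ℝ) with hg
  have hgZ : ∀ u, g (Z u) = (m : ℝ) ^ d * eval (col.ch.pt T u) F := fun u => e2_ray hF col.ch T m u
  have hgU : ∀ z, g z = (m : ℝ) ^ d * eval (col.ch.pt T (U z)) F := by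
    intro z
    rw [← hgZ, hZU]
  have elo : (((segOf par s0 col.ch (col.ch.beZ T) m right b).lo : ℤ) : ℝ) = Z b.lo := by
    simp [segOf, hZ]
  have ehi : (((segOf par s0 col.ch (col.ch.beZ T) m right b).hi : ℤ) : ℝ) = Z b.hi := by
    simp [segOf, hZ]
  obtain ⟨hlo, hhi, hcase⟩ := h
  have mulpos : ∀ {r x : ℝ}, 0 < r * x → 0 < r * ((m : ℝ) ^ d * x) := by
    intro r x hx
    have : r * ((m : ℝ) ^ d * x) = (m : ℝ) ^ d * (r * x) := by ring
    rw [this]
    exact mul_pos hmd hx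
  refine ⟨?_, ?_, ?_, ?_, ?_⟩
  · have : (((segOf par s0 col.ch (col.ch.beZ T) m right b).lo : ℤ) : ℝ) <
        ((segOf par s0 col.ch (col.ch.beZ T) m right b).hi : ℤ) := by
      rw [elo, ehi]
      exact hZmono hlohi
    exact_mod_cast this
  · rw [elo, hgZ]
    exact mulpos (e2_posOn hlo hT ⟨le_refl _, le_refl _⟩)
  · rw [ehi, hgZ]
    exact mulpos (e2_posOn hhi hT ⟨le_refl _, le_refl _⟩)
  · intro hd
    rw [elo, ehi]
    have hd' : (b.ty == 0 || (if right then b.ty == 3 else b.ty == 2)) = true := hd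
    have key : b.sl = b.sh ∧ ∀ u ∈ Icc (b.lo : ℝ) b.hi,
        0 < sg b.sl * eval (col.ch.pt T u) F := by
      rw [Bool.or_eq_true] at hd'
      rcases hd' with h0 | h1
      · have h0' : b.ty = 0 := by simpa using h0
        rcases hcase with ⟨_, h2, h3⟩ | ⟨h2, _⟩ | ⟨h2, _⟩ | ⟨h2, _⟩
        · exact ⟨h2, fun u hu => e2_posOn h3 hT hu⟩
        · omega
        · omega
        · omega
      · exact hdf h1
    refine ⟨key.1, fun z hz => ?_⟩
    rw [hgU]
    exact mulpos (key.2 _ (hUmem z hz))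
  · intro hmo
    have hmo' : b.ty = 1 := by
      have : (b.ty == 1) = true := hmo
      simpa using this
    rw [elo, ehi]
    rcases hcase with ⟨h2, _⟩ | ⟨_, h2, h3⟩ | ⟨h2, _⟩ | ⟨h2, _⟩
    · omega
    · refine ⟨h2, ?_⟩
      have hup := up_of_upC h3 hT
      intro z hz w hw hzw h0
      have h6 : U z < U w := by rw [← hZmono.lt_iff_lt, hZU, hZU]; exact hzw
      have h7 := hup (U z) (hUmem z hz) (U w) (hUmem w hw) h6
      simp only [eval_pull] at h7
      have h0' : 0 ≤ sg b.sh * g z := h0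
      rw [hgU] at h0'
      have h8 : 0 ≤ sg b.sh * eval (col.ch.pt T (U z)) F := by
        have e : sg b.sh * ((m : ℝ) ^ d * eval (col.ch.pt T (U z)) F) =
            (m : ℝ) ^ d * (sg b.sh * eval (col.ch.pt T (U z)) F) := by ring
        rw [e] at h0'
        exact nonneg_of_mul_nonneg_right h0' hmd
      show 0 < sg b.sh * g w
      rw [hgU]
      exact mulpos (h7 h8)
    · omega
    · omega

theorem segOK_right {F : MvPolynomial (Fin 3) ℝ} {d : ℕ} (hF : F.IsHomogeneous d) {col : Column}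
    {b : Box} (h : BoxOK F col b) (hR : 0 < col.R) (hs : 0 < b.s) (hal : 0 < col.ch.al)
    (par : List ℕ) (s0 : Bool) {m : ℤ} (hm : 0 < m) :
    SegOK (rayF F (m * col.ch.vxZ col.b : ℤ) (m * col.ch.vyZ col.b : ℤ))
      (segOf par s0 col.ch (col.ch.beZ col.b) m true b) := by
  have hab : (col.a : ℝ) ≤ col.b := by
    have : col.a ≤ col.b := by simp only [Column.a, Column.b]; omega
    exact_mod_cast this
  refine e2_side hF h hs hal par s0 hm col.b ⟨hab, le_refl _⟩ true ?_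
  intro h3
  have h3' : b.ty = 3 := by simpa using h3
  obtain ⟨_, _, hcase⟩ := h
  rcases hcase with ⟨h2, _⟩ | ⟨h2, _⟩ | ⟨h2, _⟩ | ⟨_, h4, h5, _⟩
  · omega
  · omega
  · omega
  · exact ⟨h4, fun u hu => e2_posOn h5 ⟨le_refl _, le_refl _⟩ hu⟩

theorem segOK_left {F : MvPolynomial (Fin 3) ℝ} {d : ℕ} (hF : F.IsHomogeneous d) {col : Column}
    {b : Box} (h : BoxOK F col b) (hR : 0 < col.R) (hs : 0 < b.s) (hal : 0 < col.ch.al)
    (par : List ℕ) (s0 : Bool) {m : ℤ} (hm : 0 < m) :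
    SegOK (rayF F (m * col.ch.vxZ col.a : ℤ) (m * col.ch.vyZ col.a : ℤ))
      (segOf par s0 col.ch (col.ch.beZ col.a) m false b) := by
  have hab : (col.a : ℝ) ≤ col.b := by
    have : col.a ≤ col.b := by simp only [Column.a, Column.b]; omega
    exact_mod_cast this
  refine e2_side hF h hs hal par s0 hm col.a ⟨le_refl _, hab⟩ false ?_
  intro h3
  have h3' : b.ty = 2 := by simpa using h3
  obtain ⟨_, _, hcase⟩ := h
  rcases hcase with ⟨h2, _⟩ | ⟨h2, _⟩ | ⟨_, h4, h5, _⟩ | ⟨h2, _⟩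
  · omega
  · omega
  · exact ⟨h4, fun u hu => e2_posOn h5 ⟨le_refl _, le_refl _⟩ hu⟩
  · omega

end Oct
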