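import Pool.Agent.helper70.M8.Defs
import Pool.Agent.helper70.M8.C1
import Pool.Agent.helper70.M8.D
import Pool.Agent.helper70.M8.E1
import Pool.Agent.helper70.M8.E2
import Pool.Agent.helper70.M8.F1

set_option autoImplicit false

/-!
# [OCT-G] labels of the cells agree on intersections
-/

open MvPolynomial Set

namespace Oct

namespace GlueAux

/-! ### signs and homogeneity -/

theorem eval_smul_homog {F : MvPolynomial (Fin 3) ℝ} {d : ℕ} (hF : F.IsHomogeneous d) (c : ℝ)
    (v : Fin 3 → ℝ) : eval (c • v) F = c ^ d * eval v F := by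
  rw [eval_eq, eval_eq, Finset.mul_sum]
  refine Finset.sum_congr rfl fun m hm => ?_
  have h1 : m.degree = d := by
    by_contra hne
    exact (mem_support_iff.1 hm) (hF.coeff_eq_zero hne)
  have h2 : ∏ i ∈ m.support, (c • v) i ^ m i = c ^ d * ∏ i ∈ m.support, v i ^ m i := by
    simp only [Pi.smul_apply, smul_eq_mul, mul_pow, Finset.prod_mul_distrib]
    rw [Finset.prod_pow_eq_pow_sum, ← h1, Finsupp.degree]
    rfl
  rw [h2]; ring

theorem has_mul {s : S3} {c r : ℝ} (hc : 0 < c) : s.Has (c * r) ↔ s.Has r := by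
  cases s
  · exact ⟨fun h => (mul_pos_iff_of_pos_left hc).1 h, fun h => mul_pos hc h⟩
  · constructor
    · intro h
      have h' : c * r < 0 := h
      by_contra hr
      have : 0 ≤ r := not_lt.1 hr
      nlinarith
    · intro h
      have h' : r < 0 := h
      show c * r < 0
      nlinarith
  · show c * r = 0 ↔ r = 0
    constructor
    · intro h
      rcases mul_eq_zero.1 h with h | h
      · exact absurd h hc.ne'
      · exact h
    · intro h; rw [h, mul_zero]

theorem has_smul {F : MvPolynomial (Fin 3) ℝ} {d : ℕ} (hF : F.IsHomogeneous d) (hd : Even d)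
    {c : ℝ} (hc : c ≠ 0) (v : Fin 3 → ℝ) (s : S3) : s.Has (eval (c • v) F) ↔ s.Has (eval v F) := by
  rw [eval_smul_homog hF]
  exact has_mul (hd.pow_pos hc)

theorem has_of {b : Bool} {r : ℝ} (h : 0 < sg b * r) {s : S3} (hs : s.Has r) : s = S3.of b := by
  cases b
  · have h' : r < 0 := by simpa [sg] using h
    cases s
    · exact absurd (show (0 : ℝ) < r from hs) (not_lt.2 h'.le)
    · rfl
    · exact absurd (show r = 0 from hs) h'.ne
  · have h' : 0 < r := by simpa [sg] using h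
    cases s
    · rfl
    · exact absurd (show r < 0 from hs) (not_lt.2 h'.le)
    · exact absurd (show r = 0 from hs) h'.ne'

theorem sg_ne (b : Bool) : sg b ≠ 0 := by cases b <;> simp [sg]

theorem sg_not (b : Bool) : sg (!b) = - sg b := by cases b <;> simp [sg]

theorem lb_flip (e : Seg) (s : S3) : e.flip.lb s = - e.lb s := by cases s <;> rfl

theorem ls_not (l : Bool) (i : ℤ) : ls (!l) (-i) = ls l i := by cases l <;> simp [ls]

theorem ls_not' (l : Bool) (i : ℤ) : ls (!l) i = ls l (-i) := by cases l <;> simp [ls]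

/-! ### glueing along a ray -/

/-- the height `z` belongs to a part of the edge with label `lab` -/
def EP (sp : Bool) (pl : ℤ) (E : Edge) (g : ℝ → ℝ) (z : ℝ) (s : S3) (lab : ℤ) : Prop :=
  (∃ e ∈ E.segs, SegOK g e ∧ z ∈ Icc (e.lo : ℝ) e.hi ∧ lab = e.lb s) ∨
  ((E.hi : ℝ) ≤ z ∧ s = S3.of sp ∧ lab = pl) ∨ (z ≤ (E.lo : ℝ) ∧ s = S3.of sp ∧ lab = -pl)

theorem EP_flip {sp : Bool} {pl : ℤ} {E : Edge} {g : ℝ → ℝ} {z : ℝ} {s : S3} {lab : ℤ}
    (h : EP sp pl E g z s lab) : EP sp pl E.flip (fun x => g (-x)) (-z) s (-lab) := by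
  rcases h with ⟨e, he, hok, hz, hl⟩ | ⟨hz, hs, hl⟩ | ⟨hz, hs, hl⟩
  · refine Or.inl ⟨e.flip, ?_, segOK_flip hok, ?_, ?_⟩
    · exact List.mem_reverse.2 (List.mem_map_of_mem he)
    · constructor
      · have : ((e.flip.lo : ℤ) : ℝ) = -(e.hi : ℝ) := by simp [Seg.flip]
        rw [this]; exact neg_le_neg hz.2
      · have : ((e.flip.hi : ℤ) : ℝ) = -(e.lo : ℝ) := by simp [Seg.flip]
        rw [this]; exact neg_le_neg hz.1
    · rw [hl, lb_flip]
  · refine Or.inr (Or.inr ⟨?_, hs, by rw [hl]⟩)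
    have : ((E.flip.lo : ℤ) : ℝ) = -(E.hi : ℝ) := by simp [Edge.flip]
    rw [this]; exact neg_le_neg hz
  · refine Or.inr (Or.inl ⟨?_, hs, by rw [hl, neg_neg]⟩)
    have : ((E.flip.hi : ℤ) : ℝ) = -(E.lo : ℝ) := by simp [Edge.flip]
    rw [this]; exact neg_le_neg hz

theorem edge_glue {sp : Bool} {pl : ℤ} {E E' : Edge} (h : EdgeGlue sp pl E E') {g : ℝ → ℝ}
    (hg : Continuous g) {z : ℝ} {s : S3} (hs : s.Has (g z)) {lab lab' : ℤ}
    (h1 : EP sp pl E g z s lab) (h2 : EP sp pl E' g z s lab') : lab = lab' := by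
  rcases h1 with ⟨e, he, hok, hz, hl⟩ | ⟨hz, hsp, hl⟩ | ⟨hz, hsp, hl⟩
  · rcases h2 with ⟨e', he', hok', hz', hl'⟩ | ⟨hz', hsp, hl'⟩ | ⟨hz', hsp, hl'⟩
    · obtain ⟨hn, hall⟩ := h.segs e he e' he'
      rw [hl, hl']
      exact hall s (pres_sound hg hok hok' hn hz hz' hs)
    · have h3 : E'.hi ≤ e.hi := by exact_mod_cast hz'.trans hz.2
      rw [hl, hl', hsp]
      exact h.top' e he h3
    · have h3 : e.lo ≤ E'.lo := by exact_mod_cast hz.1.trans hz'
      rw [hl, hl', hsp]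
      exact h.bot' e he h3
  · rcases h2 with ⟨e', he', hok', hz', hl'⟩ | ⟨hz', hsp', hl'⟩ | ⟨hz', hsp', hl'⟩
    · have h3 : E.hi ≤ e'.hi := by exact_mod_cast hz.trans hz'.2
      rw [hl, hl', hsp]
      exact (h.top e' he' h3).symm
    · rw [hl, hl']
    · exfalso
      have h3 : E.hi ≤ E'.lo := by exact_mod_cast hz.trans hz'
      exact absurd h.lt' (not_lt.2 h3)
  · rcases h2 with ⟨e', he', hok', hz', hl'⟩ | ⟨hz', hsp', hl'⟩ | ⟨hz', hsp', hl'⟩
    · have h3 : e'.lo ≤ E.lo := by exact_mod_cast hz'.1.trans hz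
      rw [hl, hl', hsp]
      exact (h.bot e' he' h3).symm
    · exfalso
      have h3 : E'.hi ≤ E.lo := by exact_mod_cast hz'.trans hz
      exact absurd h.lt (not_lt.2 h3)
    · rw [hl, hl']

/-! ### vertical positions in a column -/

/-- the level `u` belongs to a part of the column `col` with label `lab` -/
def VP (ct : Cert) (col : Column) (u : ℝ) (s : S3) (lab : ℤ) : Prop :=
  (∃ j < col.bx.length, u ∈ Icc ((col.box j).lo : ℝ) (col.box j).hi ∧
    lab = ct.bl (col.box j) s) ∨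
  ((col.H : ℝ) ≤ u ∧ s = S3.of ct.sp ∧ lab = ct.pl) ∨
  (u ≤ (col.L : ℝ) ∧ s = S3.of ct.sp ∧ lab = -ct.pl)

theorem col_L (col : Column) (hb : col.bx ≠ []) : col.L = (col.box 0).lo := by
  unfold Column.L Column.box
  cases h : col.bx with
  | nil => exact absurd h hb
  | cons a l => simp

theorem col_H (col : Column) (hb : col.bx ≠ []) :
    col.H = (col.box (col.bx.length - 1)).hi := by
  unfold Column.H Column.box
  have h1 : col.bx.getLast? = some (col.bx.getLast hb) := List.getLast?_eq_some_getLast hb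
  rw [h1]
  have h2 : col.bx.getD (col.bx.length - 1) box0 = col.bx.getLast hb := by
    rw [List.getLast_eq_getElem]
    have h3 : col.bx.length - 1 < col.bx.length := by
      have := List.length_pos_iff.2 hb
      omega
    rw [List.getD_eq_getElem _ _ h3]
  rw [h2]

theorem box_mem {col : Column} {j : ℕ} (hj : j < col.bx.length) : col.box j ∈ col.bx := by
  unfold Column.box
  rw [List.getD_eq_getElem _ _ hj]
  exact List.getElem_mem hj

theorem lo_lt_hi {ct : Cert} (h : Comb ct) {col : Column} (hc : col ∈ ct.cols) {j : ℕ}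
    (hj : j < col.bx.length) : (col.box j).lo < (col.box j).hi := by
  have := h.boxS col hc _ (box_mem hj)
  unfold Box.lo Box.hi
  omega

theorem hi_lo {ct : Cert} (h : Comb ct) {col : Column} (hc : col ∈ ct.cols) {j k : ℕ}
    (hjk : j < k) (hk : k < col.bx.length) : (col.box j).hi ≤ (col.box k).lo ∧
    ((col.box j).hi = (col.box k).lo → k = j + 1) := by
  obtain ⟨n, rfl⟩ : ∃ n, k = j + 1 + n := ⟨k - (j + 1), by omega⟩
  induction n with
  | zero =>
      have := (h.vert col hc j (by omega)).1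
      exact ⟨by simpa using this.le, fun _ => by simp⟩
  | succ n ih =>
      have h1 := ih (by omega) (by omega)
      have h2 := (h.vert col hc (j + 1 + n) (by omega)).1
      have h3 := lo_lt_hi h hc (j := j + 1 + n) (by omega)
      have h4 : j + 1 + (n + 1) = j + 1 + n + 1 := by ring
      rw [h4]
      rw [h2] at h3
      exact ⟨by omega, fun h5 => by omega⟩

theorem vp_aux {ct : Cert} (h : Comb ct) {col : Column} (hc : col ∈ ct.cols)
    {g : ℝ → ℝ} (hg : ∀ j < col.bx.length, 0 < sg (col.box j).sh * g ((col.box j).hi : ℝ))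
    {u : ℝ} {s : S3} (hs : s.Has (g u)) {j k : ℕ} (hjk : j ≤ k)
    (hk : k < col.bx.length) (hu : u ∈ Icc ((col.box j).lo : ℝ) (col.box j).hi)
    (hu' : u ∈ Icc ((col.box k).lo : ℝ) (col.box k).hi) :
    ct.bl (col.box j) s = ct.bl (col.box k) s := by
  rcases hjk.eq_or_lt with rfl | hlt
  · rfl
  · obtain ⟨h1, h2⟩ := hi_lo h hc hlt hk
    have h3 : (col.box k).lo ≤ (col.box j).hi := by exact_mod_cast hu'.1.trans hu.2
    have h4 := h2 (le_antisymm h1 h3)
    subst h4
    obtain ⟨v1, v2, v3⟩ := h.vert col hc j hk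
    have h5 : u = ((col.box j).hi : ℝ) := by
      apply le_antisymm hu.2
      rw [v1]; exact hu'.1
    have h6 : s = S3.of (col.box j).sh := by
      apply has_of (hg j (by omega))
      rw [← h5]; exact hs
    rw [h6]; exact v3

theorem vp_glue {ct : Cert} (h : Comb ct) {col : Column} (hc : col ∈ ct.cols)
    {g : ℝ → ℝ} (hg : ∀ j < col.bx.length, 0 < sg (col.box j).sh * g ((col.box j).hi : ℝ))
    {u : ℝ} {s : S3} (hs : s.Has (g u)) {lab lab' : ℤ}
    (h1 : VP ct col u s lab) (h2 : VP ct col u s lab') : lab = lab' := by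
  have hb : col.bx ≠ [] := (h.colR col hc).2.2.2.2.2
  have hlen := List.length_pos_iff.2 hb
  -- box and top
  have key1 : ∀ j < col.bx.length, u ∈ Icc ((col.box j).lo : ℝ) (col.box j).hi →
      (col.H : ℝ) ≤ u → s = S3.of ct.sp → ct.bl (col.box j) s = ct.pl := by
    intro j hj hu hH hsp
    rw [col_H col hb] at hH
    have hj' : j = col.bx.length - 1 := by
      by_contra hne
      have hlt : j < col.bx.length - 1 := by omega
      obtain ⟨h3, -⟩ := hi_lo h hc hlt (by omega)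
      have h4 := lo_lt_hi h hc (j := col.bx.length - 1) (by omega)
      have h5 : (col.box (col.bx.length - 1)).hi ≤ (col.box j).hi := by
        exact_mod_cast hH.trans hu.2
      omega
    rw [hj', hsp]
    exact (h.top col hc).2
  have key2 : ∀ j < col.bx.length, u ∈ Icc ((col.box j).lo : ℝ) (col.box j).hi →
      u ≤ (col.L : ℝ) → s = S3.of ct.sp → ct.bl (col.box j) s = -ct.pl := by
    intro j hj hu hL hsp
    rw [col_L col hb] at hL
    have hj' : j = 0 := by
      by_contra hne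
      have hlt : 0 < j := by omega
      obtain ⟨h3, -⟩ := hi_lo h hc hlt hj
      have h4 := lo_lt_hi h hc (j := 0) (by omega)
      have h5 : (col.box j).lo ≤ (col.box 0).lo := by
        exact_mod_cast hu.1.trans hL
      omega
    rw [hj', hsp]
    exact (h.bot col hc).2
  have key3 : ¬ ((col.H : ℝ) ≤ u ∧ u ≤ (col.L : ℝ)) := by
    rintro ⟨hH, hL⟩
    have h3 : col.H ≤ col.L := by exact_mod_cast hH.trans hL
    rw [col_H col hb, col_L col hb] at h3
    have h4 := lo_lt_hi h hc (j := col.bx.length - 1) (by omega)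
    rcases Nat.eq_zero_or_pos (col.bx.length - 1) with h0 | h0
    · rw [h0] at h3 h4; omega
    · obtain ⟨h5, -⟩ := hi_lo h hc h0 (by omega)
      have h6 := lo_lt_hi h hc (j := 0) (by omega)
      omega
  rcases h1 with ⟨j, hj, hu, hl⟩ | ⟨hu, hsp, hl⟩ | ⟨hu, hsp, hl⟩
  · rcases h2 with ⟨k, hk, hu', hl'⟩ | ⟨hu', hsp, hl'⟩ | ⟨hu', hsp, hl'⟩
    · rw [hl, hl']
      rcases le_total j k with hjk | hjk
      · exact vp_aux h hc hg hs hjk hk hu hu'
      · exact (vp_aux h hc hg hs hjk hj hu' hu).symm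
    · rw [hl, hl']; exact key1 j hj hu hu' hsp
    · rw [hl, hl']; exact key2 j hj hu hu' hsp
  · rcases h2 with ⟨k, hk, hu', hl'⟩ | ⟨hu', hsp', hl'⟩ | ⟨hu', hsp', hl'⟩
    · rw [hl, hl']; exact (key1 k hk hu' hu hsp).symm
    · rw [hl, hl']
    · exact absurd ⟨hu, hu'⟩ key3
  · rcases h2 with ⟨k, hk, hu', hl'⟩ | ⟨hu', hsp', hl'⟩ | ⟨hu', hsp', hl'⟩
    · rw [hl, hl']; exact (key2 k hk hu' hu hsp).symm
    · exact absurd ⟨hu', hu⟩ key3
    · rw [hl, hl']

/-! ### from a column to its sides -/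

theorem vx_int (c : Chart) (t : ℤ) : c.vx (t : ℝ) = ((c.vxZ t : ℤ) : ℝ) := by
  simp [Chart.vx, Chart.vxZ]
theorem vy_int (c : Chart) (t : ℤ) : c.vy (t : ℝ) = ((c.vyZ t : ℤ) : ℝ) := by
  simp [Chart.vy, Chart.vyZ]
theorem be_int (c : Chart) (t : ℤ) : c.be (t : ℝ) = ((c.beZ t : ℤ) : ℝ) := by
  simp [Chart.be, Chart.beZ]

theorem bl_seg (ct : Cert) (ch : Chart) (be m : ℤ) (right : Bool) (b : Box) (s : S3) :
    ct.bl b s = (segOf ct.par ct.s0 ch be m right b).lb s := by cases s <;> rfl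

theorem ep_of_vp {ct : Cert} (h : Comb ct) {F : MvPolynomial (Fin 3) ℝ}
    {col : Column} (hc : col ∈ ct.cols) {m t : ℤ} (hm : 0 < m) (right : Bool)
    (hok : ∀ b ∈ col.bx, SegOK (rayF F (m * col.ch.vxZ t : ℤ) (m * col.ch.vyZ t : ℤ))
      (segOf ct.par ct.s0 col.ch (col.ch.beZ t) m right b)) {u : ℝ} {s : S3} {lab : ℤ}
    (hv : VP ct col u s lab) :
    EP ct.sp ct.pl (edgeOf ct.par ct.s0 col t m right)
      (rayF F (m * col.ch.vxZ t : ℤ) (m * col.ch.vyZ t : ℤ))
      ((m : ℝ) * (col.ch.al * u + col.ch.beZ t)) s lab := by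
  have hal : (0 : ℝ) < col.ch.al := by exact_mod_cast (h.colR col hc).2.1
  have hm' : (0 : ℝ) < m := by exact_mod_cast hm
  have mono : ∀ {x y : ℝ}, x ≤ y → (m : ℝ) * (col.ch.al * x + col.ch.beZ t) ≤
      (m : ℝ) * (col.ch.al * y + col.ch.beZ t) := by
    intro x y hxy
    apply mul_le_mul_of_nonneg_left _ hm'.le
    have := mul_le_mul_of_nonneg_left hxy hal.le
    linarith
  rcases hv with ⟨j, hj, hu, hl⟩ | ⟨hu, hsp, hl⟩ | ⟨hu, hsp, hl⟩
  · refine Or.inl ⟨_, List.mem_map_of_mem (box_mem hj), hok _ (box_mem hj), ⟨?_, ?_⟩, ?_⟩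
    · have := mono hu.1
      simpa [segOf] using this
    · have := mono hu.2
      simpa [segOf] using this
    · rw [hl]; exact bl_seg _ _ _ _ _ _ _
  · refine Or.inr (Or.inl ⟨?_, hsp, hl⟩)
    have := mono hu
    simpa [edgeOf] using this
  · refine Or.inr (Or.inr ⟨?_, hsp, hl⟩)
    have := mono hu
    simpa [edgeOf] using this

theorem continuous_rayF (F : MvPolynomial (Fin 3) ℝ) (x y : ℝ) : Continuous (rayF F x y) := by
  unfold rayF
  apply (MvPolynomial.continuous_eval F).comp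
  apply continuous_pi
  intro i
  fin_cases i
  · exact continuous_const
  · exact continuous_const
  · exact continuous_id

theorem rayF_pt {F : MvPolynomial (Fin 3) ℝ} (ch : Chart) (m t : ℤ) (u : ℝ) :
    rayF F (m * ch.vxZ t : ℤ) (m * ch.vyZ t : ℤ) ((m : ℝ) * (ch.al * u + ch.beZ t)) =
      eval ((m : ℝ) • ch.pt t u) F := by
  unfold rayF
  congr 2
  funext i
  fin_cases i
  · simp [Chart.pt, vx_int]
  · simp [Chart.pt, vy_int]
  · simp [Chart.pt, be_int]

theorem rayF_neg {F : MvPolynomial (Fin 3) ℝ} {d : ℕ} (hF : F.IsHomogeneous d) (hd : Even d)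
    (x y z : ℝ) : rayF F (-x) (-y) (-z) = rayF F x y z := by
  unfold rayF
  have h1 : (![-x, -y, -z] : Fin 3 → ℝ) = (-1 : ℝ) • ![x, y, z] := by
    funext i; fin_cases i <;> simp
  rw [h1, eval_smul_homog hF, hd.neg_one_pow, one_mul]

/-! ### the cells -/

/-- `x` is in the interior of a sector: lift `l`, column `i`, parameter `t`, level `u` -/
def Pos (ct : Cert) (x : V3) (s : S3) (lab : ℤ) (l : Bool) (i : ℕ) (r t u : ℝ) : Prop :=
  i < ct.n ∧ 0 < r ∧ t ∈ Icc ((ct.col i).a : ℝ) (ct.col i).b ∧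
    x.1 = (r * sg (!l)) • (ct.col i).ch.pt t u ∧ ∃ lab', VP ct (ct.col i) u s lab' ∧
      lab = ls l lab'

/-- description of the cells which contain `x` -/
theorem cell_cases {ct : Cert} (h : Comb ct) {F : MvPolynomial (Fin 3) ℝ} {d : ℕ}
    (hF : F.IsHomogeneous d) (hd : Even d) (ha : AnaOK F ct.sp ct.cols) (c : Cell)
    (hc : ct.Valid c) (s : S3) (x : V3) (hx : x ∈ ct.K c) (hs : s.Has (fV F x)) :
    (∃ e, x ∈ ct.K (Cell.pole e) ∧ ct.clab c s = ls e ct.pl) ∨
    ∃ l i r t u, Pos ct x s (ct.clab c s) l i r t u := by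
  cases c with
  | box l i j =>
      right
      obtain ⟨r, hr, t, ht, u, hu, hxe⟩ := hx
      exact ⟨l, i, r, t, u, hc.1, hr, ht, hxe, _, Or.inl ⟨j, hc.2, hu, rfl⟩, rfl⟩
  | top l i =>
      have hi : i < ct.n := hc
      have hcol := col_pos h hi
      have hsp : s = S3.of ct.sp := by
        obtain ⟨r, hr, t, ht, s', hs', hxe⟩ := hx
        have h1 := (ha _ hcol).1 t ht s' hs'
        rw [map_mul, eval_C, eval_pullEnd] at h1
        apply has_of h1
        have h2 : fV F x = eval ((r * sg (!l)) • (s' • (ct.col i).ch.pt t (ct.col i).H +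
            (1 - s') • pole false)) F := by
          unfold fV; rw [hxe]
        rw [h2] at hs
        simpa using (has_smul hF hd (mul_ne_zero hr.ne' (sg_ne _)) _ s).1 hs
      rcases (mem_top_iff h l hi x).1 hx with hp | ⟨r, hr, t, ht, u, hu, hxe⟩
      · exact Or.inl ⟨l, hp, rfl⟩
      · exact Or.inr ⟨l, i, r, t, u, hi, hr, ht, hxe, _, Or.inr (Or.inl ⟨hu, hsp, rfl⟩), rfl⟩
  | bot l i =>
      have hi : i < ct.n := hc
      have hcol := col_pos h hi
      have hsp : s = S3.of ct.sp := by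
        obtain ⟨r, hr, t, ht, s', hs', hxe⟩ := hx
        have h1 := (ha _ hcol).2.1 t ht s' hs'
        rw [map_mul, eval_C, eval_pullEnd] at h1
        apply has_of h1
        have h2 : fV F x = eval ((r * sg (!l)) • (s' • (ct.col i).ch.pt t (ct.col i).L +
            (1 - s') • pole true)) F := by
          unfold fV; rw [hxe]
        rw [h2] at hs
        simpa using (has_smul hF hd (mul_ne_zero hr.ne' (sg_ne _)) _ s).1 hs
      rcases (mem_bot_iff h l hi x).1 hx with hp | ⟨r, hr, t, ht, u, hu, hxe⟩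
      · exact Or.inl ⟨!l, hp, (ls_not' l ct.pl).symm⟩
      · exact Or.inr ⟨l, i, r, t, u, hi, hr, ht, hxe, _, Or.inr (Or.inr ⟨hu, hsp, rfl⟩), rfl⟩
  | pole l => exact Or.inl ⟨l, hx, rfl⟩

theorem pole_unique {ct : Cert} {x : V3} {e e' : Bool} (h : x ∈ ct.K (Cell.pole e))
    (h' : x ∈ ct.K (Cell.pole e')) : e = e' := by
  obtain ⟨r, hr, hx⟩ := h
  obtain ⟨r', hr', hx'⟩ := h'
  have h1 : r * sg (!e) = r' * sg (!e') := by
    have := congrFun (hx.symm.trans hx') 2
    simpa [pole] using this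
  cases e <;> cases e' <;> simp [sg] at h1 ⊢ <;> linarith

theorem pole_not_pos {ct : Cert} (h : Comb ct) {x : V3} {e : Bool}
    (hp : x ∈ ct.K (Cell.pole e)) {s : S3} {lab : ℤ} {l : Bool} {i : ℕ} {r t u : ℝ}
    (hq : Pos ct x s lab l i r t u) : False := by
  obtain ⟨ρ, hρ, hx⟩ := hp
  obtain ⟨hi, hr, ht, hx', -⟩ := hq
  have hne : r * sg (!l) ≠ 0 := mul_ne_zero hr.ne' (sg_ne _)
  have h0 := congrFun (hx.symm.trans hx') 0
  have h1 := congrFun (hx.symm.trans hx') 1
  simp only [pole, Chart.pt, Pi.smul_apply, smul_eq_mul, Matrix.cons_val_zero, mul_zero,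
    Matrix.cons_val_one] at h0 h1
  refine (vy_nonneg h hi ht).2 ⟨?_, ?_⟩
  · rcases mul_eq_zero.1 h0.symm with h2 | h2
    · exact absurd h2 hne
    · exact h2
  · rcases mul_eq_zero.1 h1.symm with h2 | h2
    · exact absurd h2 hne
    · exact h2

/-- same lift -/
theorem glue_same {ct : Cert} (h : Comb ct) {F : MvPolynomial (Fin 3) ℝ} {d : ℕ}
    (hF : F.IsHomogeneous d) (hd : Even d) (ha : AnaOK F ct.sp ct.cols) {s : S3} {x : V3}
    (hs : s.Has (fV F x)) {lab lab' : ℤ} {l : Bool} {i i' : ℕ} {r t u r' t' u' : ℝ}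
    (hii : i ≤ i') (hp : Pos ct x s lab l i r t u) (hq : Pos ct x s lab' l i' r' t' u') :
    lab = lab' := by
  obtain ⟨hi, hr, ht, hx, v, hv, rfl⟩ := hp
  obtain ⟨hi', hr', ht', hx', v', hv', rfl⟩ := hq
  have hcol := col_pos h hi
  have hcol' := col_pos h hi'
  have hsg := sg_ne (!l)
  have he : ∀ k, r * (ct.col i).ch.pt t u k = r' * (ct.col i').ch.pt t' u' k := by
    intro k
    have h1 := congrFun (hx.symm.trans hx') k
    simp only [Pi.smul_apply, smul_eq_mul] at h1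
    have h2 : sg (!l) * (r * (ct.col i).ch.pt t u k) = sg (!l) * (r' * (ct.col i').ch.pt t' u' k) := by
      linarith
    exact mul_left_cancel₀ hsg h2
  have e0 : r * (ct.col i).ch.vx t = r' * (ct.col i').ch.vx t' := he 0
  have e1 : r * (ct.col i).ch.vy t = r' * (ct.col i').ch.vy t' := he 1
  have e2 : r * ((ct.col i).ch.al * u + (ct.col i).ch.be t) =
      r' * ((ct.col i').ch.al * u' + (ct.col i').ch.be t') := he 2
  have hs1 : s.Has (eval ((ct.col i).ch.pt t u) F) := by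
    have h2 : fV F x = eval ((r * sg (!l)) • (ct.col i).ch.pt t u) F := by
      unfold fV; rw [hx]
    rw [h2] at hs
    exact (has_smul hF hd (mul_ne_zero hr.ne' hsg) _ s).1 hs
  rcases sector_unique h hii hi' ht ht' hr hr' e0 e1 with
    ⟨h1, h2, h3⟩ | ⟨h1, h2, h3, ρ, hρ, hr1, hr2⟩
  · subst h1 h2 h3
    have hal : (0 : ℝ) < (ct.col i).ch.al := by exact_mod_cast (h.colR _ hcol).2.1
    have hu : u = u' := by
      have h4 := mul_left_cancel₀ hr.ne' e2
      have h5 : ((ct.col i).ch.al : ℝ) * u = (ct.col i).ch.al * u' := by linarith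
      exact mul_left_cancel₀ hal.ne' h5
    subst hu
    congr 1
    refine vp_glue h hcol (g := fun u => eval ((ct.col i).ch.pt t u) F) ?_ hs1 hv hv'
    intro j hj
    have h6 := ((ha _ hcol).2.2 _ (box_mem hj)).2.1 t ht _ (left_mem_Icc.2 le_rfl)
    rwa [map_mul, eval_C, eval_pull] at h6
  · have hi1 : i + 1 < ct.n := by omega
    subst h1
    subst h2
    subst h3
    obtain ⟨hm, hm'⟩ := scal_pos h hi1
    obtain ⟨c0, c1⟩ := h.chain i hi1
    have hglue := h.glue i hi
    have eN : ct.eN i = ct.eL (i + 1) := by unfold Cert.eN; rw [if_pos hi1]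
    have eR : ct.eR i = edgeOf ct.par ct.s0 (ct.col i) (ct.col i).b
        ((ct.col i).scal (ct.col (i + 1))).1 true := by unfold Cert.eR; rw [if_pos hi1]
    rw [eN, eR] at hglue
    have hR := (h.colR _ hcol)
    have hR' := (h.colR _ hcol')
    have p1 := ep_of_vp h (F := F) hcol hm true (fun b hb => segOK_right hF
      ((ha _ hcol).2.2 b hb) hR.1 (h.boxS _ hcol b hb) hR.2.1 ct.par ct.s0 hm) hv
    have p2 := ep_of_vp h (F := F) hcol' hm' false (fun b hb => segOK_left hF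
      ((ha _ hcol').2.2 b hb) hR'.1 (h.boxS _ hcol' b hb) hR'.2.1 ct.par ct.s0 hm') hv'
    rw [← c0, ← c1] at p2
    have hz : (((ct.col i).scal (ct.col (i + 1))).1 : ℝ) *
        ((ct.col i).ch.al * u + (ct.col i).ch.beZ (ct.col i).b) =
        (((ct.col i).scal (ct.col (i + 1))).2 : ℝ) *
        ((ct.col (i + 1)).ch.al * u' + (ct.col (i + 1)).ch.beZ (ct.col (i + 1)).a) := by
      rw [be_int, be_int, hr1, hr2] at e2
      have h7 : ρ * ((((ct.col i).scal (ct.col (i + 1))).1 : ℝ) *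
          ((ct.col i).ch.al * u + (ct.col i).ch.beZ (ct.col i).b)) =
          ρ * ((((ct.col i).scal (ct.col (i + 1))).2 : ℝ) *
          ((ct.col (i + 1)).ch.al * u' + (ct.col (i + 1)).ch.beZ (ct.col (i + 1)).a)) := by
        linarith
      exact mul_left_cancel₀ hρ.ne' h7
    rw [← hz] at p2
    congr 1
    refine edge_glue hglue (continuous_rayF F _ _) ?_ p1 p2
    rw [rayF_pt]
    refine (has_smul hF hd ?_ _ s).2 hs1
    exact_mod_cast hm.ne'

/-- opposite lifts -/
theorem glue_opp {ct : Cert} (h : Comb ct) {F : MvPolynomial (Fin 3) ℝ} {d : ℕ}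
    (hF : F.IsHomogeneous d) (hd : Even d) (ha : AnaOK F ct.sp ct.cols) {s : S3} {x : V3}
    (hs : s.Has (fV F x)) {lab lab' : ℤ} {l : Bool} {r t u r' t' u' : ℝ}
    (hp : Pos ct x s lab l (ct.n - 1) r t u) (hq : Pos ct x s lab' (!l) 0 r' t' u')
    (hb : t = (ct.col (ct.n - 1)).b) (ha' : t' = (ct.col 0).a)
    (hρ' : ∃ ρ > 0, r = ρ * (((ct.col (ct.n - 1)).scalS (ct.col 0)).1 : ℝ) ∧
        r' = ρ * (((ct.col (ct.n - 1)).scalS (ct.col 0)).2 : ℝ)) :
    lab = lab' := by
  obtain ⟨hi, hr, ht, hx, v, hv, rfl⟩ := hp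
  obtain ⟨hi', hr', ht', hx', v', hv', rfl⟩ := hq
  obtain ⟨ρ, hρ, hr1, hr2⟩ := hρ'
  have hcol := col_pos h hi
  have hcol' := col_pos h hi'
  have hsg := sg_ne (!l)
  have he : ∀ k, r * (ct.col (ct.n - 1)).ch.pt t u k = -(r' * (ct.col 0).ch.pt t' u' k) := by
    intro k
    have h1 := congrFun (hx.symm.trans hx') k
    simp only [Pi.smul_apply, smul_eq_mul] at h1
    rw [sg_not (!l)] at h1
    have h2 : sg (!l) * (r * (ct.col (ct.n - 1)).ch.pt t u k) =
        sg (!l) * (-(r' * (ct.col 0).ch.pt t' u' k)) := by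
      linarith
    exact mul_left_cancel₀ hsg h2
  have e2 : r * ((ct.col (ct.n - 1)).ch.al * u + (ct.col (ct.n - 1)).ch.be t) =
      -(r' * ((ct.col 0).ch.al * u' + (ct.col 0).ch.be t')) := he 2
  have hs1 : s.Has (eval ((ct.col (ct.n - 1)).ch.pt t u) F) := by
    have h2 : fV F x = eval ((r * sg (!l)) • (ct.col (ct.n - 1)).ch.pt t u) F := by
      unfold fV; rw [hx]
    rw [h2] at hs
    exact (has_smul hF hd (mul_ne_zero hr.ne' hsg) _ s).1 hs
  subst hb
  subst ha'
  obtain ⟨hm, hm'⟩ := scalS_pos h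
  obtain ⟨c0, c1⟩ := scalS_eq h
  have hglue := h.glue (ct.n - 1) hi
  have hn1 : ¬ (ct.n - 1 + 1 < ct.n) := by omega
  have eN : ct.eN (ct.n - 1) = (ct.eL 0).flip := by unfold Cert.eN; rw [if_neg hn1]
  have eR : ct.eR (ct.n - 1) = edgeOf ct.par ct.s0 (ct.col (ct.n - 1)) (ct.col (ct.n - 1)).b
      ((ct.col (ct.n - 1)).scalS (ct.col 0)).1 true := by unfold Cert.eR; rw [if_neg hn1]
  have eL : ct.eL 0 = edgeOf ct.par ct.s0 (ct.col 0) (ct.col 0).a
      ((ct.col (ct.n - 1)).scalS (ct.col 0)).2 false := rfl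
  rw [eN, eR, eL] at hglue
  have hR := (h.colR _ hcol)
  have hR' := (h.colR _ hcol')
  have p1 := ep_of_vp h (F := F) hcol hm true (fun b hb => segOK_right hF
    ((ha _ hcol).2.2 b hb) hR.1 (h.boxS _ hcol b hb) hR.2.1 ct.par ct.s0 hm) hv
  have p2 := EP_flip (ep_of_vp h (F := F) hcol' hm' false (fun b hb => segOK_left hF
    ((ha _ hcol').2.2 b hb) hR'.1 (h.boxS _ hcol' b hb) hR'.2.1 ct.par ct.s0 hm') hv')
  have hz : -((((ct.col (ct.n - 1)).scalS (ct.col 0)).2 : ℝ) *
      ((ct.col 0).ch.al * u' + (ct.col 0).ch.beZ (ct.col 0).a)) =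
      (((ct.col (ct.n - 1)).scalS (ct.col 0)).1 : ℝ) *
      ((ct.col (ct.n - 1)).ch.al * u + (ct.col (ct.n - 1)).ch.beZ (ct.col (ct.n - 1)).b) := by
    rw [be_int, be_int, hr1, hr2] at e2
    have h7 : ρ * (-((((ct.col (ct.n - 1)).scalS (ct.col 0)).2 : ℝ) *
      ((ct.col 0).ch.al * u' + (ct.col 0).ch.beZ (ct.col 0).a))) =
      ρ * ((((ct.col (ct.n - 1)).scalS (ct.col 0)).1 : ℝ) *
      ((ct.col (ct.n - 1)).ch.al * u + (ct.col (ct.n - 1)).ch.beZ (ct.col (ct.n - 1)).b)) := by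
      linarith
    exact mul_left_cancel₀ hρ.ne' h7
  rw [hz] at p2
  have hgg : (fun x => rayF F ((((ct.col (ct.n - 1)).scalS (ct.col 0)).2 *
        (ct.col 0).ch.vxZ (ct.col 0).a : ℤ) : ℝ)
        ((((ct.col (ct.n - 1)).scalS (ct.col 0)).2 *
        (ct.col 0).ch.vyZ (ct.col 0).a : ℤ) : ℝ) (-x)) =
      rayF F ((((ct.col (ct.n - 1)).scalS (ct.col 0)).1 *
        (ct.col (ct.n - 1)).ch.vxZ (ct.col (ct.n - 1)).b : ℤ) : ℝ)
        ((((ct.col (ct.n - 1)).scalS (ct.col 0)).1 *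
        (ct.col (ct.n - 1)).ch.vyZ (ct.col (ct.n - 1)).b : ℤ) : ℝ) := by
    funext z
    rw [c0, c1, ← rayF_neg hF hd _ _ z]
    push_cast
    simp
  rw [hgg] at p2
  have hlab : v = -v' := by
    refine edge_glue hglue (continuous_rayF F _ _) ?_ p1 p2
    rw [rayF_pt]
    refine (has_smul hF hd ?_ _ s).2 hs1
    exact_mod_cast hm.ne'
  rw [hlab, ls_not' l v']

theorem pos_glue {ct : Cert} (h : Comb ct) {F : MvPolynomial (Fin 3) ℝ} {d : ℕ}
    (hF : F.IsHomogeneous d) (hd : Even d) (ha : AnaOK F ct.sp ct.cols) {s : S3} {x : V3}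
    (hs : s.Has (fV F x)) {lab lab' : ℤ} {l l' : Bool} {i i' : ℕ} {r t u r' t' u' : ℝ}
    (hp : Pos ct x s lab l i r t u) (hq : Pos ct x s lab' l' i' r' t' u') :
    lab = lab' := by
  by_cases hl : l = l'
  · subst hl
    rcases le_total i i' with hii | hii
    · exact glue_same h hF hd ha hs hii hp hq
    · exact (glue_same h hF hd ha hs hii hq hp).symm
  · have hl' : l' = !l := by cases l <;> cases l' <;> simp_all
    subst hl'
    have hp0 := hp
    have hq0 := hq
    obtain ⟨hi, hr, ht, hx, -⟩ := hp0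
    obtain ⟨hi', hr', ht', hx', -⟩ := hq0
    have he : ∀ k, r * (ct.col i).ch.pt t u k = -(r' * (ct.col i').ch.pt t' u' k) := by
      intro k
      have h1 := congrFun (hx.symm.trans hx') k
      simp only [Pi.smul_apply, smul_eq_mul] at h1
      rw [sg_not (!l)] at h1
      have h2 : sg (!l) * (r * (ct.col i).ch.pt t u k) =
          sg (!l) * (-(r' * (ct.col i').ch.pt t' u' k)) := by
        linarith
      exact mul_left_cancel₀ (sg_ne (!l)) h2
    rcases sector_seam h hi hi' ht ht' hr hr' (he 0) (he 1) with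
      ⟨h1, h2, h3, h4, h5⟩ | ⟨h1, h2, h3, h4, h5⟩
    · subst h1; subst h2
      exact glue_opp h hF hd ha hs hp hq h3 h4 h5
    · subst h1; subst h2
      have hp' : Pos ct x s lab (!(!l)) 0 r t u := by rw [Bool.not_not]; exact hp
      exact (glue_opp h hF hd ha hs hq hp' h3 h4 h5).symm

end GlueAux

theorem cell_glue {ct : Cert} (h : Comb ct) {F : MvPolynomial (Fin 3) ℝ} {d : ℕ}
    (hF : F.IsHomogeneous d) (hd : Even d) (ha : AnaOK F ct.sp ct.cols) (c c' : Cell)
    (hc : ct.Valid c) (hc' : ct.Valid c') (s : S3) (x : V3) (hx : x ∈ ct.K c) (hx' : x ∈ ct.K c')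
    (hs : s.Has (fV F x)) : ct.clab c s = ct.clab c' s := by
  rcases GlueAux.cell_cases h hF hd ha c hc s x hx hs with
    ⟨e, he, hl⟩ | ⟨l, i, r, t, u, hp⟩
  · rcases GlueAux.cell_cases h hF hd ha c' hc' s x hx' hs with
      ⟨e', he', hl'⟩ | ⟨l', i', r', t', u', hp'⟩
    · rw [hl, hl', GlueAux.pole_unique he he']
    · exact (GlueAux.pole_not_pos h he hp').elim
  · rcases GlueAux.cell_cases h hF hd ha c' hc' s x hx' hs with
      ⟨e', he', hl'⟩ | ⟨l', i', r', t', u', hp'⟩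
    · exact (GlueAux.pole_not_pos h he' hp).elim
    · exact GlueAux.pos_glue h hF hd ha hs hp hp'

end Oct
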