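import Pool.Agent.helper70.M8.Defs
import Pool.Agent.helper70.M8.C1
import Pool.Agent.helper70.M8.D
import Pool.Agent.helper70.M8.E1
import Pool.Agent.helper70.M8.E2
import Pool.Agent.helper70.M8.F1
import Pool.Agent.helper70.M8.F2

set_option autoImplicit false

/-! Module H of the project OCT: ranks. -/

open MvPolynomial Set Filter Topology

namespace Oct

namespace HH

theorem eval_smul_hom {F : MvPolynomial (Fin 3) ℝ} {d : ℕ} (hF : F.IsHomogeneous d) (c : ℝ)
    (x : Fin 3 → ℝ) : eval (c • x) F = c ^ d * eval x F := by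
  rw [MvPolynomial.eval_eq', MvPolynomial.eval_eq', Finset.mul_sum]
  refine Finset.sum_congr rfl fun m hm => ?_
  have h1 : ∑ i, m i = d := by
    have h2 := hF (MvPolynomial.mem_support_iff.1 hm)
    rw [Finsupp.weight_apply, Finsupp.sum_fintype] at h2
    · simpa using h2
    · intro i; simp
  have h3 : ∏ i, (c • x) i ^ m i = c ^ d * ∏ i, x i ^ m i := by
    simp only [Pi.smul_apply, smul_eq_mul, mul_pow, Finset.prod_mul_distrib]
    rw [Finset.prod_pow_eq_pow_sum, h1]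
  rw [h3]
  ring

theorem sg_sq (b : Bool) : sg b * sg b = 1 := by cases b <;> simp [sg]

theorem sg_not (b : Bool) : sg (!b) = -sg b := by cases b <;> simp [sg]

theorem sg_pow {d : ℕ} (hd : Even d) (b : Bool) : sg b ^ d = 1 := by
  obtain ⟨k, rfl⟩ := hd
  rw [← two_mul, pow_mul, sq, sg_sq, one_pow]

theorem eval_sg {F : MvPolynomial (Fin 3) ℝ} {d : ℕ} (hF : F.IsHomogeneous d) (hd : Even d)
    (b : Bool) (x : Fin 3 → ℝ) : eval (sg b • x) F = eval x F := by
  rw [eval_smul_hom hF, sg_pow hd, one_mul]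

theorem rayF_neg {F : MvPolynomial (Fin 3) ℝ} {d : ℕ} (hF : F.IsHomogeneous d) (hd : Even d)
    (x y z : ℝ) : rayF F (-x) (-y) (-z) = rayF F x y z := by
  unfold rayF
  have h := eval_smul_hom hF (-1) ![x, y, z]
  rw [hd.neg_one_pow, one_mul] at h
  rw [← h]
  congr 2
  ext i
  fin_cases i <;> simp

theorem rayF_cont (F : MvPolynomial (Fin 3) ℝ) (x y : ℝ) : Continuous (rayF F x y) := by
  unfold rayF
  refine (MvPolynomial.continuous_eval F).comp ?_
  refine continuous_pi fun i => ?_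
  fin_cases i
  · exact continuous_const
  · exact continuous_const
  · exact continuous_id

theorem has_of_sg {b : Bool} {r : ℝ} (h : 0 < sg b * r) : (S3.of b).Has r := by
  cases b
  · simp only [sg, S3.of, S3.Has] at h ⊢
    simp at h
    simpa using h
  · simp only [sg, S3.of, S3.Has] at h ⊢
    simpa using h

theorem exists_has (r : ℝ) : ∃ s : S3, s.Has r := by
  rcases lt_trichotomy r 0 with h | h | h
  · exact ⟨S3.n, h⟩
  · exact ⟨S3.z, h⟩
  · exact ⟨S3.p, h⟩

theorem flip_flip (e : Seg) : e.flip.flip = e := by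
  cases e; simp [Seg.flip]

theorem flip_rk (e : Seg) (l : Bool) (s : S3) : e.flip.rk l s = e.rk (!l) s := by
  cases l <;> cases s <;> rfl

/-- the data of one side: a list of cells which cover the ray -/
structure SideOK (ct : Cert) (F : MvPolynomial (Fin 3) ℝ) (x y : ℤ) (E : Edge) : Prop where
  ne : ¬ (x = 0 ∧ y = 0)
  segs : ∀ e ∈ E.segs, SegOK (rayF F x y) e ∧ ∀ l, ∃ c, ct.Valid c ∧
    (∀ s, ct.crk c s = e.rk l s) ∧ ∀ z ∈ Icc (e.lo : ℝ) e.hi, ∀ v : V3,
      v.1 = sg (!l) • ![(x : ℝ), y, z] → v ∈ ct.K c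
  top : ∀ l, ∃ c, ct.Valid c ∧ (∀ s, ct.crk c s = E.rt l) ∧ (∀ s, ct.Act c s → s = S3.of ct.sp) ∧
    ∀ z : ℝ, (E.hi : ℝ) ≤ z → ∀ v : V3, v.1 = sg (!l) • ![(x : ℝ), y, z] → v ∈ ct.K c
  bot : ∀ l, ∃ c, ct.Valid c ∧ (∀ s, ct.crk c s = E.rb l) ∧ (∀ s, ct.Act c s → s = S3.of ct.sp) ∧
    ∀ z : ℝ, z ≤ (E.lo : ℝ) → ∀ v : V3, v.1 = sg (!l) • ![(x : ℝ), y, z] → v ∈ ct.K c

theorem neg_vec (x y z : ℝ) : (![-x, -y, z] : Fin 3 → ℝ) = -![x, y, -z] := by
  ext i; fin_cases i <;> simp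

theorem SideOK.flip {ct : Cert} {F : MvPolynomial (Fin 3) ℝ} {d : ℕ} (hF : F.IsHomogeneous d)
    (hd : Even d) {x y : ℤ} {E : Edge} (h : SideOK ct F x y E) :
    SideOK ct F (-x) (-y) E.flip := by
  have key : ∀ (l : Bool) (z : ℝ), sg (!l) • (![((-x : ℤ) : ℝ), ((-y : ℤ) : ℝ), z] : Fin 3 → ℝ)
      = sg (!(!l)) • ![(x : ℝ), y, -z] := by
    intro l z
    push_cast
    rw [neg_vec, sg_not (!l), neg_smul, smul_neg]
  refine ⟨fun h' => h.ne ⟨by omega, by omega⟩, ?_, ?_, ?_⟩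
  · intro e he
    have he' : e ∈ (E.segs.map Seg.flip).reverse := he
    rw [List.mem_reverse, List.mem_map] at he'
    obtain ⟨e', he', rfl⟩ := he'
    obtain ⟨h1, h2⟩ := h.segs e' he'
    refine ⟨?_, fun l => ?_⟩
    · have h3 := segOK_flip h1
      have h4 : (fun z => rayF F x y (-z)) = rayF F ((-x : ℤ) : ℝ) ((-y : ℤ) : ℝ) := by
        funext z
        push_cast
        rw [← rayF_neg hF hd (-(x : ℝ)) (-(y : ℝ)) z, neg_neg, neg_neg]
      rw [h4] at h3
      exact h3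
    · obtain ⟨c, hc, hrk, hmem⟩ := h2 (!l)
      refine ⟨c, hc, fun s => by rw [hrk, flip_rk], fun z hz v hv => ?_⟩
      have hz' : -z ∈ Icc (e'.lo : ℝ) e'.hi := by
        have h5 : ((e'.flip.lo : ℤ) : ℝ) = -(e'.hi : ℝ) := by simp [Seg.flip]
        have h6 : ((e'.flip.hi : ℤ) : ℝ) = -(e'.lo : ℝ) := by simp [Seg.flip]
        rw [h5, h6] at hz
        exact ⟨by linarith [hz.2], by linarith [hz.1]⟩
      exact hmem (-z) hz' v (by rw [hv, key])
  · intro l
    obtain ⟨c, hc, hrk, hact, hmem⟩ := h.bot (!l)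
    refine ⟨c, hc, fun s => ?_, hact, fun z hz v hv => ?_⟩
    · rw [hrk]; cases l <;> rfl
    · refine hmem (-z) ?_ v (by rw [hv, key])
      have h5 : ((E.flip.hi : ℤ) : ℝ) = -(E.lo : ℝ) := by simp [Edge.flip]
      rw [h5] at hz
      linarith
  · intro l
    obtain ⟨c, hc, hrk, hact, hmem⟩ := h.top (!l)
    refine ⟨c, hc, fun s => ?_, hact, fun z hz v hv => ?_⟩
    · rw [hrk]; cases l <;> rfl
    · refine hmem (-z) ?_ v (by rw [hv, key])
      have h5 : ((E.flip.lo : ℤ) : ℝ) = -(E.hi : ℝ) := by simp [Edge.flip]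
      rw [h5] at hz
      linarith

/-- a point of a side in the chart -/
theorem side_pt (c : Chart) (hal : 0 < c.al) {m : ℤ} (hm : 0 < m) (t : ℤ) (z : ℝ) :
    (![((m * c.vxZ t : ℤ) : ℝ), ((m * c.vyZ t : ℤ) : ℝ), z] : Fin 3 → ℝ)
      = (m : ℝ) • c.pt t ((z / m - c.beZ t) / c.al) := by
  have h1 : (c.al : ℝ) ≠ 0 := by exact_mod_cast hal.ne'
  have h2 : (m : ℝ) ≠ 0 := by exact_mod_cast hm.ne'
  ext i
  fin_cases i
  · simp [Chart.pt, Chart.vx, Chart.vxZ]
  · simp [Chart.pt, Chart.vy, Chart.vyZ]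
  · simp only [Chart.pt, Chart.be, Chart.beZ]
    simp
    field_simp
    ring

variable {ct : Cert} (h : Comb ct)
include h

theorem col_mem {i : ℕ} (hi : i < ct.n) : ct.col i ∈ ct.cols := col_pos h hi

theorem ab {i : ℕ} (hi : i < ct.n) : ((ct.col i).a : ℝ) < (ct.col i).b := by
  have h1 := (h.colR _ (col_mem h hi)).1
  have h2 : (ct.col i).a < (ct.col i).b := by unfold Column.a Column.b; omega
  exact_mod_cast h2

theorem vne {i : ℕ} (hi : i < ct.n) {t : ℤ} (ht : (t : ℝ) ∈ Icc ((ct.col i).a : ℝ) (ct.col i).b)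
    {m : ℤ} (hm : 0 < m) :
    ¬ (m * (ct.col i).ch.vxZ t = 0 ∧ m * (ct.col i).ch.vyZ t = 0) := by
  rintro ⟨h1, h2⟩
  have h3 := (vy_nonneg h hi ht).2
  apply h3
  have h4 := (mul_eq_zero.1 h1).resolve_left hm.ne'
  have h5 := (mul_eq_zero.1 h2).resolve_left hm.ne'
  constructor
  · have : (ct.col i).ch.vx t = ((ct.col i).ch.vxZ t : ℝ) := by simp [Chart.vx, Chart.vxZ]
    rw [this, h4, Int.cast_zero]
  · have : (ct.col i).ch.vy t = ((ct.col i).ch.vyZ t : ℝ) := by simp [Chart.vy, Chart.vyZ]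
    rw [this, h5, Int.cast_zero]

/-- the side of a column, general form -/
theorem side_edge {F : MvPolynomial (Fin 3) ℝ} {d : ℕ} (hF : F.IsHomogeneous d)
    (ha : AnaOK F ct.sp ct.cols) {i : ℕ} (hi : i < ct.n) {m : ℤ} (hm : 0 < m) (right : Bool) :
    SideOK ct F (m * (ct.col i).ch.vxZ (if right then (ct.col i).b else (ct.col i).a))
      (m * (ct.col i).ch.vyZ (if right then (ct.col i).b else (ct.col i).a))
      (edgeOf ct.par ct.s0 (ct.col i) (if right then (ct.col i).b else (ct.col i).a) m right) := by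
  have hcm := col_mem h hi
  obtain ⟨hR, hal, -⟩ := h.colR _ hcm
  set t : ℤ := if right then (ct.col i).b else (ct.col i).a with ht
  have htI : (t : ℝ) ∈ Icc ((ct.col i).a : ℝ) (ct.col i).b := by
    have := ab h hi
    rw [ht]
    split_ifs
    · exact ⟨this.le, le_rfl⟩
    · exact ⟨le_rfl, this.le⟩
  have hmR : (0 : ℝ) < m := by exact_mod_cast hm
  have halR : (0 : ℝ) < (ct.col i).ch.al := by exact_mod_cast hal
  refine ⟨vne h hi htI hm, ?_, ?_, ?_⟩
  · intro e he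
    have he' : e ∈ (ct.col i).bx.map
      (segOf ct.par ct.s0 (ct.col i).ch ((ct.col i).ch.beZ t) m right) := he
    rw [List.mem_map] at he'
    obtain ⟨b, hb, rfl⟩ := he'
    have hbs := h.boxS _ hcm b hb
    have hbox := (ha _ hcm).2.2 b hb
    refine ⟨?_, fun l => ?_⟩
    · cases right
      · exact segOK_left hF hbox hR hbs hal ct.par ct.s0 hm
      · exact segOK_right hF hbox hR hbs hal ct.par ct.s0 hm
    · obtain ⟨j, hj, hjb⟩ := List.getElem_of_mem hb
      have hbj : (ct.col i).box j = b := by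
        rw [Column.box, List.getD_eq_getElem _ _ hj, hjb]
      refine ⟨Cell.box l i j, ⟨hi, hj⟩, fun s => ?_, fun z hz v hv => ?_⟩
      · show ((ct.col i).box j).rk l s = _
        rw [hbj]
        cases l <;> cases s <;> rfl
      · have hz1 : ((m * ((ct.col i).ch.al * b.lo + (ct.col i).ch.beZ t) : ℤ) : ℝ) ≤ z := hz.1
        have hz2 : z ≤ ((m * ((ct.col i).ch.al * b.hi + (ct.col i).ch.beZ t) : ℤ) : ℝ) := hz.2
        push_cast at hz1 hz2
        refine ⟨m, hmR, t, htI, (z / m - (ct.col i).ch.beZ t) / (ct.col i).ch.al, ?_, ?_⟩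
        · rw [hbj]
          constructor
          · rw [le_div_iff₀ halR, le_sub_iff_add_le, le_div_iff₀ hmR]
            linarith
          · rw [div_le_iff₀ halR, sub_le_iff_le_add, div_le_iff₀ hmR]
            linarith
        · rw [hv, side_pt _ hal hm, smul_smul, mul_comm]
  · intro l
    refine ⟨Cell.top l i, hi, fun s => ?_, fun s hs => hs, fun z hz v hv => ?_⟩
    · cases l <;> rfl
    · rw [mem_top_iff h l hi]
      right
      have hz1 : ((m * ((ct.col i).ch.al * (ct.col i).H + (ct.col i).ch.beZ t) : ℤ) : ℝ) ≤ z := hz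
      push_cast at hz1
      refine ⟨m, hmR, t, htI, (z / m - (ct.col i).ch.beZ t) / (ct.col i).ch.al, ?_, ?_⟩
      · rw [le_div_iff₀ halR, le_sub_iff_add_le, le_div_iff₀ hmR]
        linarith
      · rw [hv, side_pt _ hal hm, smul_smul, mul_comm]
  · intro l
    refine ⟨Cell.bot l i, hi, fun s => ?_, fun s hs => hs, fun z hz v hv => ?_⟩
    · cases l <;> rfl
    · rw [mem_bot_iff h l hi]
      right
      have hz1 : z ≤ ((m * ((ct.col i).ch.al * (ct.col i).L + (ct.col i).ch.beZ t) : ℤ) : ℝ) := hz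
      push_cast at hz1
      refine ⟨m, hmR, t, htI, (z / m - (ct.col i).ch.beZ t) / (ct.col i).ch.al, ?_, ?_⟩
      · rw [div_le_iff₀ halR, sub_le_iff_le_add, div_le_iff₀ hmR]
        linarith
      · rw [hv, side_pt _ hal hm, smul_smul, mul_comm]

/-- own segment of a box -/
theorem own_seg {F : MvPolynomial (Fin 3) ℝ} {d : ℕ} (hF : F.IsHomogeneous d)
    (ha : AnaOK F ct.sp ct.cols) {i j : ℕ} (hi : i < ct.n) (hj : j < (ct.col i).bx.length)
    {m : ℤ} (hm : 0 < m) (right : Bool) :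
    SegOK (rayF F (m * (ct.col i).ch.vxZ (if right then (ct.col i).b else (ct.col i).a) : ℤ)
      (m * (ct.col i).ch.vyZ (if right then (ct.col i).b else (ct.col i).a) : ℤ))
      (segOf ct.par ct.s0 (ct.col i).ch
        ((ct.col i).ch.beZ (if right then (ct.col i).b else (ct.col i).a)) m right
        ((ct.col i).box j)) ∧
    ∀ l, ∀ z ∈ Icc ((segOf ct.par ct.s0 (ct.col i).ch
        ((ct.col i).ch.beZ (if right then (ct.col i).b else (ct.col i).a)) m right
        ((ct.col i).box j)).lo : ℝ) ((segOf ct.par ct.s0 (ct.col i).ch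
        ((ct.col i).ch.beZ (if right then (ct.col i).b else (ct.col i).a)) m right
        ((ct.col i).box j)).hi : ℝ), ∀ v : V3,
      v.1 = sg (!l) •
        ![((m * (ct.col i).ch.vxZ (if right then (ct.col i).b else (ct.col i).a) : ℤ) : ℝ),
        ((m * (ct.col i).ch.vyZ (if right then (ct.col i).b else (ct.col i).a) : ℤ) : ℝ), z] →
      v ∈ ct.K (Cell.box l i j) := by
  have hcm := col_mem h hi
  obtain ⟨hR, hal, -⟩ := h.colR _ hcm
  set t : ℤ := if right then (ct.col i).b else (ct.col i).a with ht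
  have htI : (t : ℝ) ∈ Icc ((ct.col i).a : ℝ) (ct.col i).b := by
    have := ab h hi
    rw [ht]
    split_ifs
    · exact ⟨this.le, le_rfl⟩
    · exact ⟨le_rfl, this.le⟩
  have hmR : (0 : ℝ) < m := by exact_mod_cast hm
  have halR : (0 : ℝ) < (ct.col i).ch.al := by exact_mod_cast hal
  have hb : (ct.col i).box j ∈ (ct.col i).bx := by
    rw [Column.box, List.getD_eq_getElem _ _ hj]
    exact List.getElem_mem hj
  have hbs := h.boxS _ hcm _ hb
  have hbox := (ha _ hcm).2.2 _ hb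
  constructor
  · cases right
    · exact segOK_left hF hbox hR hbs hal ct.par ct.s0 hm
    · exact segOK_right hF hbox hR hbs hal ct.par ct.s0 hm
  · intro l z hz v hv
    have hz1 : ((m * ((ct.col i).ch.al * ((ct.col i).box j).lo + (ct.col i).ch.beZ t) : ℤ) : ℝ) ≤ z :=
      hz.1
    have hz2 : z ≤ ((m * ((ct.col i).ch.al * ((ct.col i).box j).hi + (ct.col i).ch.beZ t) : ℤ) : ℝ) :=
      hz.2
    push_cast at hz1 hz2
    refine ⟨m, hmR, t, htI, (z / m - (ct.col i).ch.beZ t) / (ct.col i).ch.al, ?_, ?_⟩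
    · constructor
      · rw [le_div_iff₀ halR, le_sub_iff_add_le, le_div_iff₀ hmR]
        linarith
      · rw [div_le_iff₀ halR, sub_le_iff_le_add, div_le_iff₀ hmR]
        linarith
    · rw [hv, side_pt _ hal hm, smul_smul, mul_comm]

/-- the vertex on the ray -/
theorem mkV {x y : ℤ} (hne : ¬ (x = 0 ∧ y = 0)) (l : Bool) (z : ℝ) :
    ∃ v : V3, v.1 = sg (!l) • ![(x : ℝ), y, z] := by
  refine ⟨⟨sg (!l) • ![(x : ℝ), y, z], ?_⟩, rfl⟩
  intro h0
  apply hne
  have h1 := congrFun h0 0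
  have h2 := congrFun h0 1
  have h3 : sg (!l) ≠ 0 := by
    intro h4
    have := sg_sq (!l)
    rw [h4, zero_mul] at this
    exact zero_ne_one this
  simp only [Pi.smul_apply, smul_eq_mul, Pi.zero_apply, Matrix.cons_val_zero,
    Matrix.cons_val_one] at h1 h2
  have h5 := (mul_eq_zero.1 h1).resolve_left h3
  have h6 := (mul_eq_zero.1 h2).resolve_left h3
  exact ⟨by exact_mod_cast h5, by exact_mod_cast h6⟩

theorem side_nb {F : MvPolynomial (Fin 3) ℝ} {d : ℕ} (hF : F.IsHomogeneous d) (hd : Even d)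
    (ha : AnaOK F ct.sp ct.cols) {x y : ℤ} {E' : Edge} (hS : SideOK ct F x y E') {e : Seg}
    {l : Bool} {c : Cell} {s : S3} {r : ℕ} (he : SegOK (rayF F x y) e)
    (hc : ∀ z ∈ Icc (e.lo : ℝ) e.hi, ∀ v : V3, v.1 = sg (!l) • ![(x : ℝ), y, z] → v ∈ ct.K c)
    {lft : Bool} (hn : SideNb ct.sp lft e E' l s r) :
    ∃ c', ct.Valid c' ∧ (ct.K c ∩ ct.K c' ∩ {x | s.Has (fV F x)}).Nonempty ∧ ct.crk c' s < r := by
  have hfV : ∀ (v : V3) (z : ℝ), v.1 = sg (!l) • ![(x : ℝ), y, z] → fV F v = rayF F x y z := by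
    intro v z hv
    rw [fV, hv, eval_sg hF hd]
    rfl
  have hlt : (e.lo : ℝ) ≤ e.hi := by exact_mod_cast he.1.le
  rcases hn with ⟨e', he', hp, hr⟩ | ⟨hs, hE, hr⟩ | ⟨hs, hE, hr⟩
  · obtain ⟨h1, h2⟩ := hS.segs e' he'
    obtain ⟨c', hc', hrk, hmem⟩ := h2 l
    obtain ⟨z, hz, hz', hzs⟩ : ∃ z ∈ Icc (e.lo : ℝ) e.hi, z ∈ Icc (e'.lo : ℝ) e'.hi ∧
        s.Has (rayF F x y z) := by
      cases lft
      · obtain ⟨z, hz, hz', hzs⟩ := pres_exist (rayF_cont F x y) h1 he (by simpa using hp)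
        exact ⟨z, hz', hz, hzs⟩
      · exact pres_exist (rayF_cont F x y) he h1 (by simpa using hp)
    obtain ⟨v, hv⟩ := mkV h hS.ne l z
    refine ⟨c', hc', ⟨v, ⟨hc z hz v hv, hmem z hz' v hv⟩, ?_⟩, by rw [hrk]; exact hr⟩
    show s.Has (fV F v)
    rw [hfV v z hv]
    exact hzs
  · obtain ⟨c', hc', hrk, hact, hmem⟩ := hS.top l
    obtain ⟨v, hv⟩ := mkV h hS.ne l e.hi
    have hvc' : v ∈ ct.K c' := hmem e.hi (by exact_mod_cast hE) v hv
    refine ⟨c', hc', ⟨v, ⟨hc _ ⟨hlt, le_rfl⟩ v hv, hvc'⟩, ?_⟩, by rw [hrk]; exact hr⟩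
    obtain ⟨s', hs'⟩ := exists_has (fV F v)
    have h3 := hact s' ((cell_act h hF hd ha c' hc' s').1 ⟨v, hvc', hs'⟩)
    rw [← hs] at h3
    rw [← h3]
    exact hs'
  · obtain ⟨c', hc', hrk, hact, hmem⟩ := hS.bot l
    obtain ⟨v, hv⟩ := mkV h hS.ne l e.lo
    have hvc' : v ∈ ct.K c' := hmem e.lo (by exact_mod_cast hE) v hv
    refine ⟨c', hc', ⟨v, ⟨hc _ ⟨le_rfl, hlt⟩ v hv, hvc'⟩, ?_⟩, by rw [hrk]; exact hr⟩
    obtain ⟨s', hs'⟩ := exists_has (fV F v)
    have h3 := hact s' ((cell_act h hF hd ha c' hc' s').1 ⟨v, hvc', hs'⟩)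
    rw [← hs] at h3
    rw [← h3]
    exact hs'

theorem n_pred : ct.n - 1 < ct.n := by have := h.pos_n; omega

/-- the neighbours on the right -/
theorem side_N {F : MvPolynomial (Fin 3) ℝ} {d : ℕ} (hF : F.IsHomogeneous d) (hd : Even d)
    (ha : AnaOK F ct.sp ct.cols) {i : ℕ} (hi : i < ct.n) {m : ℤ}
    (hm : m = if i + 1 < ct.n then ((ct.col i).scal (ct.col (i + 1))).1
      else ((ct.col i).scalS (ct.col 0)).1) :
    0 < m ∧ SideOK ct F (m * (ct.col i).ch.vxZ (ct.col i).b) (m * (ct.col i).ch.vyZ (ct.col i).b)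
      (ct.eN i) := by
  by_cases hi1 : i + 1 < ct.n
  · rw [if_pos hi1] at hm
    have hpos := scal_pos h hi1
    have hch := h.chain i hi1
    refine ⟨by rw [hm]; exact hpos.1, ?_⟩
    have h1 := side_edge h hF ha hi1 hpos.2 false
    simp only [Bool.false_eq_true, if_false] at h1
    rw [hm, hch.1, hch.2]
    have e : ct.eN i = edgeOf ct.par ct.s0 (ct.col (i + 1)) (ct.col (i + 1)).a
      ((ct.col i).scal (ct.col (i + 1))).2 false := by
      rw [Cert.eN, if_pos hi1]; rfl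
    rw [e]
    exact h1
  · rw [if_neg hi1] at hm
    have hin : i = ct.n - 1 := by omega
    subst hin
    have hpos := scalS_pos h
    have heq := scalS_eq h
    refine ⟨by rw [hm]; exact hpos.1, ?_⟩
    have h1 := (side_edge h hF ha h.pos_n hpos.2 false).flip hF hd
    simp only [Bool.false_eq_true, if_false] at h1
    rw [hm, heq.1, heq.2]
    have e : ct.eN (ct.n - 1) = (edgeOf ct.par ct.s0 (ct.col 0) (ct.col 0).a
      ((ct.col (ct.n - 1)).scalS (ct.col 0)).2 false).flip := by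
      rw [Cert.eN, if_neg hi1]; rfl
    rw [e]
    exact h1

/-- the neighbours on the left -/
theorem side_P {F : MvPolynomial (Fin 3) ℝ} {d : ℕ} (hF : F.IsHomogeneous d) (hd : Even d)
    (ha : AnaOK F ct.sp ct.cols) {i : ℕ} (hi : i < ct.n) {m : ℤ}
    (hm : m = if i = 0 then ((ct.col (ct.n - 1)).scalS (ct.col i)).2
      else ((ct.col (i - 1)).scal (ct.col i)).2) :
    0 < m ∧ SideOK ct F (m * (ct.col i).ch.vxZ (ct.col i).a) (m * (ct.col i).ch.vyZ (ct.col i).a)
      (ct.eP i) := by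
  cases i with
  | zero =>
    rw [if_pos rfl] at hm
    have hpos := scalS_pos h
    have heq := scalS_eq h
    refine ⟨by rw [hm]; exact hpos.2, ?_⟩
    have h1 := (side_edge h hF ha (n_pred h) hpos.1 true).flip hF hd
    simp only [if_true] at h1
    have e : ct.eP 0 = (edgeOf ct.par ct.s0 (ct.col (ct.n - 1)) (ct.col (ct.n - 1)).b
      ((ct.col (ct.n - 1)).scalS (ct.col 0)).1 true).flip := by
      have : ¬ (ct.n - 1 + 1 < ct.n) := by omega
      show (ct.eR (ct.n - 1)).flip = _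
      rw [Cert.eR, if_neg this]
    rw [e, hm]
    rw [heq.1, heq.2, neg_neg, neg_neg] at h1
    exact h1
  | succ i =>
    rw [if_neg (Nat.succ_ne_zero i)] at hm
    rw [Nat.add_sub_cancel] at hm
    have hpos := scal_pos h hi
    have hch := h.chain i hi
    refine ⟨by rw [hm]; exact hpos.2, ?_⟩
    have h1 := side_edge h hF ha (show i < ct.n by omega) hpos.1 true
    simp only [if_true] at h1
    have e : ct.eP (i + 1) = edgeOf ct.par ct.s0 (ct.col i) (ct.col i).b
      ((ct.col i).scal (ct.col (i + 1))).1 true := by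
      show ct.eR i = _
      rw [Cert.eR, if_pos hi]
    rw [e, hm, ← hch.1, ← hch.2]
    exact h1

theorem sign_of_act {F : MvPolynomial (Fin 3) ℝ} {d : ℕ} (hF : F.IsHomogeneous d) (hd : Even d)
    (ha : AnaOK F ct.sp ct.cols) {c : Cell} (hc : ct.Valid c)
    (hact : ∀ s, ct.Act c s → s = S3.of ct.sp) {v : V3} (hv : v ∈ ct.K c) :
    (S3.of ct.sp).Has (fV F v) := by
  obtain ⟨s', hs'⟩ := exists_has (fV F v)
  have h3 := hact s' ((cell_act h hF hd ha c hc s').1 ⟨v, hv, hs'⟩)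
  rw [← h3]
  exact hs'

theorem pt_ne {i : ℕ} (hi : i < ct.n) (u : ℝ) :
    (ct.col i).ch.pt ((ct.col i).a : ℝ) u ≠ 0 := by
  intro h0
  have hI : ((ct.col i).a : ℝ) ∈ Icc ((ct.col i).a : ℝ) (ct.col i).b := ⟨le_rfl, (ab h hi).le⟩
  apply (vy_nonneg h hi hI).2
  have h1 := congrFun h0 0
  have h2 := congrFun h0 1
  simp only [Chart.pt, Matrix.cons_val_zero, Matrix.cons_val_one, Pi.zero_apply] at h1 h2
  exact ⟨h1, h2⟩

/-- the point of the left side of the column `i` at the level `u`, in the lift `l` -/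
theorem lvl {i : ℕ} (hi : i < ct.n) (l : Bool) (u : ℝ) :
    ∃ v : V3, v.1 = sg (!l) • (ct.col i).ch.pt ((ct.col i).a : ℝ) u := by
  refine ⟨⟨sg (!l) • (ct.col i).ch.pt ((ct.col i).a : ℝ) u, smul_ne_zero ?_ (pt_ne h hi u)⟩, rfl⟩
  intro h4
  have := sg_sq (!l)
  rw [h4, zero_mul] at this
  exact zero_ne_one this

theorem lvl_box {i : ℕ} (hi : i < ct.n) (l : Bool) {u : ℝ} {v : V3}
    (hv : v.1 = sg (!l) • (ct.col i).ch.pt ((ct.col i).a : ℝ) u) {j : ℕ}
    (hu : u ∈ Icc (((ct.col i).box j).lo : ℝ) ((ct.col i).box j).hi) :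
    v ∈ ct.K (Cell.box l i j) :=
  ⟨1, one_pos, (ct.col i).a, ⟨le_rfl, (ab h hi).le⟩, u, hu, by rw [one_mul]; exact hv⟩

theorem lvl_top {i : ℕ} (hi : i < ct.n) (l : Bool) {v : V3}
    (hv : v.1 = sg (!l) • (ct.col i).ch.pt ((ct.col i).a : ℝ) (ct.col i).H) :
    v ∈ ct.K (Cell.top l i) :=
  ⟨1, one_pos, (ct.col i).a, ⟨le_rfl, (ab h hi).le⟩, 1, ⟨zero_le_one, le_rfl⟩, by
    rw [hv, one_mul, one_smul, sub_self, zero_smul, add_zero]⟩

theorem lvl_bot {i : ℕ} (hi : i < ct.n) (l : Bool) {v : V3}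
    (hv : v.1 = sg (!l) • (ct.col i).ch.pt ((ct.col i).a : ℝ) (ct.col i).L) :
    v ∈ ct.K (Cell.bot l i) :=
  ⟨1, one_pos, (ct.col i).a, ⟨le_rfl, (ab h hi).le⟩, 1, ⟨zero_le_one, le_rfl⟩, by
    rw [hv, one_mul, one_smul, sub_self, zero_smul, add_zero]⟩

theorem box_mem {i : ℕ} {j : ℕ} (hj : j < (ct.col i).bx.length) :
    (ct.col i).box j ∈ (ct.col i).bx := by
  rw [Column.box, List.getD_eq_getElem _ _ hj]
  exact List.getElem_mem hj

theorem lohi {i : ℕ} (hi : i < ct.n) {j : ℕ} (hj : j < (ct.col i).bx.length) :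
    (((ct.col i).box j).lo : ℝ) ≤ ((ct.col i).box j).hi := by
  have h1 := h.boxS _ (col_mem h hi) _ (box_mem h hj)
  have h2 : ((ct.col i).box j).lo ≤ ((ct.col i).box j).hi := by unfold Box.lo Box.hi; omega
  exact_mod_cast h2

theorem len_pos {i : ℕ} (hi : i < ct.n) : 0 < (ct.col i).bx.length :=
  List.length_pos_iff.2 (h.colR _ (col_mem h hi)).2.2.2.2.2

theorem L_eq {i : ℕ} (hi : i < ct.n) : (ct.col i).L = ((ct.col i).box 0).lo := by
  have h1 := len_pos h hi
  rw [Column.L, Column.box, List.getD_eq_getElem _ _ h1, List.head?_eq_getElem?,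
    List.getElem?_eq_getElem h1]

theorem H_eq {i : ℕ} (hi : i < ct.n) :
    (ct.col i).H = ((ct.col i).box ((ct.col i).bx.length - 1)).hi := by
  have h1 := len_pos h hi
  have h2 : (ct.col i).bx.length - 1 < (ct.col i).bx.length := by omega
  rw [Column.H, Column.box, List.getD_eq_getElem _ _ h2, List.getLast?_eq_getElem?,
    List.getElem?_eq_getElem h2]

theorem lo_sign {F : MvPolynomial (Fin 3) ℝ} {d : ℕ} (hF : F.IsHomogeneous d) (hd : Even d)
    (ha : AnaOK F ct.sp ct.cols) {i j : ℕ} (hi : i < ct.n) (hj : j < (ct.col i).bx.length)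
    {l : Bool} {v : V3}
    (hv : v.1 = sg (!l) • (ct.col i).ch.pt ((ct.col i).a : ℝ) (((ct.col i).box j).lo : ℝ)) :
    (S3.of ((ct.col i).box j).sl).Has (fV F v) := by
  have h1 := ((ha _ (col_mem h hi)).2.2 _ (box_mem h hj)).1 (ct.col i).a ⟨le_rfl, (ab h hi).le⟩
    ((ct.col i).box j).lo ⟨le_rfl, le_rfl⟩
  rw [map_mul, eval_C, eval_pull] at h1
  rw [fV, hv, eval_sg hF hd]
  exact has_of_sg h1

theorem hi_sign {F : MvPolynomial (Fin 3) ℝ} {d : ℕ} (hF : F.IsHomogeneous d) (hd : Even d)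
    (ha : AnaOK F ct.sp ct.cols) {i j : ℕ} (hi : i < ct.n) (hj : j < (ct.col i).bx.length)
    {l : Bool} {v : V3}
    (hv : v.1 = sg (!l) • (ct.col i).ch.pt ((ct.col i).a : ℝ) (((ct.col i).box j).hi : ℝ)) :
    (S3.of ((ct.col i).box j).sh).Has (fV F v) := by
  have h1 := ((ha _ (col_mem h hi)).2.2 _ (box_mem h hj)).2.1 (ct.col i).a ⟨le_rfl, (ab h hi).le⟩
    ((ct.col i).box j).hi ⟨le_rfl, le_rfl⟩
  rw [map_mul, eval_C, eval_pull] at h1
  rw [fV, hv, eval_sg hF hd]
  exact has_of_sg h1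

theorem pole_vec (b : Bool) : (pole b : Fin 3 → ℝ) = sg (!b) • ![0, 0, 1] := by
  ext i; fin_cases i <;> simp [pole]

theorem sg_ne (b : Bool) : sg b ≠ 0 := by
  intro h4
  have := sg_sq b
  rw [h4, zero_mul] at this
  exact zero_ne_one this

theorem pole_ne (b : Bool) : (pole b : Fin 3 → ℝ) ≠ 0 := by
  intro h0
  have h1 := congrFun h0 2
  simp only [pole, Matrix.cons_val, Pi.zero_apply] at h1
  exact sg_ne h _ h1

theorem pole_top {i : ℕ} (hi : i < ct.n) (l : Bool) {v : V3} (hv : v.1 = pole l) :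
    v ∈ ct.K (Cell.top l i) :=
  ⟨1, one_pos, (ct.col i).a, ⟨le_rfl, (ab h hi).le⟩, 0, ⟨le_rfl, zero_le_one⟩, by
    rw [hv, one_mul, zero_smul, zero_add, sub_zero, one_smul, pole_vec h, pole_vec h, smul_smul]
    simp [sg]⟩

theorem pole_bot {i : ℕ} (hi : i < ct.n) (l : Bool) {v : V3} (hv : v.1 = pole (!l)) :
    v ∈ ct.K (Cell.bot l i) :=
  ⟨1, one_pos, (ct.col i).a, ⟨le_rfl, (ab h hi).le⟩, 0, ⟨le_rfl, zero_le_one⟩, by
    rw [hv, one_mul, zero_smul, zero_add, sub_zero, one_smul, pole_vec h, pole_vec h, smul_smul]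
    cases l <;> simp [sg]⟩

theorem pole_pole (l : Bool) {v : V3} (hv : v.1 = pole l) : v ∈ ct.K (Cell.pole l) :=
  ⟨1, one_pos, by rw [one_smul]; exact hv⟩

end HH

open HH

theorem cell_rank {ct : Cert} (h : Comb ct) {F : MvPolynomial (Fin 3) ℝ} {d : ℕ}
    (hF : F.IsHomogeneous d) (hd : Even d) (ha : AnaOK F ct.sp ct.cols) (c : Cell)
    (hc : ct.Valid c) (s : S3) (hs : ct.Act c s) : ct.crk c s = 0 ∨
    ∃ c', ct.Valid c' ∧ (ct.K c ∩ ct.K c' ∩ {x | s.Has (fV F x)}).Nonempty ∧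
      ct.crk c' s < ct.crk c s := by
  cases c with
  | box l i j =>
    obtain ⟨hi, hj⟩ : i < ct.n ∧ j < (ct.col i).bx.length := hc
    rcases h.rankB i hi j hj l s hs with h0 | ⟨hs1, hB⟩ | ⟨hs1, hB⟩ | hB | hB
    · left; exact h0
    · right
      rcases hB with ⟨rfl, hr⟩ | ⟨k, rfl, hr⟩
      · obtain ⟨v, hv⟩ := lvl h hi l ((ct.col i).box 0).lo
        refine ⟨Cell.bot l i, hi, ⟨v, ⟨lvl_box h hi l hv ⟨le_rfl, lohi h hi hj⟩, ?_⟩, ?_⟩, ?_⟩
        · refine lvl_bot h hi l ?_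
          rw [L_eq h hi]; exact hv
        · show s.Has (fV F v)
          rw [hs1]
          exact lo_sign h hF hd ha hi hj hv
        · exact hr
      · obtain ⟨v, hv⟩ := lvl h hi l ((ct.col i).box (k + 1)).lo
        have hk : k < (ct.col i).bx.length := by omega
        have hvt := h.vert _ (col_mem h hi) k hj
        refine ⟨Cell.box l i k, ⟨hi, hk⟩,
          ⟨v, ⟨lvl_box h hi l hv ⟨le_rfl, lohi h hi hj⟩, lvl_box h hi l hv ?_⟩, ?_⟩, ?_⟩
        · rw [← hvt.1]
          exact ⟨lohi h hi hk, le_rfl⟩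
        · show s.Has (fV F v)
          rw [hs1]
          exact lo_sign h hF hd ha hi hj hv
        · exact hr
    · right
      rcases hB with ⟨hlen, hr⟩ | ⟨hj1, hr⟩
      · obtain ⟨v, hv⟩ := lvl h hi l ((ct.col i).box j).hi
        refine ⟨Cell.top l i, hi, ⟨v, ⟨lvl_box h hi l hv ⟨lohi h hi hj, le_rfl⟩, ?_⟩, ?_⟩, ?_⟩
        · refine lvl_top h hi l ?_
          rw [H_eq h hi, show (ct.col i).bx.length - 1 = j by omega]; exact hv
        · show s.Has (fV F v)
          rw [hs1]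
          exact hi_sign h hF hd ha hi hj hv
        · exact hr
      · obtain ⟨v, hv⟩ := lvl h hi l ((ct.col i).box j).hi
        have hvt := h.vert _ (col_mem h hi) j hj1
        refine ⟨Cell.box l i (j + 1), ⟨hi, hj1⟩,
          ⟨v, ⟨lvl_box h hi l hv ⟨lohi h hi hj, le_rfl⟩, lvl_box h hi l hv ?_⟩, ?_⟩, ?_⟩
        · rw [hvt.1]
          exact ⟨le_rfl, lohi h hi hj1⟩
        · show s.Has (fV F v)
          rw [hs1]
          exact hi_sign h hF hd ha hi hj hv
        · exact hr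
    · right
      obtain ⟨hm, hS⟩ := side_N h hF hd ha hi rfl
      obtain ⟨h1, h2⟩ := own_seg h hF ha hi hj hm true
      simp only [if_true] at h1 h2
      exact side_nb h hF hd ha hS h1 (h2 l) hB
    · right
      obtain ⟨hm, hS⟩ := side_P h hF hd ha hi rfl
      obtain ⟨h1, h2⟩ := own_seg h hF ha hi hj hm false
      simp only [Bool.false_eq_true, if_false] at h1 h2
      exact side_nb h hF hd ha hS h1 (h2 l) hB
  | top l i =>
    have hi : i < ct.n := hc
    have hs' : s = S3.of ct.sp := hs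
    rcases h.rankT i hi l with h0 | hr | hr
    · left; exact h0
    · right
      have hv : (⟨pole l, pole_ne h l⟩ : V3).1 = pole l := rfl
      refine ⟨Cell.pole l, trivial, ⟨⟨pole l, pole_ne h l⟩,
        ⟨pole_top h hi l hv, pole_pole h l hv⟩, ?_⟩, hr⟩
      show s.Has _
      rw [hs']
      exact sign_of_act h hF hd ha (c := Cell.top l i) hi (fun s hs => hs) (pole_top h hi l hv)
    · right
      have hj : (ct.col i).bx.length - 1 < (ct.col i).bx.length := by
        have := len_pos h hi; omega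
      obtain ⟨v, hv⟩ := lvl h hi l (ct.col i).H
      have hv1 := lvl_top h hi l hv
      refine ⟨Cell.box l i ((ct.col i).bx.length - 1), ⟨hi, hj⟩, ⟨v, ⟨hv1, ?_⟩, ?_⟩, ?_⟩
      · refine lvl_box h hi l hv ?_
        rw [H_eq h hi]
        exact ⟨lohi h hi hj, le_rfl⟩
      · show s.Has _
        rw [hs']
        exact sign_of_act h hF hd ha (c := Cell.top l i) hi (fun s hs => hs) hv1
      · rw [hs']; exact hr
  | bot l i =>
    have hi : i < ct.n := hc
    have hs' : s = S3.of ct.sp := hs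
    rcases h.rankBo i hi l with h0 | hr | hr
    · left; exact h0
    · right
      have hv : (⟨pole (!l), pole_ne h (!l)⟩ : V3).1 = pole (!l) := rfl
      refine ⟨Cell.pole (!l), trivial, ⟨⟨pole (!l), pole_ne h (!l)⟩,
        ⟨pole_bot h hi l hv, pole_pole h (!l) hv⟩, ?_⟩, ?_⟩
      · show s.Has _
        rw [hs']
        exact sign_of_act h hF hd ha (c := Cell.bot l i) hi (fun s hs => hs) (pole_bot h hi l hv)
      · show (if (!l) then ct.rp1 else ct.rp0) < (ct.col i).rb l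
        cases l
        · simpa using hr
        · simpa using hr
    · right
      have hj : 0 < (ct.col i).bx.length := len_pos h hi
      obtain ⟨v, hv⟩ := lvl h hi l (ct.col i).L
      have hv1 := lvl_bot h hi l hv
      refine ⟨Cell.box l i 0, ⟨hi, hj⟩, ⟨v, ⟨hv1, ?_⟩, ?_⟩, ?_⟩
      · refine lvl_box h hi l hv ?_
        rw [L_eq h hi]
        exact ⟨le_rfl, lohi h hi hj⟩
      · show s.Has _
        rw [hs']
        exact sign_of_act h hF hd ha (c := Cell.bot l i) hi (fun s hs => hs) hv1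
      · rw [hs']; exact hr
  | pole l =>
    have hs' : s = S3.of ct.sp := hs
    have hv : (⟨pole l, pole_ne h l⟩ : V3).1 = pole l := rfl
    rcases h.rankP l with h0 | ⟨i, hi, hr | hr⟩
    · left; exact h0
    · right
      refine ⟨Cell.top l i, hi, ⟨⟨pole l, pole_ne h l⟩,
        ⟨pole_pole h l hv, pole_top h hi l hv⟩, ?_⟩, hr⟩
      show s.Has _
      rw [hs']
      exact sign_of_act h hF hd ha (c := Cell.top l i) hi (fun s hs => hs) (pole_top h hi l hv)
    · right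
      have hv2 : (⟨pole l, pole_ne h l⟩ : V3).1 = pole (!(!l)) := by rw [Bool.not_not]
      refine ⟨Cell.bot (!l) i, hi, ⟨⟨pole l, pole_ne h l⟩,
        ⟨pole_pole h l hv, pole_bot h hi (!l) hv2⟩, ?_⟩, hr⟩
      show s.Has _
      rw [hs']
      exact sign_of_act h hF hd ha (c := Cell.bot (!l) i) hi (fun s hs => hs)
        (pole_bot h hi (!l) hv2)

end Oct
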