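import Mathlib.Data.Nat.Notation
import Mathlib.Data.Int.Notation

set_option autoImplicit false

/-!
# Certificates: data and combinatorial part (integers only, no Mathlib)
-/

namespace Oct

/-- chart `(t,u) ↦ (x0 + x1 t, y0 + y1 t, al u + b0 + b1 t + b2 t²)`; `o`: origin of the weights -/
structure Chart where
  x0 : ℤ
  x1 : ℤ
  y0 : ℤ
  y1 : ℤ
  al : ℤ
  b0 : ℤ
  b1 : ℤ
  b2 : ℤ
  o : ℤ
deriving DecidableEq

/-- a box `[c - s, c + s]` in the coordinate `u`.
`ty = 0`: sign-definite; `ty = 1`: monotone in `u`, opposite signs below and above;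
`ty = 2`: fold which opens to the right; `ty = 3`: fold which opens to the left.
`k`, `k'`: weights of the monotonicity or convexity condition (`k = 0`: no weights).
`sl`, `sh`: sign of `F` on the lower and the upper side (`true` = positive).
`lab`: label of the region (`ty = 0`) or of the oval (`ty > 0`).
`rk`: ranks, for the two lifts to the sphere, of the positive part, negative part, zero set. -/
structure Box where
  c : ℤ
  s : ℤ
  ty : ℕ
  k : ℕ
  k' : ℕ
  sl : Bool
  sh : Bool
  lab : ℤ
  rp0 : ℕ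
  rn0 : ℕ
  rz0 : ℕ
  rp1 : ℕ
  rn1 : ℕ
  rz1 : ℕ
deriving DecidableEq

def Box.lo (b : Box) : ℤ := b.c - b.s
def Box.hi (b : Box) : ℤ := b.c + b.s

/-- a column: `t ∈ [X - R, X + R]`, boxes from below to above, and the ranks of the unbounded
cells (top and bottom, two lifts) -/
structure Column where
  ch : Chart
  X : ℤ
  R : ℤ
  bx : List Box
  rt0 : ℕ
  rt1 : ℕ
  rb0 : ℕ
  rb1 : ℕ
deriving DecidableEq

def Column.a (c : Column) : ℤ := c.X - c.R
def Column.b (c : Column) : ℤ := c.X + c.R
/-- lowest level -/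
def Column.L (c : Column) : ℤ := match c.bx.head? with | some b => b.lo | none => 0
/-- highest level -/
def Column.H (c : Column) : ℤ := match c.bx.getLast? with | some b => b.hi | none => 0

/-- certificate: columns in the order of the pencil, parents of the ovals `1..m` (`0` = outermost;
`up` is the list of the parents, `par[i-1]` is the parent of oval `i`), label of the region of the
pole `(0:0:1)`, sign of `F` on the outermost region, ranks of the poles -/
structure Cert where
  cols : List Column
  par : List ℕ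
  pl : ℤ
  s0 : Bool
  rp0 : ℕ
  rp1 : ℕ

/-- parent label: `up par i = par[i-1]` for `1 ≤ i`, odd function -/
def up (par : List ℕ) (i : ℤ) : ℤ :=
  match i with
  | Int.ofNat 0 => 0
  | Int.ofNat (n + 1) => ((par.getD n 0 : ℕ) : ℤ)
  | Int.negSucc n => -((par.getD n 0 : ℕ) : ℤ)

/-- sign of the region `n` (`n = |label|`), by iteration of the parent map; `fuel` = depth -/
def sgnFuel (par : List ℕ) (s0 : Bool) : ℕ → ℕ → Bool
  | 0, _ => s0
  | _ + 1, 0 => s0
  | k + 1, n + 1 => !(sgnFuel par s0 k (par.getD n 0))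

/-- sign of `F` on the region with label `i` -/
def sgnR (par : List ℕ) (s0 : Bool) (i : ℤ) : Bool := sgnFuel par s0 (i.natAbs + 1) i.natAbs

/-- label of the positive (`s = true`) or negative part of a box (lift 0) -/
def regLab (par : List ℕ) (s0 : Bool) (b : Box) (s : Bool) : ℤ :=
  if b.ty = 0 then b.lab else if sgnR par s0 b.lab == s then b.lab else up par b.lab

/-- a segment of a common ray: `[lo,hi]` heights; `df`: sign-definite (sign `sl`);
`mo`: exactly one sign change; `sl`, `sh` signs at the ends; labels of the positive, negative part, zero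
set; ranks in the two lifts -/
structure Seg where
  lo : ℤ
  hi : ℤ
  df : Bool
  mo : Bool
  sl : Bool
  sh : Bool
  lp : ℤ
  ln : ℤ
  lz : ℤ
  rp0 : ℕ
  rn0 : ℕ
  rz0 : ℕ
  rp1 : ℕ
  rn1 : ℕ
  rz1 : ℕ

def Chart.beZ (c : Chart) (t : ℤ) : ℤ := c.b0 + c.b1 * t + c.b2 * t ^ 2
def Chart.vxZ (c : Chart) (t : ℤ) : ℤ := c.x0 + c.x1 * t
def Chart.vyZ (c : Chart) (t : ℤ) : ℤ := c.y0 + c.y1 * t

/-- segments of the boxes of a column on the side `t` (`right = true`: `t = b`), heights
multiplied by `m` -/
def segOf (par : List ℕ) (s0 : Bool) (ch : Chart) (be m : ℤ) (right : Bool) (b : Box) : Seg :=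
  { lo := m * (ch.al * b.lo + be), hi := m * (ch.al * b.hi + be)
    df := b.ty == 0 || (if right then b.ty == 3 else b.ty == 2)
    mo := b.ty == 1
    sl := b.sl, sh := b.sh
    lp := regLab par s0 b true, ln := regLab par s0 b false, lz := b.lab
    rp0 := b.rp0, rn0 := b.rn0, rz0 := b.rz0, rp1 := b.rp1, rn1 := b.rn1, rz1 := b.rz1 }

/-- the antipodal segment, seen from the other side -/
def Seg.flip (e : Seg) : Seg :=
  { lo := -e.hi, hi := -e.lo, df := e.df, mo := e.mo, sl := e.sh, sh := e.sl
    lp := -e.lp, ln := -e.ln, lz := -e.lz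
    rp0 := e.rp1, rn0 := e.rn1, rz0 := e.rz1, rp1 := e.rp0, rn1 := e.rn0, rz1 := e.rz0 }

/-- signs: positive, negative, zero -/
inductive S3
  | p
  | n
  | z
deriving DecidableEq

/-- sign as an element of `S3` -/
def S3.of (b : Bool) : S3 := if b then S3.p else S3.n

def Seg.lb (e : Seg) (s : S3) : ℤ :=
  match s with
  | S3.p => e.lp
  | S3.n => e.ln
  | S3.z => e.lz

/-- rank in the lift `l` (`false` = lift 0) -/
def Seg.rk (e : Seg) (l : Bool) (s : S3) : ℕ :=
  match l, s with
  | false, S3.p => e.rp0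
  | false, S3.n => e.rn0
  | false, S3.z => e.rz0
  | true, S3.p => e.rp1
  | true, S3.n => e.rn1
  | true, S3.z => e.rz1

/-- which signs occur on the intersection of two segments of the same ray; `none`: not decided -/
def pres (e e' : Seg) : Option (Bool × Bool × Bool) :=
  if min e.hi e'.hi < max e.lo e'.lo then some (false, false, false)
  else if e.df then some (e.sl, !e.sl, false)
  else if e'.df then some (e'.sl, !e'.sl, false)
  else if e.mo || e'.mo then
    let s1 := if e'.lo ≤ e.lo then e.sl else e'.sl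
    let s2 := if e.hi ≤ e'.hi then e.sh else e'.sh
    if s1 == s2 then some (s1, !s1, false) else some (true, true, true)
  else none

/-- side of a column: heights of the lowest and highest levels, segments, ranks of the unbounded
cells (top: lifts 0, 1; bottom: lifts 0, 1) -/
structure Edge where
  lo : ℤ
  hi : ℤ
  segs : List Seg
  rt0 : ℕ
  rt1 : ℕ
  rb0 : ℕ
  rb1 : ℕ

def Edge.flip (E : Edge) : Edge :=
  { lo := -E.hi, hi := -E.lo, segs := (E.segs.map Seg.flip).reverse
    rt0 := E.rb1, rt1 := E.rb0, rb0 := E.rt1, rb1 := E.rt0 }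

def Edge.rt (E : Edge) (l : Bool) : ℕ := if l then E.rt1 else E.rt0
def Edge.rb (E : Edge) (l : Bool) : ℕ := if l then E.rb1 else E.rb0

/-- the side `t` of the column, heights multiplied by `m` -/
def edgeOf (par : List ℕ) (s0 : Bool) (c : Column) (t m : ℤ) (right : Bool) : Edge :=
  { lo := m * (c.ch.al * c.L + c.ch.beZ t), hi := m * (c.ch.al * c.H + c.ch.beZ t)
    segs := c.bx.map (segOf par s0 c.ch (c.ch.beZ t) m right)
    rt0 := c.rt0, rt1 := c.rt1, rb0 := c.rb0, rb1 := c.rb1 }

/-- scaling factors `(m, m')` with `m • (x,y) = m' • (x',y')` -/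
def scal (x y x' y' : ℤ) : ℤ × ℤ :=
  if x = x' ∧ y = y' then (1, 1) else ((x'.natAbs + y'.natAbs : ℕ), (x.natAbs + y.natAbs : ℕ))

def Column.scal (c c' : Column) : ℤ × ℤ :=
  Oct.scal (c.ch.vxZ c.b) (c.ch.vyZ c.b) (c'.ch.vxZ c'.a) (c'.ch.vyZ c'.a)

/-- scaling at the seam: last column and antipode of the first column -/
def Column.scalS (c c' : Column) : ℤ × ℤ :=
  Oct.scal (c.ch.vxZ c.b) (c.ch.vyZ c.b) (-c'.ch.vxZ c'.a) (-c'.ch.vyZ c'.a)

def Cert.m (ct : Cert) : ℕ := ct.par.length
/-- sign of `F` at the poles -/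
def Cert.sp (ct : Cert) : Bool := sgnR ct.par ct.s0 ct.pl

/-- default column -/
def col0 : Column := ⟨⟨0, 0, 0, 0, 0, 0, 0, 0, 0⟩, 0, 0, [], 0, 0, 0, 0⟩

def Cert.col (ct : Cert) (i : ℕ) : Column := ct.cols.getD i col0
def Cert.n (ct : Cert) : ℕ := ct.cols.length

/-- right side of column `i`, scaled for the comparison with the next column -/
def Cert.eR (ct : Cert) (i : ℕ) : Edge :=
  if i + 1 < ct.n then
    edgeOf ct.par ct.s0 (ct.col i) (ct.col i).b ((ct.col i).scal (ct.col (i + 1))).1 true
  else edgeOf ct.par ct.s0 (ct.col i) (ct.col i).b ((ct.col i).scalS (ct.col 0)).1 true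

/-- left side of column `i`, scaled for the comparison with the previous column -/
def Cert.eL (ct : Cert) (i : ℕ) : Edge :=
  match i with
  | 0 => edgeOf ct.par ct.s0 (ct.col 0) (ct.col 0).a ((ct.col (ct.n - 1)).scalS (ct.col 0)).2 false
  | i + 1 => edgeOf ct.par ct.s0 (ct.col (i + 1)) (ct.col (i + 1)).a
      ((ct.col i).scal (ct.col (i + 1))).2 false

/-- side of the next column -/
def Cert.eN (ct : Cert) (i : ℕ) : Edge := if i + 1 < ct.n then ct.eL (i + 1) else (ct.eL 0).flip

/-- side of the previous column -/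
def Cert.eP (ct : Cert) (i : ℕ) : Edge :=
  match i with
  | 0 => (ct.eR (ct.n - 1)).flip
  | i + 1 => ct.eR i

def Box.rk (b : Box) (l : Bool) (s : S3) : ℕ :=
  match l, s with
  | false, S3.p => b.rp0
  | false, S3.n => b.rn0
  | false, S3.z => b.rz0
  | true, S3.p => b.rp1
  | true, S3.n => b.rn1
  | true, S3.z => b.rz1

def Column.rt (c : Column) (l : Bool) : ℕ := if l then c.rt1 else c.rt0
def Column.rb (c : Column) (l : Bool) : ℕ := if l then c.rb1 else c.rb0

/-- label of the part `s` of a box (lift 0) -/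
def Cert.bl (ct : Cert) (b : Box) (s : S3) : ℤ :=
  match s with
  | S3.p => regLab ct.par ct.s0 b true
  | S3.n => regLab ct.par ct.s0 b false
  | S3.z => b.lab

/-- sign of the lift -/
def ls (l : Bool) (i : ℤ) : ℤ := if l then -i else i

/-- default box -/
def box0 : Box := ⟨0, 0, 0, 0, 0, true, true, 0, 0, 0, 0, 0, 0, 0⟩

def Column.box (c : Column) (j : ℕ) : Box := c.bx.getD j box0

/-- cells on the sphere (`l`: lift, `i`: column, `j`: box) -/
inductive Cell
  | box (l : Bool) (i j : ℕ)
  | top (l : Bool) (i : ℕ)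
  | bot (l : Bool) (i : ℕ)
  | pole (l : Bool)
deriving DecidableEq

/-- the antipodal cell -/
def Cell.inv (c : Cell) : Cell :=
  match c with
  | Cell.box l i j => Cell.box (!l) i j
  | Cell.top l i => Cell.top (!l) i
  | Cell.bot l i => Cell.bot (!l) i
  | Cell.pole l => Cell.pole (!l)

/-- label of the part `s` of a cell -/
def Cert.clab (ct : Cert) (c : Cell) (s : S3) : ℤ :=
  match c with
  | Cell.box l i j => ls l (ct.bl ((ct.col i).box j) s)
  | Cell.top l _ => ls l ct.pl
  | Cell.bot l _ => ls l (-ct.pl)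
  | Cell.pole l => ls l ct.pl

/-- rank of the part `s` of a cell -/
def Cert.crk (ct : Cert) (c : Cell) (s : S3) : ℕ :=
  match c with
  | Cell.box l i j => ((ct.col i).box j).rk l s
  | Cell.top l i => (ct.col i).rt l
  | Cell.bot l i => (ct.col i).rb l
  | Cell.pole l => if l then ct.rp1 else ct.rp0

/-- `a` is a strict ancestor of `b` for the parent list `par` (labels `1..m`), depth at most `k` -/
def ancB (par : List ℕ) : ℕ → ℕ → ℕ → Bool
  | 0, _, _ => false
  | k + 1, a, b => (par.getD (b - 1) 0 == a) ||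
      (par.getD (b - 1) 0 != 0 && ancB par k a (par.getD (b - 1) 0))

end Oct
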