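import Pool.Agent.helper70.M8.ChkB

set_option autoImplicit false

/-!
# Integer checker, analytic part: fast functions, weighted conditions

Fast versions (shifts instead of products) of the functions of `Chk`, and the tests of boxes and
columns with weights. Tests on the vertical sides of a column use tables of degree 0 in `t`.
-/

namespace Oct

/-- `(a + b 2^S) x` -/
noncomputable def mulS (a b S x : ℕ) : ℕ :=
  Nat.add (Nat.mul a x) (Nat.shiftLeft (Nat.mul b x) S)

/-- `vrow` with `A = a + b 2^S` -/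
noncomputable def vrowF (M2 a b S : ℕ) (l : List ℤ) : List ℕ → ℕ :=
  List.rec (motive := fun _ => List ℕ → ℕ) (fun _ => 0)
    (fun g _ ih CP => List.rec (motive := fun _ => ℕ) 0
      (fun c cs _ => Nat.add (term M2 g c) (mulS a b S (ih cs))) CP) l

noncomputable def vrowsF (M1 M2 a b S : ℕ) (CP : List ℕ) (G : List (List ℤ)) : List ℕ :=
  List.rec (motive := fun _ => List ℕ) []
    (fun l _ ih => (Nat.land (vrowF M2 a b S l CP) M1) :: ih) G

/-- fast version of `vOf` -/
noncomputable def vOfF (k : Pk) (G : List (List ℤ)) (a b : ℕ) : List ℕ :=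
  vrowsF k.M1 k.M2 a b (Nat.mul k.B (Nat.succ k.n)) k.CP G

/-- `(1 + 2^B)^j x` -/
noncomputable def shP (B x : ℕ) (j : ℕ) : ℕ :=
  Nat.rec (motive := fun _ => ℕ) x (fun _ ih => Nat.add ih (Nat.shiftLeft ih B)) j

noncomputable def zipF (B : ℕ) (V : List ℕ) : ℕ → List ℕ :=
  List.rec (motive := fun _ => ℕ → List ℕ) (fun _ => [])
    (fun v _ ih n => shP B v n :: ih (Nat.pred n)) V

/-- fast version of `rwOf` -/
noncomputable def rwF (k : Pk) (V : List ℕ) : Rw := mkRw k.M k.o1 (zipF k.B V k.n)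

/-- `horU` with `A = a + b 2^S` -/
noncomputable def horF (a b S : ℕ) (W : List ℕ) : ℕ :=
  List.rec (motive := fun _ => ℕ) 0 (fun w _ ih => Nat.add w (mulS a b S ih)) W

/-- `tst` for the interval `[lo,hi]` -/
noncomputable def tstF (k : Pk) (r : Rw) (s : Bool) (lo hi : ℕ) : Bool :=
  Bool.rec (motive := fun _ => Bool)
    (Nat.beq (Nat.land (Nat.sub k.M (Nat.land
      (Nat.add r.m (mulS lo hi k.B (horF lo hi k.B r.t))) k.M1)) k.ms) 0)
    (Nat.beq (Nat.land (Nat.add r.p (mulS lo hi k.B (horF lo hi k.B r.t))) k.ms) 0) s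

/-! ## tables -/

/-- table of `2 (u - o) ∂G/∂u - k G` -/
def wT (o : ℤ) (k : ℕ) (G : List (List ℤ)) : List (List ℤ) :=
  addT ([] :: (dU G).map (smulP 2))
    (addT ((dU G).map (smulP (-2 * o))) (G.map (smulP (-(k : ℤ)))))

/-- value at an integer -/
def evZ (l : List ℤ) (a : ℤ) : ℤ := l.foldr (fun c r => c + a * r) 0

/-- table on the vertical line `t = a` -/
def atT (G : List (List ℤ)) (a : ℤ) : List (List ℤ) := G.map (fun l => [evZ l a])

/-! ## tests -/

/-- test on a vertical side; `k0 = pkOf B 0 n` -/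
noncomputable def tstE (B n : ℕ) (k0 : Pk) (G : List (List ℤ)) (um : ℕ) (s : Bool) (lo hi : ℕ) :
    Bool :=
  sizeOK B 0 n G 1 um && tstF k0 (rwF k0 (vOfF k0 G 0 0)) s lo hi

/-- entry of a list -/
noncomputable def getR (L : List Rw) : ℕ → Rw :=
  List.rec (motive := fun _ => ℕ → Rw) (fun _ => ⟨0, 0, []⟩)
    (fun r _ ih j => Nat.rec (motive := fun _ => Rw) r (fun i _ => ih i) j) L

/-- rows used in a column; `wk`: weights `1, 2, ...` -/
structure RowsF where
  w : Rw
  wu : Rw
  wt : Rw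
  wk : List Rw


noncomputable def wRow (k : Pk) (G : List (List ℤ)) (o : ℤ) (a b : ℕ) (j : ℕ) : Rw :=
  rwF k (vOfF k (wT o j G) a b)

noncomputable def rowsF (k : Pk) (G : List (List ℤ)) (cn : List ℕ) (o : ℤ) (V : List ℕ)
    (a b : ℕ) : RowsF where
  w := rwF k V
  wu := rwF k (zipM V.tail cn)
  wt := rwF k (vOfF k (dT G) a b)
  wk := [wRow k G o a b 1, wRow k G o a b 2, wRow k G o a b 3, wRow k G o a b 4,
    wRow k G o a b 5, wRow k G o a b 6, wRow k G o a b 7, wRow k G o a b 8,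
    wRow k G o a b 9, wRow k G o a b 10, wRow k G o a b 11, wRow k G o a b 12,
    wRow k G o a b 13, wRow k G o a b 14, wRow k G o a b 15, wRow k G o a b 16]

/-- test of the condition `UpC` -/
noncomputable def upT (k : Pk) (R : RowsF) (o : ℕ) (w : ℕ) (s : Bool) (lo hi : ℕ) : Bool :=
  match w with
  | 0 => tstF k R.wu s lo hi
  | j + 1 => Nat.blt j 16 && ((Nat.blt o lo && tstF k (getR R.wk j) s lo hi) ||
      (Nat.blt hi o && tstF k (getR R.wk j) (!s) lo hi))

/-- test of the condition `CvC`; `G`: table of the side -/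
noncomputable def cvF (B n : ℕ) (k0 : Pk) (G : List (List ℤ)) (um : ℕ) (o : ℤ) (w w' : ℕ)
    (s : Bool) (lo hi : ℕ) : Bool :=
  match w with
  | 0 => tstE B n k0 (dU (dU G)) um s lo hi
  | _ + 1 => (Nat.blt (tn o) lo || Nat.blt hi (tn o)) &&
      tstE B n k0 (wT o w' (wT o w G)) um s lo hi

/-- test of a box; `Ga`, `Gb`: tables of the sides -/
noncomputable def boxF (B n : ℕ) (k k0 : Pk) (R : RowsF) (Ga Gb : List (List ℤ)) (o : ℤ) (um : ℕ)
    (b : Box) : Bool :=
  let c := tn b.c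
  let s := tn b.s
  let lo := Nat.sub c s
  let hi := Nat.add c s
  (nn b.c && nn b.s && Nat.ble s c && Nat.ble hi um) &&
  match b.ty with
  | 0 => (b.sl == b.sh) && tstF k R.w b.sl lo hi
  | 1 => (b.sl == !b.sh) && upT k R (tn o) b.k b.sh lo hi && tstF k R.w b.sl lo lo &&
      tstF k R.w b.sh hi hi
  | 2 => (b.sl == b.sh) && tstF k R.w b.sl lo lo && tstF k R.w b.sh hi hi &&
      tstE B n k0 Ga um b.sl lo hi && tstF k R.wt (!b.sl) lo hi &&
      cvF B n k0 Gb um o b.k b.k' b.sl lo hi && tstE B n k0 Gb um (!b.sl) c c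
  | 3 => (b.sl == b.sh) && tstF k R.w b.sl lo lo && tstF k R.w b.sh hi hi &&
      tstE B n k0 Gb um b.sl lo hi && tstF k R.wt b.sl lo hi &&
      cvF B n k0 Ga um o b.k b.k' b.sl lo hi && tstE B n k0 Ga um (!b.sl) c c
  | _ => false

/-- analytic test of a column -/
noncomputable def colF (B n : ℕ) (k k0 : Pk) (cn : List ℕ) (ch : Chart) (G : List (List ℤ))
    (tm um : ℕ) (sp : Bool) (c : Column) : Bool :=
  let X := tn c.X
  let R := tn c.R
  let a := Nat.sub X R
  let b := Nat.add X R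
  let V := vOfF k G a b
  decide (c.ch = ch) && nn c.X && nn c.R && Nat.ble R X && Nat.ble b tm &&
  (nn c.L && nn c.H && capA k V um sp (tn c.L) (tn c.H)) &&
  c.bx.all (boxF B n k k0 (rowsF k G cn ch.o V a b) (atT G a) (atT G b) ch.o um)

/-- tests for the table of a chart -/
def ctxF (B m n : ℕ) (ch : Chart) (G : List (List ℤ)) (tm um : ℕ) : Bool :=
  sizeOK B m n G tm um && sizeOK B m n (dU G) tm um && sizeOK B m n (dT G) tm um &&
    decide (0 < ch.al) && decide (0 ≤ ch.o) &&
    (List.range 16).all (fun j => sizeOK B m n (wT ch.o (j + 1) G) tm um)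

end Oct
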