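import Pool.Agent.helper70.M8.Stmt
import Pool.Agent.helper70.M8.Base

set_option autoImplicit false

/-!
# Arrangements of ovals of real plane curves: certificates

Parts 1 (the statement) and 2 (data of a certificate) are in `Stmt` and `Base`.
Part 3: the analytic conditions of a certificate (strict polynomial inequalities on compact boxes).
Part 4: combinatorial conditions, covers.
-/

open MvPolynomial Set

namespace Oct

/-! ### geometry -/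

noncomputable def sg (b : Bool) : ℝ := if b then 1 else -1

noncomputable def Chart.vx (c : Chart) (t : ℝ) : ℝ := c.x0 + c.x1 * t
noncomputable def Chart.vy (c : Chart) (t : ℝ) : ℝ := c.y0 + c.y1 * t
noncomputable def Chart.be (c : Chart) (t : ℝ) : ℝ := c.b0 + c.b1 * t + c.b2 * t ^ 2
/-- the chart as a map to `ℝ³` -/
noncomputable def Chart.pt (c : Chart) (t u : ℝ) : Fin 3 → ℝ := ![c.vx t, c.vy t, c.al * u + c.be t]

/-- `±(0,0,1)` -/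
noncomputable def pole (e : Bool) : Fin 3 → ℝ := ![0, 0, sg (!e)]

/-! ## Part 3: analytic conditions -/

/-- pull back by the chart -/
noncomputable def Chart.pull (c : Chart) (F : MvPolynomial (Fin 3) ℝ) : MvPolynomial (Fin 2) ℝ :=
  aeval ![C (c.x0 : ℝ) + C (c.x1 : ℝ) * X 0, C (c.y0 : ℝ) + C (c.y1 : ℝ) * X 0,
    C (c.al : ℝ) * X 1 + C (c.b0 : ℝ) + C (c.b1 : ℝ) * X 0 + C (c.b2 : ℝ) * X 0 ^ 2] F

/-- pull back by `(t,s) ↦ s • pt t h + (1 - s) • (0,0,σ)` -/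
noncomputable def Chart.pullEnd (c : Chart) (h : ℤ) (σ : Bool) (F : MvPolynomial (Fin 3) ℝ) :
    MvPolynomial (Fin 2) ℝ :=
  aeval ![X 1 * (C (c.x0 : ℝ) + C (c.x1 : ℝ) * X 0), X 1 * (C (c.y0 : ℝ) + C (c.y1 : ℝ) * X 0),
    X 1 * (C (c.al * h + c.b0 : ℝ) + C (c.b1 : ℝ) * X 0 + C (c.b2 : ℝ) * X 0 ^ 2)
      + C (sg σ) * (1 - X 1)] F

/-- the polynomial `P` is positive on the box -/
def PosOn (P : MvPolynomial (Fin 2) ℝ) (a b c d : ℝ) : Prop :=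
  ∀ t ∈ Icc a b, ∀ u ∈ Icc c d, 0 < eval ![t, u] P

/-- `2 (u - o) ∂P/∂u - k P`: the sign of the derivative of `|u - o|^(-k/2) P` for `u > o` -/
noncomputable def wD (o : ℤ) (k : ℕ) (P : MvPolynomial (Fin 2) ℝ) : MvPolynomial (Fin 2) ℝ :=
  C 2 * (X 1 - C (o : ℝ)) * pderiv 1 P - C (k : ℝ) * P

/-- condition which makes every zero on a vertical segment a sign change, upwards from `-σ`
to `σ` -/
def UpC (P : MvPolynomial (Fin 2) ℝ) (o : ℤ) (k : ℕ) (σ : Bool) (a b lo hi : ℝ) : Prop :=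
  (k = 0 ∧ PosOn (C (sg σ) * pderiv 1 P) a b lo hi) ∨
  (k ≠ 0 ∧ (o : ℝ) < lo ∧ PosOn (C (sg σ) * wD o k P) a b lo hi) ∨
  (k ≠ 0 ∧ hi < (o : ℝ) ∧ PosOn (C (-sg σ) * wD o k P) a b lo hi)

/-- condition which makes the set where `σ P` is negative on a vertical segment an interval -/
def CvC (P : MvPolynomial (Fin 2) ℝ) (o : ℤ) (k k' : ℕ) (σ : Bool) (t lo hi : ℝ) : Prop :=
  (k = 0 ∧ PosOn (C (sg σ) * pderiv 1 (pderiv 1 P)) t t lo hi) ∨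
  (k ≠ 0 ∧ ((o : ℝ) < lo ∨ hi < (o : ℝ)) ∧ PosOn (C (sg σ) * wD o k' (wD o k P)) t t lo hi)

/-- analytic conditions for a box of a column -/
def BoxOK (F : MvPolynomial (Fin 3) ℝ) (col : Column) (b : Box) : Prop :=
  PosOn (C (sg b.sl) * col.ch.pull F) col.a col.b b.lo b.lo ∧
  PosOn (C (sg b.sh) * col.ch.pull F) col.a col.b b.hi b.hi ∧
  ((b.ty = 0 ∧ b.sl = b.sh ∧ PosOn (C (sg b.sl) * col.ch.pull F) col.a col.b b.lo b.hi) ∨
   (b.ty = 1 ∧ b.sl = !b.sh ∧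
      UpC (col.ch.pull F) col.ch.o b.k b.sh col.a col.b b.lo b.hi) ∨
   (b.ty = 2 ∧ b.sl = b.sh ∧
      PosOn (C (sg b.sl) * col.ch.pull F) col.a col.a b.lo b.hi ∧
      PosOn (C (-sg b.sl) * pderiv 0 (col.ch.pull F)) col.a col.b b.lo b.hi ∧
      CvC (col.ch.pull F) col.ch.o b.k b.k' b.sl col.b b.lo b.hi ∧
      PosOn (C (-sg b.sl) * col.ch.pull F) col.b col.b b.c b.c) ∨
   (b.ty = 3 ∧ b.sl = b.sh ∧
      PosOn (C (sg b.sl) * col.ch.pull F) col.b col.b b.lo b.hi ∧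
      PosOn (C (sg b.sl) * pderiv 0 (col.ch.pull F)) col.a col.b b.lo b.hi ∧
      CvC (col.ch.pull F) col.ch.o b.k b.k' b.sl col.a b.lo b.hi ∧
      PosOn (C (-sg b.sl) * col.ch.pull F) col.a col.a b.c b.c))

/-- analytic conditions for a column; `sp` is the sign of `F` at the pole -/
def ColOK (F : MvPolynomial (Fin 3) ℝ) (sp : Bool) (col : Column) : Prop :=
  PosOn (C (sg sp) * col.ch.pullEnd col.H true F) col.a col.b 0 1 ∧
  PosOn (C (sg sp) * col.ch.pullEnd col.L false F) col.a col.b 0 1 ∧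
  ∀ b ∈ col.bx, BoxOK F col b

/-- all the analytic conditions of a certificate -/
def AnaOK (F : MvPolynomial (Fin 3) ℝ) (sp : Bool) (cols : List Column) : Prop :=
  ∀ col ∈ cols, ColOK F sp col

/-! ## Part 4: combinatorial conditions -/

def S3.Has (s : S3) (r : ℝ) : Prop :=
  match s with
  | S3.p => 0 < r
  | S3.n => r < 0
  | S3.z => r = 0

/-- `s` occurs on the intersection -/
def Pres (e e' : Seg) (s : S3) : Prop :=
  ∃ p n z, pres e e' = some (p, n, z) ∧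
    match s with
    | S3.p => p = true
    | S3.n => n = true
    | S3.z => z = true

/-- the two sides of a common ray fit together (`E` left, `E'` right) -/
structure EdgeGlue (sp : Bool) (pl : ℤ) (E E' : Edge) : Prop where
  segs : ∀ e ∈ E.segs, ∀ e' ∈ E'.segs, pres e e' ≠ none ∧ ∀ s, Pres e e' s → e.lb s = e'.lb s
  lt : E.lo < E'.hi
  lt' : E'.lo < E.hi
  top : ∀ e' ∈ E'.segs, E.hi ≤ e'.hi → e'.lb (S3.of sp) = pl
  top' : ∀ e ∈ E.segs, E'.hi ≤ e.hi → e.lb (S3.of sp) = pl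
  bot : ∀ e' ∈ E'.segs, e'.lo ≤ E.lo → e'.lb (S3.of sp) = -pl
  bot' : ∀ e ∈ E.segs, e.lo ≤ E'.lo → e.lb (S3.of sp) = -pl

/-- the part `s` of a box is not empty -/
def Box.Act (b : Box) (s : S3) : Prop := b.ty = 0 → s = S3.of b.sl

/-- some neighbour on the side (own segment `e`, other side `E'`, `e` is to the left if `lft`)
has rank `< r` for the lift `l` and the sign `s` -/
def SideNb (sp lft : Bool) (e : Seg) (E' : Edge) (l : Bool) (s : S3) (r : ℕ) : Prop :=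
  (∃ e' ∈ E'.segs, (if lft then Pres e e' s else Pres e' e s) ∧ e'.rk l s < r) ∨
  (s = S3.of sp ∧ E'.hi ≤ e.hi ∧ E'.rt l < r) ∨ (s = S3.of sp ∧ e.lo ≤ E'.lo ∧ E'.rb l < r)

/-- rank condition for the part `s`, lift `l`, of the box `j` of the column `i` -/
def Cert.BoxRank (ct : Cert) (i j : ℕ) (l : Bool) (s : S3) : Prop :=
  let c := ct.col i
  let b := c.box j
  let r := b.rk l s
  r = 0 ∨
  (s = S3.of b.sl ∧ ((j = 0 ∧ c.rb l < r) ∨ (∃ k, j = k + 1 ∧ (c.box k).rk l s < r))) ∨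
  (s = S3.of b.sh ∧ ((j + 1 = c.bx.length ∧ c.rt l < r) ∨
    (j + 1 < c.bx.length ∧ (c.box (j + 1)).rk l s < r))) ∨
  SideNb ct.sp true (segOf ct.par ct.s0 c.ch (c.ch.beZ c.b)
    (if i + 1 < ct.n then (c.scal (ct.col (i + 1))).1 else (c.scalS (ct.col 0)).1) true b)
    (ct.eN i) l s r ∨
  SideNb ct.sp false (segOf ct.par ct.s0 c.ch (c.ch.beZ c.a)
    (if i = 0 then ((ct.col (ct.n - 1)).scalS c).2 else ((ct.col (i - 1)).scal c).2) false b)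
    (ct.eP i) l s r

def Cert.Valid (ct : Cert) (c : Cell) : Prop :=
  match c with
  | Cell.box _ i j => i < ct.n ∧ j < (ct.col i).bx.length
  | Cell.top _ i => i < ct.n
  | Cell.bot _ i => i < ct.n
  | Cell.pole _ => True

/-- the part `s` of the cell is not empty -/
def Cert.Act (ct : Cert) (c : Cell) (s : S3) : Prop :=
  match c with
  | Cell.box _ i j => ((ct.col i).box j).Act s
  | _ => s = S3.of ct.sp

/-- the combinatorial conditions of a certificate -/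
structure Comb (ct : Cert) : Prop where
  pos_n : 0 < ct.n
  pos_m : 0 < ct.m
  colR : ∀ c ∈ ct.cols, 0 < c.R ∧ 0 < c.ch.al ∧ 0 < c.ch.x1 * c.ch.y0 - c.ch.x0 * c.ch.y1 ∧
    0 ≤ c.ch.vyZ c.a ∧ 0 ≤ c.ch.vyZ c.b ∧ c.bx ≠ []
  boxS : ∀ c ∈ ct.cols, ∀ b ∈ c.bx, 0 < b.s
  /-- directions -/
  first : (ct.col 0).ch.vyZ (ct.col 0).a = 0 ∧ (ct.col 0).ch.vxZ (ct.col 0).a < 0
  last : (ct.col (ct.n - 1)).ch.vyZ (ct.col (ct.n - 1)).b = 0 ∧
    0 < (ct.col (ct.n - 1)).ch.vxZ (ct.col (ct.n - 1)).b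
  chain : ∀ i, i + 1 < ct.n →
    ((ct.col i).scal (ct.col (i + 1))).1 * (ct.col i).ch.vxZ (ct.col i).b =
      ((ct.col i).scal (ct.col (i + 1))).2 * (ct.col (i + 1)).ch.vxZ (ct.col (i + 1)).a ∧
    ((ct.col i).scal (ct.col (i + 1))).1 * (ct.col i).ch.vyZ (ct.col i).b =
      ((ct.col i).scal (ct.col (i + 1))).2 * (ct.col (i + 1)).ch.vyZ (ct.col (i + 1)).a
  /-- vertical neighbours -/
  vert : ∀ c ∈ ct.cols, ∀ j, j + 1 < c.bx.length → (c.box j).hi = (c.box (j + 1)).lo ∧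
    (c.box j).sh = (c.box (j + 1)).sl ∧
    ct.bl (c.box j) (S3.of (c.box j).sh) = ct.bl (c.box (j + 1)) (S3.of (c.box j).sh)
  top : ∀ c ∈ ct.cols, (c.box (c.bx.length - 1)).sh = ct.sp ∧
    ct.bl (c.box (c.bx.length - 1)) (S3.of ct.sp) = ct.pl
  bot : ∀ c ∈ ct.cols, (c.box 0).sl = ct.sp ∧ ct.bl (c.box 0) (S3.of ct.sp) = -ct.pl
  /-- horizontal neighbours -/
  glue : ∀ i < ct.n, EdgeGlue ct.sp ct.pl (ct.eR i) (ct.eN i)
  /-- ranks -/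
  rankB : ∀ i < ct.n, ∀ j < (ct.col i).bx.length, ∀ l s, ((ct.col i).box j).Act s →
    ct.BoxRank i j l s
  rankT : ∀ i < ct.n, ∀ l, (ct.col i).rt l = 0 ∨ (if l then ct.rp1 else ct.rp0) < (ct.col i).rt l ∨
    ((ct.col i).box ((ct.col i).bx.length - 1)).rk l (S3.of ct.sp) < (ct.col i).rt l
  rankBo : ∀ i < ct.n, ∀ l, (ct.col i).rb l = 0 ∨
    (if l then ct.rp0 else ct.rp1) < (ct.col i).rb l ∨
    ((ct.col i).box 0).rk l (S3.of ct.sp) < (ct.col i).rb l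
  rankP : ∀ l, (if l then ct.rp1 else ct.rp0) = 0 ∨ ∃ i < ct.n,
    (ct.col i).rt l < (if l then ct.rp1 else ct.rp0) ∨
    (ct.col i).rb (!l) < (if l then ct.rp1 else ct.rp0)
  /-- labels -/
  lab0 : ∀ c ∈ ct.cols, ∀ b ∈ c.bx, b.lab.natAbs ≤ ct.m ∧ (b.ty ≠ 0 → b.lab ≠ 0)
  labp : ct.pl.natAbs ≤ ct.m
  tree : ∀ i < ct.m, ct.par.getD i 0 ≤ i
  /-- roots: one for every region and every oval of the sphere -/
  root : ∀ c c' s s', ct.Valid c → ct.Valid c' → ct.Act c s → ct.Act c' s' →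
    ct.crk c s = 0 → ct.crk c' s' = 0 → (s = S3.z ↔ s' = S3.z) → ct.clab c s = ct.clab c' s' →
    c = c' ∧ s = s'
  all : ∀ o : ℤ, o ≠ 0 → o.natAbs ≤ ct.m → ∃ c, ct.Valid c ∧ ct.Act c S3.z ∧ ct.clab c S3.z = o

/-! ### the cells as subsets of `ℝ³ \ 0` -/

/-- antipode -/
def negV (v : V3) : V3 := ⟨-v.1, neg_ne_zero.2 v.2⟩

/-- positive multiples -/
def mulV (r : ℝ) (hr : 0 < r) (v : V3) : V3 := ⟨r • v.1, smul_ne_zero hr.ne' v.2⟩

def Cert.K (ct : Cert) (c : Cell) : Set V3 :=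
  match c with
  | Cell.box l i j => {v | ∃ r > 0, ∃ t ∈ Icc ((ct.col i).a : ℝ) (ct.col i).b,
      ∃ u ∈ Icc (((ct.col i).box j).lo : ℝ) ((ct.col i).box j).hi,
      v.1 = (r * sg (!l)) • (ct.col i).ch.pt t u}
  | Cell.top l i => {v | ∃ r > 0, ∃ t ∈ Icc ((ct.col i).a : ℝ) (ct.col i).b,
      ∃ s ∈ Icc (0 : ℝ) 1,
      v.1 = (r * sg (!l)) • (s • (ct.col i).ch.pt t (ct.col i).H + (1 - s) • pole false)}
  | Cell.bot l i => {v | ∃ r > 0, ∃ t ∈ Icc ((ct.col i).a : ℝ) (ct.col i).b,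
      ∃ s ∈ Icc (0 : ℝ) 1,
      v.1 = (r * sg (!l)) • (s • (ct.col i).ch.pt t (ct.col i).L + (1 - s) • pole true)}
  | Cell.pole l => {v | ∃ r > 0, v.1 = (r : ℝ) • pole l}

/-- the function whose zero set is the curve -/
noncomputable def fV (F : MvPolynomial (Fin 3) ℝ) (v : V3) : ℝ := eval v.1 F

/-! ### abstract covers -/

/-- a labelled cover of `ℝ³ \ 0` by closed cones -/
structure Cover (f : V3 → ℝ) (par : List ℕ) {ι : Type} (K : ι → Set V3) (lab : ι → S3 → ℤ)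
    (rk : ι → S3 → ℕ) (inv : ι → ι) : Prop where
  m_pos : 0 < par.length
  tree : ∀ i < par.length, par.getD i 0 ≤ i
  cont : Continuous f
  fneg : ∀ x, f (negV x) = f x
  fmul : ∀ x r hr, ∀ s : S3, s.Has (f (mulV r hr x)) ↔ s.Has (f x)
  closed : ∀ i, IsClosed (K i)
  cone : ∀ i x r hr, x ∈ K i → mulV r hr x ∈ K i
  conn : ∀ i, IsPreconnected (K i)
  part : ∀ i s, IsPreconnected (K i ∩ {x | S3.Has s (f x)})
  cover : ∀ x, ∃ i, x ∈ K i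
  glue : ∀ i j s x, x ∈ K i → x ∈ K j → s.Has (f x) → lab i s = lab j s
  rank : ∀ i s, (K i ∩ {x | S3.Has s (f x)}).Nonempty → rk i s = 0 ∨
    ∃ j, (K i ∩ K j ∩ {x | S3.Has s (f x)}).Nonempty ∧ rk j s < rk i s
  root : ∀ i j s s', (K i ∩ {x | S3.Has s (f x)}).Nonempty →
    (K j ∩ {x | S3.Has s' (f x)}).Nonempty → rk i s = 0 → rk j s' = 0 →
    (s = S3.z ↔ s' = S3.z) → lab i s = lab j s' → i = j ∧ s = s'
  range : ∀ i s, (K i ∩ {x | S3.Has s (f x)}).Nonempty →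
    (lab i s).natAbs ≤ par.length ∧ (s = S3.z → lab i s ≠ 0)
  oval : ∀ i, (K i ∩ {x | S3.Has S3.z (f x)}).Nonempty →
    (K i ∩ {x | S3.Has S3.p (f x)}).Nonempty ∧ (K i ∩ {x | S3.Has S3.n (f x)}).Nonempty ∧
    ((lab i S3.p = lab i S3.z ∧ lab i S3.n = up par (lab i S3.z)) ∨
     (lab i S3.n = lab i S3.z ∧ lab i S3.p = up par (lab i S3.z)))
  all : ∀ o : ℤ, o ≠ 0 → o.natAbs ≤ par.length →
    ∃ i, lab i S3.z = o ∧ (K i ∩ {x | S3.Has S3.z (f x)}).Nonempty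
  invK : ∀ i x, x ∈ K (inv i) ↔ negV x ∈ K i
  invlab : ∀ i s, lab (inv i) s = -lab i s

/-- region with label `l` of a cover -/
def Rg (f : V3 → ℝ) {ι : Type} (K : ι → Set V3) (lab : ι → S3 → ℤ) (l : ℤ) : Set V3 :=
  {x | ∃ i s, s ≠ S3.z ∧ x ∈ K i ∧ s.Has (f x) ∧ lab i s = l}

/-- oval with label `o` of a cover -/
def Og (f : V3 → ℝ) {ι : Type} (K : ι → Set V3) (lab : ι → S3 → ℤ) (o : ℤ) : Set V3 :=
  {x | ∃ i, x ∈ K i ∧ f x = 0 ∧ lab i S3.z = o}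

/-- nesting relation given by the parent list -/
def nestOf (par : List ℕ) (i j : Fin par.length) : Prop :=
  ancB par par.length (i.1 + 1) (j.1 + 1) = true

/-- every zero on `S` is a sign change from negative to positive -/
def Up (g : ℝ → ℝ) (S : Set ℝ) : Prop := ∀ x ∈ S, ∀ y ∈ S, x < y → 0 ≤ g x → 0 < g y

/-- the set where `g ≤ 0` is convex and `g < 0` in its interior -/
def Valley (g : ℝ → ℝ) (S : Set ℝ) : Prop :=
  ∀ x ∈ S, ∀ y ∈ S, ∀ z ∈ S, x < y → y < z → g x ≤ 0 → g z ≤ 0 → g y < 0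

/-- the segment describes the function `g` -/
def SegOK (g : ℝ → ℝ) (e : Seg) : Prop :=
  e.lo < e.hi ∧ 0 < sg e.sl * g e.lo ∧ 0 < sg e.sh * g e.hi ∧
  (e.df = true → e.sl = e.sh ∧ ∀ z ∈ Icc (e.lo : ℝ) e.hi, 0 < sg e.sl * g z) ∧
  (e.mo = true → e.sl = (!e.sh) ∧ Up (fun z => sg e.sh * g z) (Icc (e.lo : ℝ) e.hi))

/-- `F` on the line with direction `(x,y)` -/
noncomputable def rayF (F : MvPolynomial (Fin 3) ℝ) (x y z : ℝ) : ℝ := eval ![x, y, z] F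

/-- what the cover gives: lifts of the ovals and of their interiors -/
structure Lifts (f : V3 → ℝ) (m : ℕ) (anc : ℕ → ℕ → Prop) (Ov Dd : ℕ → Set V3) : Prop where
  oClosed : ∀ o, 1 ≤ o → o ≤ m → IsClosed (Ov o)
  oConn : ∀ o, 1 ≤ o → o ≤ m → IsConnected (Ov o)
  dOpen : ∀ o, 1 ≤ o → o ≤ m → IsOpen (Dd o)
  dConn : ∀ o, 1 ≤ o → o ≤ m → IsConnected (Dd o)
  oCone : ∀ o x r hr, x ∈ Ov o → mulV r hr x ∈ Ov o
  dCone : ∀ o x r hr, x ∈ Dd o → mulV r hr x ∈ Dd o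
  od : ∀ o, 1 ≤ o → o ≤ m → Disjoint (Ov o) (Dd o)
  od' : ∀ o, 1 ≤ o → o ≤ m → Disjoint (Ov o) (negV ⁻¹' Dd o)
  oo : ∀ o, 1 ≤ o → o ≤ m → Disjoint (Ov o) (negV ⁻¹' Ov o)
  dd : ∀ o, 1 ≤ o → o ≤ m → Disjoint (Dd o) (negV ⁻¹' Dd o)
  extOpen : ∀ o, 1 ≤ o → o ≤ m →
    IsOpen (Ov o ∪ Dd o ∪ (negV ⁻¹' Ov o ∪ negV ⁻¹' Dd o))ᶜ
  extConn : ∀ o, 1 ≤ o → o ≤ m →
    IsConnected (Ov o ∪ Dd o ∪ (negV ⁻¹' Ov o ∪ negV ⁻¹' Dd o))ᶜ
  oo2 : ∀ o o', 1 ≤ o → o ≤ m → 1 ≤ o' → o' ≤ m → o ≠ o' → Disjoint (Ov o) (Ov o')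
  oo2' : ∀ o o', 1 ≤ o → o ≤ m → 1 ≤ o' → o' ≤ m → o ≠ o' → Disjoint (Ov o) (negV ⁻¹' Ov o')
  zero : ∀ x, f x = 0 ↔ ∃ o, 1 ≤ o ∧ o ≤ m ∧ (x ∈ Ov o ∨ negV x ∈ Ov o)
  nest : ∀ o o', 1 ≤ o → o ≤ m → 1 ≤ o' → o' ≤ m → anc o o' → Ov o' ⊆ Dd o
  nest' : ∀ o o', 1 ≤ o → o ≤ m → 1 ≤ o' → o' ≤ m → ¬ anc o o' → Disjoint (Ov o') (Dd o)
  nest2 : ∀ o o', 1 ≤ o → o ≤ m → 1 ≤ o' → o' ≤ m → Disjoint (Ov o') (negV ⁻¹' Dd o)

end Oct
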