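import Pool.Agent.helper70.M8.ChkF
import Pool.Agent.helper70.M8.Chk
import Pool.Agent.helper70.M8.J3b
import Pool.Agent.helper70.M8.C1
import Pool.Agent.helper70.M8.J5a
import Pool.Agent.helper70.M8.JF

set_option autoImplicit false

/-! # OCT2-J5: soundness of the integer test of a column (weighted version) -/

open MvPolynomial Set Filter Topology

namespace Oct


private theorem ev_hom {F : MvPolynomial (Fin 3) ℝ} {d : ℕ} (hF : F.IsHomogeneous d)
    (c : ℝ) (w : Fin 3 → ℝ) : eval (c • w) F = c ^ d * eval w F := by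
  rw [MvPolynomial.eval_eq, MvPolynomial.eval_eq, Finset.mul_sum]
  refine Finset.sum_congr rfl (fun m hm => ?_)
  have h1 : ∏ i ∈ m.support, (c • w) i ^ m i = c ^ d * ∏ i ∈ m.support, w i ^ m i := by
    have h2 : ∑ i ∈ m.support, m i = d := by
      have := hF (mem_support_iff.1 hm)
      rw [← this]
      simp [Finsupp.weight_apply, Finsupp.sum]
    rw [← h2, ← Finset.prod_pow_eq_pow_sum, ← Finset.prod_mul_distrib]
    refine Finset.prod_congr rfl (fun i _ => ?_)
    rw [Pi.smul_apply, smul_eq_mul, mul_pow]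
  rw [h1]
  ring

private theorem nn_tn {z : ℤ} (h : nn z = true) : z = (tn z : ℤ) := by
  cases z with
  | ofNat k => rfl
  | negSucc k => exact absurd h (by show ¬ (false = true); simp)

private theorem sg_not (b : Bool) : sg (!b) = -sg b := by
  cases b <;> simp [sg]

section
variable {F : MvPolynomial (Fin 3) ℝ} {ch : Chart} {G : List (List ℤ)}
  (hG : ∀ t u : ℝ, eval (ch.pt t u) F = evT G t u)
include hG

private theorem e0 (t u : ℝ) : eval ![t, u] (ch.pull F) = evT G t u := by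
  rw [eval_pull, hG]

private theorem e0' : (fun p : ℝ × ℝ => eval ![p.1, p.2] (ch.pull F)) =
    fun p => evT G p.1 p.2 := by
  funext p
  exact e0 hG p.1 p.2

private theorem eT (t u : ℝ) : eval ![t, u] (pderiv 0 (ch.pull F)) = evT (dT G) t u := by
  have h1 := hasDerivAt_fst (ch.pull F) t u
  have h2 : (fun x => eval ![x, u] (ch.pull F)) = fun x => evT G x u := by
    funext x
    exact e0 hG x u
  rw [h2] at h1
  exact h1.unique (Oct.hasDerivAt_dT G t u)

private theorem eU (t u : ℝ) : eval ![t, u] (pderiv 1 (ch.pull F)) = evT (dU G) t u := by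
  have h1 := hasDerivAt_snd (ch.pull F) t u
  have h2 : (fun x => eval ![t, x] (ch.pull F)) = fun x => evT G t x := by
    funext x
    exact e0 hG t x
  rw [h2] at h1
  exact h1.unique (Oct.hasDerivAt_dU G t u)

private theorem eUU (t u : ℝ) : eval ![t, u] (pderiv 1 (pderiv 1 (ch.pull F))) =
    evT (dU (dU G)) t u := by
  have h1 := hasDerivAt_snd (pderiv 1 (ch.pull F)) t u
  have h2 : (fun x => eval ![t, x] (pderiv 1 (ch.pull F))) = fun x => evT (dU G) t x := by
    funext x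
    exact eU hG t x
  rw [h2] at h1
  exact h1.unique (Oct.hasDerivAt_dU (dU G) t u)

end

/-- from values to `PosOn` -/
private theorem posOn_of {P : MvPolynomial (Fin 2) ℝ} {f : ℝ → ℝ → ℝ}
    (hP : ∀ t u, eval ![t, u] P = f t u) {r : ℝ} {a b x y : ℝ}
    (h : ∀ t ∈ Icc a b, ∀ u ∈ Icc x y, 0 < r * f t u) : PosOn (C r * P) a b x y := by
  intro t ht u hu
  rw [map_mul, eval_C, hP]
  exact h t ht u hu

private theorem pole_false : pole false = ![0, 0, 1] := by
  simp [pole, sg]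

private theorem pole_true : pole true = (-1 : ℝ) • (![0, 0, 1] : Fin 3 → ℝ) := by
  funext i
  fin_cases i <;> simp [pole, sg]

/-! ### fast tests -/

private theorem blt_lt {a b : ℕ} (h : Nat.blt a b = true) : a < b := Nat.le_of_ble_eq_true h

private theorem len_of_size {B m n : ℕ} {G : List (List ℤ)} {tm um : ℕ}
    (hs : sizeOK B m n G tm um = true) : G.length ≤ n + 1 := by
  unfold sizeOK at hs
  simp only [Bool.and_eq_true, decide_eq_true_eq] at hs
  exact hs.1.1.1.1.1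

private theorem tstF_box {B m n : ℕ} {G : List (List ℤ)} {tm um : ℕ}
    (hs : sizeOK B m n G tm um = true)
    {a b lo hi : ℕ} (ha : a ≤ tm) (hb : b ≤ tm) (hlo : lo ≤ um) (hhi : hi ≤ um) {s : Bool}
    (h : tstF (pkOf B m n) (rwF (pkOf B m n) (vOfF (pkOf B m n) G a b)) s lo hi = true) :
    ∀ t ∈ Icc (a : ℝ) b, ∀ u ∈ Icc (lo : ℝ) hi, 0 < sg s * evT G t u := by
  rw [vOfF_eq, rwF_eq B m n (by rw [length_vOf]; exact len_of_size hs), tstF_eq] at h
  exact tst_box hs ha hb hlo hhi h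

private theorem tstF_boxU {B m n : ℕ} {G : List (List ℤ)} {tm um : ℕ}
    (hs : sizeOK B m n G tm um = true) (hs' : sizeOK B m n (dU G) tm um = true)
    {a b lo hi : ℕ} (ha : a ≤ tm) (hb : b ≤ tm) (hlo : lo ≤ um) (hhi : hi ≤ um) {s : Bool}
    (h : tstF (pkOf B m n) (rwF (pkOf B m n) (zipM (vOfF (pkOf B m n) G a b).tail (cnt n)))
      s lo hi = true) :
    ∀ t ∈ Icc (a : ℝ) b, ∀ u ∈ Icc (lo : ℝ) hi, 0 < sg s * evT (dU G) t u := by
  have h1 := len_of_size hs
  rw [vOfF_eq, rwF_eq B m n (by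
    rw [length_zipM, List.length_tail, length_vOf]
    exact (min_le_left _ _).trans (by omega)), tstF_eq] at h
  exact tst_boxU hs hs' ha hb hlo hhi h

private theorem tstE_sound {B n : ℕ} {G : List (List ℤ)} {um lo hi : ℕ} (hlo : lo ≤ um)
    (hhi : hi ≤ um) {s : Bool} (h : tstE B n (pkOf B 0 n) G um s lo hi = true) :
    ∀ u ∈ Icc (lo : ℝ) hi, 0 < sg s * evT G 0 u := by
  unfold tstE at h
  rw [Bool.and_eq_true] at h
  obtain ⟨h1, h2⟩ := h
  have h3 := tstF_box h1 (a := 0) (b := 0) (by norm_num) (by norm_num) hlo hhi h2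
  intro u hu
  exact h3 0 (by simp) u hu

/-! ### weighted conditions -/

private theorem eval_wD (P : MvPolynomial (Fin 2) ℝ) (o : ℤ) (k : ℕ) (t u : ℝ) :
    eval ![t, u] (wD o k P) =
      2 * (u - o) * eval ![t, u] (pderiv 1 P) - k * eval ![t, u] P := by
  unfold wD
  simp

private theorem posOn_one {P : MvPolynomial (Fin 2) ℝ} {f : ℝ → ℝ} {t0 : ℝ}
    (hP : ∀ u, eval ![t0, u] P = f u) {r : ℝ} {x y : ℝ}
    (h : ∀ u ∈ Icc x y, 0 < r * f u) : PosOn (C r * P) t0 t0 x y := by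
  intro t ht u hu
  have ht' : t = t0 := le_antisymm ht.2 ht.1
  rw [ht', map_mul, eval_C, hP]
  exact h u hu

private theorem line_d {P : MvPolynomial (Fin 2) ℝ} {H : List (List ℤ)} {t0 t1 : ℝ}
    (hP : ∀ u, eval ![t0, u] P = evT H t1 u) (u : ℝ) :
    eval ![t0, u] (pderiv 1 P) = evT (dU H) t1 u := by
  have h1 := hasDerivAt_snd P t0 u
  have h2 : (fun x => eval ![t0, x] P) = fun x => evT H t1 x := by
    funext x
    exact hP x
  rw [h2] at h1
  exact h1.unique (Oct.hasDerivAt_dU H t1 u)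

private theorem line_w {P : MvPolynomial (Fin 2) ℝ} {H : List (List ℤ)} {t0 t1 : ℝ}
    (hP : ∀ u, eval ![t0, u] P = evT H t1 u) (o : ℤ) (k : ℕ) (u : ℝ) :
    eval ![t0, u] (wD o k P) = evT (wT o k H) t1 u := by
  rw [eval_wD, evT_wT, line_d hP, hP]

private theorem cvF_sound {B n : ℕ} {G : List (List ℤ)} {um lo hi : ℕ} (hlo : lo ≤ um)
    (hhi : hi ≤ um) {s : Bool} {o : ℤ} (ho : 0 ≤ o) {w w' : ℕ}
    (h : cvF B n (pkOf B 0 n) G um o w w' s lo hi = true) {P : MvPolynomial (Fin 2) ℝ} {t0 : ℝ}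
    (hP : ∀ u, eval ![t0, u] P = evT G 0 u) : CvC P o w w' s t0 lo hi := by
  have ho' : (o : ℝ) = ((tn o : ℕ) : ℝ) := by
    have h1 : o = (tn o : ℤ) := by
      cases o with
      | ofNat k => rfl
      | negSucc k => exact absurd ho (by simp)
    exact_mod_cast congrArg (fun z : ℤ => (z : ℝ)) h1
  unfold CvC
  cases w with
  | zero =>
    simp only [cvF] at h
    refine Or.inl ⟨rfl, posOn_one (line_d (line_d hP)) ?_⟩
    exact tstE_sound hlo hhi h
  | succ w =>
    simp only [cvF, Bool.and_eq_true, Bool.or_eq_true] at h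
    obtain ⟨h1, h2⟩ := h
    refine Or.inr ⟨by omega, ?_, posOn_one (line_w (line_w hP o (w + 1)) o w') ?_⟩
    · rw [ho']
      rcases h1 with h1 | h1
      · left
        exact_mod_cast (blt_lt h1)
      · right
        exact_mod_cast (blt_lt h1)
    · exact tstE_sound hlo hhi h2

private theorem getR_wk (k : Pk) (G : List (List ℤ)) (cn : List ℕ) (o : ℤ) (V : List ℕ)
    (a b : ℕ) {j : ℕ} (hj : j < 16) :
    getR (rowsF k G cn o V a b).wk j = wRow k G o a b (j + 1) := by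
  interval_cases j <;> rfl

private theorem upT_sound {B m n : ℕ} {G : List (List ℤ)} {tm um : ℕ}
    (s0 : sizeOK B m n G tm um = true) (sU : sizeOK B m n (dU G) tm um = true) {o : ℤ}
    (sw : ∀ j < 16, sizeOK B m n (wT o (j + 1) G) tm um = true) (ho : 0 ≤ o)
    {a b lo hi : ℕ} (ha : a ≤ tm) (hb : b ≤ tm) (hlo : lo ≤ um) (hhi : hi ≤ um) {s : Bool} {w : ℕ}
    (h : upT (pkOf B m n) (rowsF (pkOf B m n) G (cnt n) o (vOfF (pkOf B m n) G a b) a b)
      (tn o) w s lo hi = true) {P : MvPolynomial (Fin 2) ℝ}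
    (hP : ∀ t u, eval ![t, u] P = evT G t u) : UpC P o w s a b lo hi := by
  have ho' : (o : ℝ) = ((tn o : ℕ) : ℝ) := by
    have h1 : o = (tn o : ℤ) := by
      cases o with
      | ofNat k => rfl
      | negSucc k => exact absurd ho (by simp)
    exact_mod_cast congrArg (fun z : ℤ => (z : ℝ)) h1
  unfold UpC
  cases w with
  | zero =>
    simp only [upT] at h
    refine Or.inl ⟨rfl, posOn_of (fun t u => line_d (hP t) u) ?_⟩
    exact tstF_boxU s0 sU ha hb hlo hhi h
  | succ j =>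
    simp only [upT, Bool.and_eq_true, Bool.or_eq_true] at h
    obtain ⟨hj, h⟩ := h
    have hj' : j < 16 := blt_lt hj
    rw [getR_wk _ _ _ _ _ _ _ hj'] at h
    right
    rcases h with ⟨h1, h2⟩ | ⟨h1, h2⟩
    · left
      refine ⟨by omega, ?_, posOn_of (fun t u => line_w (hP t) o (j + 1) u) ?_⟩
      · rw [ho']
        exact_mod_cast (blt_lt h1)
      · exact tstF_box (sw j hj') ha hb hlo hhi h2
    · right
      refine ⟨by omega, ?_, posOn_of (fun t u => line_w (hP t) o (j + 1) u) ?_⟩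
      · rw [ho']
        exact_mod_cast (blt_lt h1)
      · have h3 := tstF_box (sw j hj') ha hb hlo hhi h2
        rw [sg_not] at h3
        exact h3

theorem colF_sound {B m n d : ℕ} {ch : Chart} {G : List (List ℤ)} {tm um : ℕ} {sp : Bool}
    {F : MvPolynomial (Fin 3) ℝ} (hF : F.IsHomogeneous d) (hd : Even d)
    (hG : ∀ t u : ℝ, eval (ch.pt t u) F = evT G t u)
    (hc : ctxF B m n ch G tm um = true) (hp : 0 < sg sp * eval ![0, 0, 1] F) {c : Column}
    (h : colF B n (pkOf B m n) (pkOf B 0 n) (cnt n) ch G tm um sp c = true) : ColOK F sp c := by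
  unfold ctxF at hc
  simp only [Bool.and_eq_true, decide_eq_true_eq, List.all_eq_true, List.mem_range] at hc
  obtain ⟨⟨⟨⟨⟨s0, sU⟩, sT⟩, hal⟩, hch0⟩, sw⟩ := hc
  unfold colF at h
  simp only [Bool.and_eq_true, decide_eq_true_eq, List.all_eq_true] at h
  obtain ⟨⟨⟨⟨⟨⟨hch, nX⟩, nR⟩, hRX⟩, hbt⟩, ⟨⟨nL, nH⟩, hcap⟩⟩, hbox⟩ := h
  subst hch
  set X := tn c.X with hX
  set R := tn c.R with hR
  have hRX' : R ≤ X := Nat.le_of_ble_eq_true hRX
  have hbt' : X + R ≤ tm := Nat.le_of_ble_eq_true hbt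
  have hat' : X - R ≤ tm := by omega
  have ca : c.a = ((X - R : ℕ) : ℤ) := by
    unfold Column.a
    rw [nn_tn nX, nn_tn nR, ← hX, ← hR, Nat.cast_sub hRX']
  have cb : c.b = ((X + R : ℕ) : ℤ) := by
    unfold Column.b
    rw [nn_tn nX, nn_tn nR, ← hX, ← hR, Nat.cast_add]
  have ca' : (c.a : ℝ) = ((X - R : ℕ) : ℝ) := by rw [ca]; simp
  have cb' : (c.b : ℝ) = ((X + R : ℕ) : ℝ) := by rw [cb]; simp
  have cH : (c.H : ℝ) = ((tn c.H : ℕ) : ℝ) := by
    have := nn_tn nH
    exact_mod_cast congrArg (fun z : ℤ => (z : ℝ)) this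
  have cL : (c.L : ℝ) = ((tn c.L : ℕ) : ℝ) := by
    have := nn_tn nL
    exact_mod_cast congrArg (fun z : ℤ => (z : ℝ)) this
  rw [vOfF_eq] at hcap
  have hcs := cap_sound s0 hat' hbt' hcap
  have hal' : (0 : ℝ) < c.ch.al := by exact_mod_cast hal
  have key : ∀ (t s u : ℝ), 0 < s → 0 < sg sp * evT G t u →
      0 < sg sp * eval (s • c.ch.pt t u) F := by
    intro t s u hs hpos
    rw [ev_hom hF, hG]
    have : sg sp * (s ^ d * evT G t u) = s ^ d * (sg sp * evT G t u) := by ring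
    rw [this]
    exact mul_pos (pow_pos hs d) hpos
  refine ⟨?_, ?_, ?_⟩
  · intro t ht s hs
    rw [ca', cb'] at ht
    rw [map_mul, eval_C, eval_pullEnd]
    have hp2 : pole (!true) = ![0, 0, 1] := pole_false
    rw [hp2]
    rcases hs.1.eq_or_lt with h0 | h0
    · rw [← h0, zero_smul, zero_add, sub_zero, one_smul]
      exact hp
    · have hs0 : s ≠ 0 := h0.ne'
      have hal0 : (c.ch.al : ℝ) ≠ 0 := hal'.ne'
      have e1 : s • c.ch.pt t c.H + (1 - s) • (![0, 0, 1] : Fin 3 → ℝ) =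
          s • c.ch.pt t (c.H + (1 - s) / (s * c.ch.al)) := by
        funext i
        fin_cases i
        · simp [Chart.pt]
        · simp [Chart.pt]
        · simp [Chart.pt]
          field_simp
          ring
      rw [e1]
      refine key t s _ h0 ((hcs t ht).1 _ ?_)
      rw [cH]
      have : 0 ≤ (1 - s) / (s * c.ch.al) := div_nonneg (by linarith [hs.2]) (by positivity)
      linarith
  · intro t ht s hs
    rw [ca', cb'] at ht
    rw [map_mul, eval_C, eval_pullEnd]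
    have hp2 : pole (!false) = (-1 : ℝ) • (![0, 0, 1] : Fin 3 → ℝ) := pole_true
    rw [hp2]
    rcases hs.1.eq_or_lt with h0 | h0
    · rw [← h0, zero_smul, zero_add, sub_zero, one_smul, ev_hom hF, hd.neg_one_pow, one_mul]
      exact hp
    · have hs0 : s ≠ 0 := h0.ne'
      have hal0 : (c.ch.al : ℝ) ≠ 0 := hal'.ne'
      have e1 : s • c.ch.pt t c.L + (1 - s) • ((-1 : ℝ) • (![0, 0, 1] : Fin 3 → ℝ)) =
          s • c.ch.pt t (c.L - (1 - s) / (s * c.ch.al)) := by
        funext i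
        fin_cases i
        · simp [Chart.pt]
        · simp [Chart.pt]
        · simp [Chart.pt]
          field_simp
          ring
      rw [e1]
      refine key t s _ h0 ((hcs t ht).2 _ ?_)
      rw [cL]
      have : 0 ≤ (1 - s) / (s * c.ch.al) := div_nonneg (by linarith [hs.2]) (by positivity)
      linarith
  · intro b hb
    have hbb := hbox b hb
    unfold boxF at hbb
    rw [Bool.and_eq_true] at hbb
    obtain ⟨hb1, hb2⟩ := hbb
    simp only [Bool.and_eq_true] at hb1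
    obtain ⟨⟨⟨nc, ns⟩, hsc⟩, hhi⟩ := hb1
    have hsc' : tn b.s ≤ tn b.c := Nat.le_of_ble_eq_true hsc
    have hhi' : tn b.c + tn b.s ≤ um := Nat.le_of_ble_eq_true hhi
    have hlo' : tn b.c - tn b.s ≤ um := by omega
    have hcu : tn b.c ≤ um := by omega
    have blo : (b.lo : ℝ) = ((tn b.c - tn b.s : ℕ) : ℝ) := by
      have : b.lo = ((tn b.c - tn b.s : ℕ) : ℤ) := by
        unfold Box.lo
        rw [Nat.cast_sub hsc', ← nn_tn nc, ← nn_tn ns]
      exact_mod_cast congrArg (fun z : ℤ => (z : ℝ)) this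
    have bhi : (b.hi : ℝ) = ((tn b.c + tn b.s : ℕ) : ℝ) := by
      have : b.hi = ((tn b.c + tn b.s : ℕ) : ℤ) := by
        unfold Box.hi
        rw [Nat.cast_add, ← nn_tn nc, ← nn_tn ns]
      exact_mod_cast congrArg (fun z : ℤ => (z : ℝ)) this
    have bc : (b.c : ℝ) = ((tn b.c : ℕ) : ℝ) := by
      exact_mod_cast congrArg (fun z : ℤ => (z : ℝ)) (nn_tn nc)
    have f0 : ∀ t u, eval ![t, u] (c.ch.pull F) = evT G t u := e0 hG
    have fT : ∀ t u, eval ![t, u] (pderiv 0 (c.ch.pull F)) = evT (dT G) t u := eT hG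
    -- the vertical sides
    have fL : ∀ (x : ℕ) (u : ℝ), eval ![(x : ℝ), u] (c.ch.pull F) = evT (atT G x) 0 u := by
      intro x u
      rw [evT_atT, f0]
      norm_num
    rw [BoxOK, ca', cb', blo, bhi, bc]
    have ty : b.ty = 0 ∨ b.ty = 1 ∨ b.ty = 2 ∨ b.ty = 3 ∨ 4 ≤ b.ty := by omega
    rcases ty with ty | ty | ty | ty | ty
    · rw [ty] at hb2
      simp only [Bool.and_eq_true, beq_iff_eq] at hb2
      obtain ⟨q1, q2⟩ := hb2
      have p2 := tstF_box s0 hat' hbt' hlo' hhi' q2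
      refine ⟨posOn_of f0 (fun t ht u hu => p2 t ht u ⟨hu.1, hu.2.trans ?_⟩),
        posOn_of f0 (fun t ht u hu => ?_), Or.inl ⟨ty, q1, posOn_of f0 p2⟩⟩
      · exact_mod_cast (by omega : tn b.c - tn b.s ≤ tn b.c + tn b.s)
      · rw [← q1]
        refine p2 t ht u ⟨le_trans ?_ hu.1, hu.2⟩
        exact_mod_cast (by omega : tn b.c - tn b.s ≤ tn b.c + tn b.s)
    · rw [ty] at hb2
      simp only [Bool.and_eq_true, beq_iff_eq] at hb2
      obtain ⟨⟨⟨q1, q2⟩, q3⟩, q4⟩ := hb2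
      have p2 := upT_sound s0 sU sw hch0 hat' hbt' hlo' hhi' q2 f0
      have p3 := tstF_box s0 hat' hbt' hlo' hlo' q3
      have p4 := tstF_box s0 hat' hbt' hhi' hhi' q4
      exact ⟨posOn_of f0 p3, posOn_of f0 p4, Or.inr (Or.inl ⟨ty, q1, p2⟩)⟩
    · rw [ty] at hb2
      simp only [Bool.and_eq_true, beq_iff_eq] at hb2
      obtain ⟨⟨⟨⟨⟨⟨q1, q2⟩, q3⟩, q4⟩, q5⟩, q6⟩, q7⟩ := hb2
      have p2 := tstF_box s0 hat' hbt' hlo' hlo' q2
      have p3 := tstF_box s0 hat' hbt' hhi' hhi' q3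
      have p4 := tstE_sound hlo' hhi' q4
      have p5 := tstF_box sT hat' hbt' hlo' hhi' q5
      have p6 := cvF_sound hlo' hhi' hch0 q6 (fL (X + R))
      have p7 := tstE_sound hcu hcu q7
      rw [sg_not] at p5 p7
      exact ⟨posOn_of f0 p2, posOn_of f0 p3, Or.inr (Or.inr (Or.inl ⟨ty, q1,
        posOn_one (fL (X - R)) p4, posOn_of fT p5, p6, posOn_one (fL (X + R)) p7⟩))⟩
    · rw [ty] at hb2
      simp only [Bool.and_eq_true, beq_iff_eq] at hb2
      obtain ⟨⟨⟨⟨⟨⟨q1, q2⟩, q3⟩, q4⟩, q5⟩, q6⟩, q7⟩ := hb2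
      have p2 := tstF_box s0 hat' hbt' hlo' hlo' q2
      have p3 := tstF_box s0 hat' hbt' hhi' hhi' q3
      have p4 := tstE_sound hlo' hhi' q4
      have p5 := tstF_box sT hat' hbt' hlo' hhi' q5
      have p6 := cvF_sound hlo' hhi' hch0 q6 (fL (X - R))
      have p7 := tstE_sound hcu hcu q7
      rw [sg_not] at p7
      exact ⟨posOn_of f0 p2, posOn_of f0 p3, Or.inr (Or.inr (Or.inr ⟨ty, q1,
        posOn_one (fL (X + R)) p4, posOn_of fT p5, p6, posOn_one (fL (X - R)) p7⟩))⟩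
    · exfalso
      obtain ⟨k, hk⟩ : ∃ k, b.ty = k + 4 := ⟨b.ty - 4, by omega⟩
      rw [hk] at hb2
      exact absurd hb2 (by simp)

end Oct
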