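import Pool.Agent.helper70.M8.ChkC
import Pool.Agent.helper70.M8.Defs

/-! Module OCT-P2 (helper17): all pairs of overlapping segments. -/

set_option autoImplicit false

open Set

namespace Oct

/-- sorted, contiguous lists of segments -/
def Srt (L : List Seg) : Prop :=
  (∀ e ∈ L, e.lo < e.hi) ∧ ∀ i, ∀ e ∈ L[i]?, ∀ e' ∈ L[i + 1]?, e.hi = e'.lo

private theorem ltZ_iff' (a b : ℤ) : ltZ a b = true ↔ a < b := by
  cases a <;> cases b <;> simp only [ltZ, Nat.blt_eq, Int.ofNat_eq_natCast, Bool.false_eq_true,
    false_iff, true_iff] <;> omega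

private theorem leZ_iff' (a b : ℤ) : leZ a b = true ↔ a ≤ b := by
  cases a <;> cases b <;> simp only [leZ, Nat.ble_eq, Int.ofNat_eq_natCast, Bool.false_eq_true,
    false_iff, true_iff] <;> omega

private theorem eqZ_iff' (a b : ℤ) : eqZ a b = true ↔ a = b := by
  cases a <;> cases b <;> simp only [eqZ, Nat.beq_eq, Int.ofNat_eq_natCast, Bool.false_eq_true,
    false_iff] <;> omega

private theorem srt_tail {e : Seg} {E : List Seg} (h : Srt (e :: E)) : Srt E := by
  refine ⟨fun e1 he1 => h.1 e1 (List.mem_cons_of_mem _ he1), fun i e1 he1 e2 he2 => ?_⟩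
  exact h.2 (i + 1) e1 (by simpa using he1) e2 (by simpa using he2)

private theorem srt_head {e f : Seg} {E : List Seg} (h : Srt (e :: f :: E)) : e.hi = f.lo :=
  h.2 0 e (by simp) f (by simp)

/-- all the later segments are above the first one -/
private theorem srt_le {e : Seg} {E : List Seg} (h : Srt (e :: E)) : ∀ e1 ∈ E, e.hi ≤ e1.lo := by
  induction E generalizing e with
  | nil => intro e1 h1; simp at h1
  | cons f E ih =>
    intro e1 h1
    have h2 := srt_head h
    rcases List.mem_cons.1 h1 with rfl | h1
    · exact h2.le
    · have h3 := ih (srt_tail h) e1 h1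
      have h4 := h.1 f (by simp)
      omega

/-- the segments after the second one are strictly above the first one -/
private theorem srt_lt {e f : Seg} {E : List Seg} (h : Srt (e :: f :: E)) :
    ∀ e1 ∈ E, e.hi < e1.lo := by
  intro e1 h1
  have h2 := srt_head h
  have h3 := srt_le (srt_tail h) e1 h1
  have h4 := h.1 f (by simp)
  omega

private theorem okP_of_lt {e e' : Seg} (h : e.hi < e'.lo) : okP e e' = true := by
  unfold okP
  rw [if_pos]
  rw [(ltZ_iff' _ _).2 h, Bool.true_or]

private theorem okP_of_lt' {e e' : Seg} (h : e'.hi < e.lo) : okP e e' = true := by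
  unfold okP
  rw [if_pos]
  rw [(ltZ_iff' _ _).2 h, Bool.or_true]

private theorem sweep_cons (k : ℕ) (e e' : Seg) (E E' : List Seg) :
    sweep (k + 1) (e :: E) (e' :: E') = (okP e e' &&
      (if ltZ e.hi e'.hi then sweep k E (e' :: E')
       else if ltZ e'.hi e.hi then sweep k (e :: E) E'
       else (match E' with
          | [] => true
          | f' :: _ => okP e f') && (match E with
          | [] => true
          | f :: _ => okP f e') && sweep k E E')) := rfl

theorem sweep_sound {k : ℕ} {E E' : List Seg} (hE : Srt E) (hE' : Srt E')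
    (h : sweep k E E' = true) : ∀ e ∈ E, ∀ e' ∈ E', okP e e' = true := by
  induction k generalizing E E' with
  | zero => simp [sweep] at h
  | succ k ih =>
    rcases E with _ | ⟨e, E⟩
    · intro e he; simp at he
    rcases E' with _ | ⟨e', E'⟩
    · intro _ _ e' he'; simp at he'
    rw [sweep_cons, Bool.and_eq_true] at h
    obtain ⟨hee, h⟩ := h
    by_cases h1 : ltZ e.hi e'.hi = true
    · rw [if_pos h1] at h
      rw [ltZ_iff'] at h1
      have hall := ih (srt_tail hE) hE' h
      intro a ha b hb
      rcases List.mem_cons.1 ha with rfl | ha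
      · rcases List.mem_cons.1 hb with rfl | hb
        · exact hee
        · apply okP_of_lt
          have := srt_le hE' b hb
          omega
      · exact hall a ha b hb
    · rw [if_neg h1] at h
      rw [ltZ_iff'] at h1
      by_cases h2 : ltZ e'.hi e.hi = true
      · rw [if_pos h2] at h
        rw [ltZ_iff'] at h2
        have hall := ih hE (srt_tail hE') h
        intro a ha b hb
        rcases List.mem_cons.1 hb with rfl | hb
        · rcases List.mem_cons.1 ha with rfl | ha
          · exact hee
          · apply okP_of_lt'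
            have := srt_le hE a ha
            omega
        · exact hall a ha b hb
      · rw [if_neg h2] at h
        rw [ltZ_iff'] at h2
        have heq : e.hi = e'.hi := by omega
        rw [Bool.and_eq_true, Bool.and_eq_true] at h
        obtain ⟨⟨h3, h4⟩, h5⟩ := h
        have hall := ih (srt_tail hE) (srt_tail hE') h5
        intro a ha b hb
        rcases List.mem_cons.1 ha with rfl | ha
        · rcases List.mem_cons.1 hb with rfl | hb
          · exact hee
          · rcases E' with _ | ⟨f', E'⟩
            · simp at hb
            · rcases List.mem_cons.1 hb with rfl | hb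
              · exact h3
              · apply okP_of_lt
                have := srt_lt hE' b hb
                omega
        · rcases List.mem_cons.1 hb with rfl | hb
          · rcases E with _ | ⟨f, E⟩
            · simp at ha
            · rcases List.mem_cons.1 ha with rfl | ha
              · exact h4
              · apply okP_of_lt'
                have := srt_lt hE a ha
                omega
          · exact hall a ha b hb

private theorem presF_eq' {e e' : Seg} (h : e.lo ≤ e.hi) (h' : e'.lo ≤ e'.hi) (h1 : e.lo ≤ e'.hi)
    (h2 : e'.lo ≤ e.hi) : presF e e' = pres e e' := by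
  unfold presF pres
  rw [if_neg (show ¬ (min e.hi e'.hi < max e.lo e'.lo) by
    rw [not_lt, le_min_iff, max_le_iff, max_le_iff]
    exact ⟨⟨h, h2⟩, ⟨h1, h'⟩⟩)]
  have e1 : (if leZ e'.lo e.lo = true then e.sl else e'.sl) =
      (if e'.lo ≤ e.lo then e.sl else e'.sl) := by
    by_cases hh : e'.lo ≤ e.lo
    · rw [if_pos hh, if_pos ((leZ_iff' _ _).2 hh)]
    · rw [if_neg hh, if_neg (fun h3 => hh ((leZ_iff' _ _).1 h3))]
  have e2 : (if leZ e.hi e'.hi = true then e.sh else e'.sh) =
      (if e.hi ≤ e'.hi then e.sh else e'.sh) := by
    by_cases hh : e.hi ≤ e'.hi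
    · rw [if_pos hh, if_pos ((leZ_iff' _ _).2 hh)]
    · rw [if_neg hh, if_neg (fun h3 => hh ((leZ_iff' _ _).1 h3))]
  rw [e1, e2]

theorem okP_sound {e e' : Seg} (he : e.lo < e.hi) (he' : e'.lo < e'.hi) (h : okP e e' = true) :
    pres e e' ≠ none ∧ ∀ s, Pres e e' s → e.lb s = e'.lb s := by
  by_cases hc : e.hi < e'.lo ∨ e'.hi < e.lo
  · have hp : pres e e' = some (false, false, false) := by
      unfold pres
      rw [if_pos]
      rcases hc with hc | hc
      · exact lt_of_le_of_lt (min_le_left _ _) (lt_of_lt_of_le hc (le_max_right _ _))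
      · exact lt_of_le_of_lt (min_le_right _ _) (lt_of_lt_of_le hc (le_max_left _ _))
    refine ⟨by rw [hp]; exact Option.some_ne_none _, ?_⟩
    rintro s ⟨p, n, z, h1, h2⟩
    rw [hp, Option.some.injEq, Prod.mk.injEq, Prod.mk.injEq] at h1
    obtain ⟨rfl, rfl, rfl⟩ := h1
    cases s <;> simp at h2
  · push Not at hc
    have hpe := presF_eq' he.le he'.le hc.2 hc.1
    unfold okP at h
    rw [if_neg, hpe] at h
    · rcases hp : pres e e' with _ | ⟨p, n, z⟩
      · rw [hp] at h; simp at h
      · rw [hp] at h
        refine ⟨Option.some_ne_none _, ?_⟩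
        rintro s ⟨p', n', z', h1, h2⟩
        rw [hp, Option.some.injEq, Prod.mk.injEq, Prod.mk.injEq] at h1
        obtain ⟨rfl, rfl, rfl⟩ := h1
        simp only [Bool.and_eq_true, Bool.or_eq_true, Bool.not_eq_true', eqZ_iff'] at h
        obtain ⟨⟨h3, h4⟩, h5⟩ := h
        cases s
        · simp only at h2
          rw [h2] at h3
          simpa [Seg.lb] using h3
        · simp only at h2
          rw [h2] at h4
          simpa [Seg.lb] using h4
        · simp only at h2
          rw [h2] at h5
          simpa [Seg.lb] using h5
    · rw [Bool.or_eq_true, ltZ_iff', ltZ_iff']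
      omega

end Oct
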