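import Pool.Agent.helper70.M8.P1
import Pool.Agent.helper70.M8.P2

set_option autoImplicit false

/-! # [OCT-P3] columns: order, edges, glue -/

open Set

namespace Oct


namespace P3

/-- what `vertF` says about consecutive boxes -/
theorem vert_hi {g : Gl} : ∀ {L : List Box}, vertF g L = true → ∀ (i : ℕ) (b b' : Box),
    L[i]? = some b → L[i + 1]? = some b' → b.hi = b'.lo := by
  intro L
  induction L with
  | nil => intro _ i b b' h; simp at h
  | cons x L ih =>
    intro h i b b' hb hb'
    cases L with
    | nil => simp at hb'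
    | cons y L =>
      simp only [vertF, Bool.and_eq_true] at h
      cases i with
      | zero =>
        simp only [List.getElem?_cons_zero, Option.some.injEq, zero_add,
          List.getElem?_cons_succ] at hb hb'
        subst hb
        subst hb'
        exact (eqZ_iff _ _).1 h.1.1.1
      | succ i =>
        rw [List.getElem?_cons_succ] at hb hb'
        exact ih h.2 i b b' hb hb'

theorem colC_al {g : Gl} {c : Column} (hc : colC g c = true) : 0 < c.ch.al := by
  unfold colC at hc
  simp only [Bool.and_eq_true] at hc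
  exact (ltZ_iff _ _).1 hc.1.1.1.1.1.1.1.2

theorem colC_s {g : Gl} {c : Column} (hc : colC g c = true) : ∀ b ∈ c.bx, 0 < b.s := by
  unfold colC at hc
  simp only [Bool.and_eq_true, List.all_eq_true] at hc
  intro b hb
  exact (ltZ_iff _ _).1 (hc.1.1.1.2 b hb).1.1

theorem colC_vert {g : Gl} {c : Column} (hc : colC g c = true) : vertF g c.bx = true := by
  unfold colC at hc
  simp only [Bool.and_eq_true] at hc
  exact hc.1.1.2

theorem colC_ne {g : Gl} {c : Column} (hc : colC g c = true) : c.bx ≠ [] := by
  unfold colC at hc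
  simp only [Bool.and_eq_true] at hc
  have h := hc.1.2
  intro h0
  rw [h0] at h
  simp at h

theorem loS_cons (e : Seg) (L : List Seg) : loS (e :: L) = e.lo := rfl

theorem hiS_append (L : List Seg) (e : Seg) : hiS (L ++ [e]) = e.hi := by
  simp [hiS]

theorem loS_rev_flip {L : List Seg} (h : L ≠ []) : loS (L.map Seg.flip).reverse = -hiS L := by
  obtain ⟨A, e, rfl⟩ := (List.eq_nil_or_concat L).resolve_left h
  rw [List.concat_eq_append] at *
  rw [hiS_append]
  simp [loS, Seg.flip]

theorem hiS_rev_flip {L : List Seg} (h : L ≠ []) : hiS (L.map Seg.flip).reverse = -loS L := by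
  cases L with
  | nil => exact absurd rfl h
  | cons e A => simp [loS, hiS, Seg.flip]

theorem lbS_eq (e : Seg) (s : Bool) : lbS e s = e.lb (S3.of s) := by
  cases s <;> rfl

end P3

/-- the sides of a column are sorted -/
theorem segs_srt {g : Gl} (hg : glOK g = true) {c : Column} (hc : colC g c = true) {t m : ℤ}
    (hm : 0 < m) (right : Bool) : Srt (edgeOf g.par g.s0 c t m right).segs := by
  have hal := P3.colC_al hc
  refine ⟨?_, ?_⟩
  · intro e he
    simp only [edgeOf, List.mem_map] at he
    obtain ⟨b, hb, rfl⟩ := he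
    have hs := P3.colC_s hc b hb
    show m * (c.ch.al * b.lo + c.ch.beZ t) < m * (c.ch.al * b.hi + c.ch.beZ t)
    have h1 : b.lo < b.hi := by
      unfold Box.lo Box.hi
      linarith
    have h2 := mul_lt_mul_of_pos_left h1 hal
    exact mul_lt_mul_of_pos_left (by linarith) hm
  · intro i e he e' he'
    simp only [edgeOf, List.getElem?_map, Option.mem_def, Option.map_eq_some_iff] at he he'
    obtain ⟨b, hb, rfl⟩ := he
    obtain ⟨b', hb', rfl⟩ := he'
    have h := P3.vert_hi (P3.colC_vert hc) i b b' hb hb'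
    show m * (c.ch.al * b.hi + c.ch.beZ t) = m * (c.ch.al * b'.lo + c.ch.beZ t)
    rw [h]

theorem flip_srt {L : List Seg} (h : Srt L) : Srt (L.map Seg.flip).reverse := by
  refine ⟨?_, ?_⟩
  · intro e he
    rw [List.mem_reverse, List.mem_map] at he
    obtain ⟨d, hd, rfl⟩ := he
    have := h.1 d hd
    show -d.hi < -d.lo
    linarith
  · intro i e he e' he'
    rw [Option.mem_def] at he he'
    have hi1 : i + 1 < L.length := by
      have := (List.getElem?_eq_some_iff.1 he').1
      simpa using this
    have hi0 : i < L.length := by omega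
    rw [List.getElem?_reverse (by simpa using hi0)] at he
    rw [List.getElem?_reverse (by simpa using hi1)] at he'
    simp only [List.length_map, List.getElem?_map, Option.map_eq_some_iff] at he he'
    obtain ⟨d, hd, rfl⟩ := he
    obtain ⟨d', hd', rfl⟩ := he'
    have h1 : L.length - 1 - i = (L.length - 1 - (i + 1)) + 1 := by omega
    rw [h1] at hd
    have := h.2 _ d' hd' d hd
    show -d.lo = -d'.hi
    rw [this]

/-- an edge whose levels are the ends of its list of segments -/
def EdgeFit (E : Edge) : Prop := E.segs ≠ [] ∧ E.lo = loS E.segs ∧ E.hi = hiS E.segs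

theorem edge_fit {g : Gl} (hg : glOK g = true) {c : Column} (hc : colC g c = true) (t m : ℤ)
    (right : Bool) : EdgeFit (edgeOf g.par g.s0 c t m right) := by
  have hne := P3.colC_ne hc
  refine ⟨by simpa [edgeOf] using hne, ?_, ?_⟩
  · obtain ⟨b, A, hb⟩ := List.exists_cons_of_ne_nil hne
    simp [edgeOf, loS, Column.L, hb, segOf]
  · obtain ⟨A, b, hb⟩ := (List.eq_nil_or_concat c.bx).resolve_left hne
    simp [edgeOf, hiS, Column.H, hb, segOf]

theorem flip_fit {E : Edge} (h : EdgeFit E) : EdgeFit E.flip := by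
  obtain ⟨h1, h2, h3⟩ := h
  refine ⟨by simpa [Edge.flip] using h1, ?_, ?_⟩
  · show -E.hi = loS (E.segs.map Seg.flip).reverse
    rw [P3.loS_rev_flip h1, h3]
  · show -E.lo = hiS (E.segs.map Seg.flip).reverse
    rw [P3.hiS_rev_flip h1, h2]

theorem glue_sound {g : Gl} {E E' : Edge} (hE : EdgeFit E) (hE' : EdgeFit E') (hs : Srt E.segs)
    (hs' : Srt E'.segs) (h : glueF g E.segs E'.segs = true) : EdgeGlue g.sp g.pl E E' := by
  obtain ⟨-, hlo, hhi⟩ := hE
  obtain ⟨-, hlo', hhi'⟩ := hE'
  unfold glueF at h
  simp only [Bool.and_eq_true, List.all_eq_true, Bool.or_eq_true, ltZ_iff, eqZ_iff, negZ_eq,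
    ← hlo, ← hhi, ← hlo', ← hhi', P3.lbS_eq] at h
  obtain ⟨⟨⟨⟨h1, h2⟩, h3⟩, h4⟩, h5⟩ := h
  refine ⟨?_, h1, h2, ?_, ?_, ?_, ?_⟩
  · intro e he e' he'
    exact okP_sound (hs.1 e he) (hs'.1 e' he') (sweep_sound hs hs' h5 e he e' he')
  · intro e he hle
    exact (h3 e he).1.resolve_left (not_lt.2 hle)
  · intro e he hle
    exact (h4 e he).1.resolve_left (not_lt.2 hle)
  · intro e he hle
    exact (h3 e he).2.resolve_left (not_lt.2 hle)
  · intro e he hle
    exact (h4 e he).2.resolve_left (not_lt.2 hle)

end Oct
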