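import Pool.Agent.helper70.M8.P1

set_option autoImplicit false

/-!
# OCT-P4: ranks
-/

open Set

namespace Oct

namespace RkAux

theorem mem_of_takeWhile {α : Type} {p : α → Bool} {L : List α} {x : α}
    (h : x ∈ L.takeWhile p) : x ∈ L := (List.takeWhile_prefix p).subset h

theorem mem_of_dropWhile {α : Type} {p : α → Bool} {L : List α} {x : α}
    (h : x ∈ L.dropWhile p) : x ∈ L := (List.dropWhile_suffix p).subset h

theorem rkCol_get (rb0 rb1 rt0 rt1 : ℕ) : ∀ (bs : List Box) (ER EL EN EP : List Seg)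
    (prev : Option Box), rkCol rb0 rb1 rt0 rt1 prev bs ER EL EN EP = true →
    ∀ j b, bs[j]? = some b →
    ∃ eR eL LN LP, ER[j]? = some eR ∧ EL[j]? = some eL ∧ (∀ e ∈ LN, e ∈ EN) ∧
      (∀ e ∈ LP, e ∈ EP) ∧
      rkBox rb0 rb1 rt0 rt1 (if j = 0 then prev else bs[j - 1]?) bs[j + 1]? b eR eL LN LP = true
  | [], _, _, _, _, _ => by
      intro _ j b hj
      simp at hj
  | b :: bs, [], _, _, _, _ => by
      intro h
      simp [rkCol] at h
  | b :: bs, _ :: _, [], _, _, _ => by
      intro h
      simp [rkCol] at h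
  | b :: bs, eR :: ER, eL :: EL, EN, EP, prev => by
      intro h j b' hj
      rw [rkCol] at h
      have h' := Bool.and_eq_true_iff.1 h
      obtain ⟨h1, h2⟩ := h'
      cases j with
      | zero =>
        have hb : b = b' := by simpa using hj
        subst hb
        refine ⟨eR, eL, (EN.dropWhile (fun e => ltZ e.hi eR.lo)).takeWhile
          (fun e => leZ e.lo eR.hi), (EP.dropWhile (fun e => ltZ e.hi eL.lo)).takeWhile
          (fun e => leZ e.lo eL.hi), rfl, rfl, ?_, ?_, ?_⟩
        · intro e he
          exact mem_of_dropWhile (mem_of_takeWhile he)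
        · intro e he
          exact mem_of_dropWhile (mem_of_takeWhile he)
        · have e1 : (b :: bs)[0 + 1]? = bs.head? := by simp [List.head?_eq_getElem?]
          rw [e1]
          exact h1
      | succ j =>
        have hj' : bs[j]? = some b' := by simpa using hj
        obtain ⟨eR', eL', LN, LP, g1, g2, g3, g4, g5⟩ :=
          rkCol_get rb0 rb1 rt0 rt1 bs ER EL _ _ (some b) h2 j b' hj'
        refine ⟨eR', eL', LN, LP, by simpa using g1, by simpa using g2, ?_, ?_, ?_⟩
        · intro e he
          exact mem_of_dropWhile (g3 e he)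
        · intro e he
          exact mem_of_dropWhile (g4 e he)
        · have e1 : (if j + 1 = 0 then prev else (b :: bs)[j + 1 - 1]?) =
              (if j = 0 then some b else bs[j - 1]?) := by
            rw [if_neg (Nat.succ_ne_zero j)]
            cases j with
            | zero => simp
            | succ j => simp
          have e2 : (b :: bs)[j + 1 + 1]? = bs[j + 1]? := by simp
          rw [e1, e2]
          exact g5

theorem rkBox_rkF {rb0 rb1 rt0 rt1 : ℕ} {prev next : Option Box} {b : Box} {eR eL : Seg}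
    {LN LP : List Seg} (h : rkBox rb0 rb1 rt0 rt1 prev next b eR eL LN LP = true) (l : Bool)
    (s : S3) (hs : b.Act s) :
    rkF (if l then rb1 else rb0) (if l then rt1 else rt0) prev next b eR eL LN LP l s = true := by
  unfold rkBox at h
  by_cases hty : b.ty = 0
  · have hs' := hs hty
    rw [hty] at h
    simp only [Bool.and_eq_true] at h
    subst hs'
    cases l
    · exact h.1
    · exact h.2
  · obtain ⟨k, hk⟩ : ∃ k, b.ty = k + 1 := ⟨b.ty - 1, by omega⟩
    rw [hk] at h
    simp only [Bool.and_eq_true] at h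
    obtain ⟨⟨⟨⟨⟨a1, a2⟩, a3⟩, a4⟩, a5⟩, a6⟩ := h
    cases s <;> cases l <;> simp_all

theorem nbF_pres {e : Seg} {L : List Seg} {lft : Bool} {l : Bool} {s : S3} {r : ℕ}
    (he : e.lo ≤ e.hi) (hL : ∀ e' ∈ L, e'.lo < e'.hi) (h : nbF e L lft l s r = true) :
    ∃ e' ∈ L, (if lft then Pres e e' s else Pres e' e s) ∧ e'.rk l s < r := by
  unfold nbF at h
  rw [List.any_eq_true] at h
  obtain ⟨e', he', h⟩ := h
  simp only [Bool.and_eq_true] at h
  obtain ⟨⟨⟨h1, h2⟩, h3⟩, h4⟩ := h
  have r1 : e'.rk l s < r := by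
    have := Nat.blt_eq (x := e'.rk l s) (y := r)
    exact this.mp h1
  have r2 := (leZ_iff _ _).1 h2
  have r3 := (leZ_iff _ _).1 h3
  have he'' := (hL e' he').le
  refine ⟨e', he', ?_, r1⟩
  cases lft
  · simp only [Bool.false_eq_true, if_false] at h4 ⊢
    rw [presF_eq he'' he r3 r2] at h4
    unfold Pres
    rcases hp : pres e' e with _ | ⟨p, n, z⟩
    · rw [hp] at h4; simp at h4
    · rw [hp] at h4
      refine ⟨p, n, z, rfl, ?_⟩
      cases s <;> simpa using h4
  · simp only [if_true] at h4 ⊢
    rw [presF_eq he he'' r2 r3] at h4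
    unfold Pres
    rcases hp : pres e e' with _ | ⟨p, n, z⟩
    · rw [hp] at h4; simp at h4
    · rw [hp] at h4
      refine ⟨p, n, z, rfl, ?_⟩
      cases s <;> simpa using h4

theorem colC_facts {g : Gl} {c : Column} (h : colC g c = true) :
    0 < c.ch.al ∧ (∀ b ∈ c.bx, 0 < b.s ∧ b.lab.natAbs ≤ g.par.length) := by
  unfold colC at h
  simp only [Bool.and_eq_true] at h
  obtain ⟨⟨⟨⟨⟨⟨⟨⟨a1, a2⟩, a3⟩, a4⟩, a5⟩, a6⟩, a7⟩, a8⟩, a9⟩ := h
  refine ⟨(ltZ_iff _ _).1 a2, ?_⟩
  intro b hb
  have := List.all_eq_true.1 a6 b hb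
  simp only [Bool.and_eq_true] at this
  obtain ⟨⟨b1, b2⟩, b3⟩ := this
  exact ⟨(ltZ_iff _ _).1 b1, Nat.ble_eq.mp b2⟩

theorem segOf_le {par : List ℕ} {s0 : Bool} {ch : Chart} {be m : ℤ} {right : Bool} {b : Box}
    (hm : 0 < m) (hal : 0 < ch.al) (hs : 0 < b.s) :
    (segOf par s0 ch be m right b).lo ≤ (segOf par s0 ch be m right b).hi := by
  show m * (ch.al * b.lo + be) ≤ m * (ch.al * b.hi + be)
  apply mul_le_mul_of_nonneg_left _ hm.le
  have : ch.al * b.lo ≤ ch.al * b.hi := by
    apply mul_le_mul_of_nonneg_left _ hal.le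
    unfold Box.lo Box.hi
    omega
  omega

theorem getD_of_getElem? {L : List Box} {j : ℕ} {b : Box} (h : L[j]? = some b) :
    L.getD j box0 = b := by
  rw [List.getD_eq_getElem?_getD, h]; rfl

end RkAux

open RkAux

/-! ## [OCT-P4] ranks -/

theorem rkCol_sound {g : Gl} (hg : glOK g = true) {L : List Column}
    (hL : ∀ c ∈ L, colC g c = true) {i : ℕ} (hi : i < L.length) {EN EP : List Seg} {m m' : ℤ}
    (hm : 0 < m) (hm' : 0 < m')
    (h1 : m = if i + 1 < (certOf g L).n then
        (((certOf g L).col i).scal ((certOf g L).col (i + 1))).1 else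
        (((certOf g L).col i).scalS ((certOf g L).col 0)).1)
    (h2 : m' = if i = 0 then
        (((certOf g L).col ((certOf g L).n - 1)).scalS ((certOf g L).col i)).2 else
        (((certOf g L).col (i - 1)).scal ((certOf g L).col i)).2)
    (hN : EN = ((certOf g L).eN i).segs) (hP : EP = ((certOf g L).eP i).segs)
    (hN' : ∀ e ∈ EN, e.lo < e.hi) (hP' : ∀ e ∈ EP, e.lo < e.hi)
    (h : rkCol ((certOf g L).col i).rb0 ((certOf g L).col i).rb1 ((certOf g L).col i).rt0
      ((certOf g L).col i).rt1 none ((certOf g L).col i).bx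
      (segsF g ((certOf g L).col i) ((certOf g L).col i).b m true)
      (segsF g ((certOf g L).col i) ((certOf g L).col i).a m' false) EN EP = true) :
    ∀ j < ((certOf g L).col i).bx.length, ∀ l s, (((certOf g L).col i).box j).Act s →
      (certOf g L).BoxRank i j l s := by
  intro j hj l s hact
  have hmem : (certOf g L).col i ∈ L := by
    unfold Cert.col certOf
    simp only
    rw [List.getD_eq_getElem _ _ hi]
    exact List.getElem_mem hi
  unfold Cert.BoxRank
  generalize hct : certOf g L = ct at *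
  have hpar : ct.par = g.par := by rw [← hct]; rfl
  have hs0 : ct.s0 = g.s0 := by rw [← hct]; rfl
  generalize hcc : ct.col i = c at *
  have hcC := hL c hmem
  obtain ⟨hal, hbx⟩ := colC_facts hcC
  have hget : c.bx[j]? = some (c.bx[j]) := List.getElem?_eq_getElem hj
  have hbox : c.box j = c.bx[j] := by
    unfold Column.box
    exact getD_of_getElem? hget
  have hz : ∀ b ∈ c.bx, b.lab.natAbs ≤ g.par.length := fun b hb => (hbx b hb).2
  rw [segsF_eq hg hz, segsF_eq hg hz] at h
  obtain ⟨eR, eL, LN, LP, g1, g2, g3, g4, g5⟩ := rkCol_get _ _ _ _ _ _ _ _ _ _ h j _ hget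
  have hbs := (hbx _ (List.getElem_mem hj)).1
  have hR : eR = segOf ct.par ct.s0 c.ch (c.ch.beZ c.b) m true (c.box j) := by
    have : (edgeOf g.par g.s0 c c.b m true).segs[j]? =
        some (segOf ct.par ct.s0 c.ch (c.ch.beZ c.b) m true (c.box j)) := by
      unfold edgeOf
      simp only [List.getElem?_map, hget, Option.map_some, hpar, hs0, hbox]
    rw [this] at g1
    exact (Option.some.inj g1).symm
  have hLe : eL = segOf ct.par ct.s0 c.ch (c.ch.beZ c.a) m' false (c.box j) := by
    have : (edgeOf g.par g.s0 c c.a m' false).segs[j]? =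
        some (segOf ct.par ct.s0 c.ch (c.ch.beZ c.a) m' false (c.box j)) := by
      unfold edgeOf
      simp only [List.getElem?_map, hget, Option.map_some, hpar, hs0, hbox]
    rw [this] at g2
    exact (Option.some.inj g2).symm
  have hact' : (c.bx[j]).Act s := by rw [← hbox]; exact hact
  have hF := rkBox_rkF g5 l s hact'
  unfold rkF at hF
  rw [← hbox] at hF
  simp only [Bool.or_eq_true] at hF
  rw [← hbox] at hbs
  rcases hF with (((hF | hF) | hF) | hF) | hF
  · left
    exact Nat.eq_of_beq_eq_true hF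
  · right; left
    simp only [Bool.and_eq_true, decide_eq_true_eq] at hF
    obtain ⟨f1, f2⟩ := hF
    refine ⟨f1, ?_⟩
    by_cases hj0 : j = 0
    · left
      refine ⟨hj0, ?_⟩
      rw [if_pos hj0] at f2
      have f3 := Nat.blt_eq.mp f2
      unfold Column.rb
      exact f3
    · right
      obtain ⟨k, hk⟩ : ∃ k, j = k + 1 := ⟨j - 1, by omega⟩
      refine ⟨k, hk, ?_⟩
      have hk' : k < c.bx.length := by omega
      have hgk : c.bx[k]? = some (c.bx[k]) := List.getElem?_eq_getElem hk'
      have e1 : (if j = 0 then none else c.bx[j - 1]?) = some (c.bx[k]) := by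
        rw [if_neg hj0, hk, Nat.add_sub_cancel, hgk]
      rw [e1] at f2
      have f3 := Nat.blt_eq.mp f2
      have e2 : c.box k = c.bx[k] := by
        unfold Column.box
        exact getD_of_getElem? hgk
      rw [e2]
      exact f3
  · right; right; left
    simp only [Bool.and_eq_true, decide_eq_true_eq] at hF
    obtain ⟨f1, f2⟩ := hF
    refine ⟨f1, ?_⟩
    by_cases hj1 : j + 1 < c.bx.length
    · right
      refine ⟨hj1, ?_⟩
      have hgk : c.bx[j + 1]? = some (c.bx[j + 1]) := List.getElem?_eq_getElem hj1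
      rw [hgk] at f2
      have f3 := Nat.blt_eq.mp f2
      have e2 : c.box (j + 1) = c.bx[j + 1] := by
        unfold Column.box
        exact getD_of_getElem? hgk
      rw [e2]
      exact f3
    · left
      refine ⟨by omega, ?_⟩
      have hgk : c.bx[j + 1]? = none := List.getElem?_eq_none (by omega)
      rw [hgk] at f2
      have f3 := Nat.blt_eq.mp f2
      unfold Column.rt
      exact f3
  · right; right; right; left
    have he : eR.lo ≤ eR.hi := by
      rw [hR]; exact segOf_le hm hal hbs
    obtain ⟨e', q1, q2, q3⟩ := nbF_pres he (fun e' he' => hN' e' (g3 e' he')) hF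
    left
    refine ⟨e', ?_, ?_, q3⟩
    · rw [← hN]; exact g3 e' q1
    · rw [← h1, ← hR]; exact q2
  · right; right; right; right
    have he : eL.lo ≤ eL.hi := by
      rw [hLe]; exact segOf_le hm' hal hbs
    obtain ⟨e', q1, q2, q3⟩ := nbF_pres he (fun e' he' => hP' e' (g4 e' he')) hF
    left
    refine ⟨e', ?_, ?_, q3⟩
    · rw [← hP]; exact g4 e' q1
    · rw [← h2, ← hLe]; exact q2

end Oct
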