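import Pool.Agent.helper70.M8.P1
import Pool.Agent.helper70.M8.P2
import Pool.Agent.helper70.M8.P3
import Pool.Agent.helper70.M8.P4
import Pool.Agent.helper70.M8.P5

set_option autoImplicit false

/-!
# [OCT-P6] the combinatorial conditions of a certificate
-/

open Set

namespace Oct

theorem chkAll_spec {g : Gl} {p : Column} {L : List Column} (h : chkAll g p L = true) {i : ℕ}
    (hi : i + 1 < L.length) :
    chk3 g ((p :: L).getD i col0) (L.getD i col0) (L.getD (i + 1) col0) = true := by
  induction L generalizing p i with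
  | nil => simp at hi
  | cons c L ih =>
    cases L with
    | nil => simp at hi
    | cons q L =>
      simp only [chkAll, Bool.and_eq_true] at h
      cases i with
      | zero => simpa using h.1
      | succ i =>
        have := ih h.2 (i := i) (by simpa using hi)
        simpa using this

theorem chkAll_append {g : Gl} {p h : Column} {A B : List Column} (hA : A ≠ [])
    (h1 : chkAll g p (A ++ [h]) = true) (h2 : chkAll g (A.getLast hA) (h :: B) = true) :
    chkAll g p (A ++ h :: B) = true := by
  induction A generalizing p with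
  | nil => exact absurd rfl hA
  | cons a A ih =>
    cases A with
    | nil =>
      simp only [List.cons_append, List.nil_append, chkAll, Bool.and_eq_true,
        List.getLast_singleton] at h1 h2 ⊢
      exact ⟨h1.1, h2⟩
    | cons b A =>
      simp only [List.cons_append, chkAll, Bool.and_eq_true] at h1 ⊢
      refine ⟨h1.1, ?_⟩
      have := ih (p := a) (by simp) (by simpa using h1.2) (by simpa using h2)
      simpa using this

theorem rootsL_append (g : Gl) (i : ℕ) (A B : List Column) :
    rootsL g i (A ++ B) = rootsL g i A ++ rootsL g (i + A.length) B := by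
  induction A generalizing i with
  | nil => simp [rootsL]
  | cons a A ih =>
    simp only [List.cons_append, rootsL, ih, List.append_assoc, List.length_cons]
    rw [show i + 1 + A.length = i + (A.length + 1) by ring]

namespace P6

variable {g : Gl} {L : List Column}

/-- scaling of the right side -/
def mR (g : Gl) (L : List Column) (i : ℕ) : ℤ :=
  if i + 1 < (certOf g L).n then (((certOf g L).col i).scal ((certOf g L).col (i + 1))).1 else
    (((certOf g L).col i).scalS ((certOf g L).col 0)).1

/-- scaling of the left side -/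
def mL (g : Gl) (L : List Column) (i : ℕ) : ℤ :=
  if i = 0 then (((certOf g L).col ((certOf g L).n - 1)).scalS ((certOf g L).col i)).2 else
    (((certOf g L).col (i - 1)).scal ((certOf g L).col i)).2

theorem eR_mR (i : ℕ) : (certOf g L).eR i =
    edgeOf g.par g.s0 ((certOf g L).col i) ((certOf g L).col i).b (mR g L i) true := by
  unfold Cert.eR mR
  split_ifs <;> rfl

theorem eL_mL (i : ℕ) : (certOf g L).eL i =
    edgeOf g.par g.s0 ((certOf g L).col i) ((certOf g L).col i).a (mL g L i) false := by
  cases i with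
  | zero => simp only [Cert.eL, mL, if_true]; rfl
  | succ i => simp only [Cert.eL, mL, Nat.succ_ne_zero, if_false, Nat.add_sub_cancel]; rfl

theorem col_mem {i : ℕ} (hi : i < L.length) : (certOf g L).col i ∈ L := by
  have : (certOf g L).col i = L[i] := List.getD_eq_getElem _ _ hi
  rw [this]
  exact List.getElem_mem hi

/-- all the conditions for the column `i` -/
theorem cond_i (hL : 3 ≤ L.length) (hg : glOK g = true)
    (hcol : ∀ c ∈ L, colC g c = true)
    (hlab : ∀ c ∈ L, ∀ b ∈ c.bx, b.lab.natAbs ≤ g.par.length)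
    (hfirst : chkFirst g (L.getD (L.length - 1) col0) (L.getD 0 col0) (L.getD 1 col0) = true)
    (hlast : chkLast g (L.getD (L.length - 2) col0) (L.getD (L.length - 1) col0)
      (L.getD 0 col0) = true)
    (hall : chkAll g (L.getD 0 col0) L.tail = true) {i : ℕ} (hi : i < L.length) :
    (0 < mR g L i ∧ 0 < mL g L i) ∧
    (if i + 1 < L.length then 0 < mL g L (i + 1) else 0 < mL g L 0) ∧
    (if i = 0 then 0 < mR g L (L.length - 1) else 0 < mR g L (i - 1)) ∧
    glueF g ((certOf g L).eR i).segs ((certOf g L).eN i).segs = true ∧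
    rkCol ((certOf g L).col i).rb0 ((certOf g L).col i).rb1 ((certOf g L).col i).rt0
      ((certOf g L).col i).rt1 none ((certOf g L).col i).bx
      (segsF g ((certOf g L).col i) ((certOf g L).col i).b (mR g L i) true)
      (segsF g ((certOf g L).col i) ((certOf g L).col i).a (mL g L i) false)
      ((certOf g L).eN i).segs ((certOf g L).eP i).segs = true ∧
    (i + 1 < L.length →
      ((((certOf g L).col i).scal ((certOf g L).col (i + 1))).1 *
          ((certOf g L).col i).ch.vxZ ((certOf g L).col i).b =
        (((certOf g L).col i).scal ((certOf g L).col (i + 1))).2 *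
          ((certOf g L).col (i + 1)).ch.vxZ ((certOf g L).col (i + 1)).a ∧
      (((certOf g L).col i).scal ((certOf g L).col (i + 1))).1 *
          ((certOf g L).col i).ch.vyZ ((certOf g L).col i).b =
        (((certOf g L).col i).scal ((certOf g L).col (i + 1))).2 *
          ((certOf g L).col (i + 1)).ch.vyZ ((certOf g L).col (i + 1)).a)) := by
  have hn : (certOf g L).n = L.length := rfl
  have hc : ∀ j, (certOf g L).col j = L.getD j col0 := fun j => rfl
  have hsR : ∀ {j : ℕ} (_ : j < L.length) (t m : ℤ) (r : Bool),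
      segsF g ((certOf g L).col j) t m r = (edgeOf g.par g.s0 ((certOf g L).col j) t m r).segs :=
    fun {j} hj t m r => segsF_eq hg (hlab _ (col_mem hj)) t m r
  -- cases
  rcases Nat.eq_zero_or_pos i with h0 | h0
  · subst h0
    have hmR : mR g L 0 = (((certOf g L).col 0).scal ((certOf g L).col 1)).1 := by
      simp only [mR, hn, zero_add]; rw [if_pos (by omega)]
    have hmL : mL g L 0 = (((certOf g L).col (L.length - 1)).scalS ((certOf g L).col 0)).2 := by
      simp only [mL, if_true, hn]
    have hmL1 : mL g L 1 = (((certOf g L).col 0).scal ((certOf g L).col 1)).2 := by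
      simp only [mL, one_ne_zero, if_false, Nat.sub_self]
    have hmRl : mR g L (L.length - 1) =
        (((certOf g L).col (L.length - 1)).scalS ((certOf g L).col 0)).1 := by
      simp only [mR, hn]; rw [if_neg (by omega)]
    have heN : ((certOf g L).eN 0).segs = segsF g ((certOf g L).col 1) ((certOf g L).col 1).a
        (((certOf g L).col 0).scal ((certOf g L).col 1)).2 false := by
      rw [Cert.eN, if_pos (by rw [hn]; omega), zero_add, eL_mL, hmL1, hsR (by omega)]
    have heR : ((certOf g L).eR 0).segs = segsF g ((certOf g L).col 0) ((certOf g L).col 0).b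
        (((certOf g L).col 0).scal ((certOf g L).col 1)).1 true := by
      rw [eR_mR, hmR, hsR (by omega)]
    have heP : ((certOf g L).eP 0).segs = flipF (segsF g ((certOf g L).col (L.length - 1))
        ((certOf g L).col (L.length - 1)).b
        (((certOf g L).col (L.length - 1)).scalS ((certOf g L).col 0)).1 true) := by
      rw [hsR (by omega), ← hmRl, ← eR_mR]
      rfl
    simp only [chkFirst, chainF, Bool.and_eq_true, decide_eq_true_eq, ltZ_iff] at hfirst
    obtain ⟨⟨⟨⟨⟨⟨⟨⟨⟨ha, hb⟩, hs1⟩, hs2⟩, hgl⟩, -⟩, -⟩, hs1'⟩, hs2'⟩, hrk⟩ := hfirst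
    refine ⟨⟨?_, ?_⟩, ?_, ?_, ?_, ?_, ?_⟩
    · rw [hmR]; exact hs1
    · rw [hmL]; exact hs2'
    · rw [if_pos (by omega), zero_add, hmL1]; exact hs2
    · rw [if_pos rfl, hmRl]; exact hs1'
    · rw [heR, heN]; exact hgl
    · rw [heN, heP, hmR, hmL]; exact hrk
    · intro _; exact ⟨ha, hb⟩
  · rcases Nat.lt_or_ge (i + 1) L.length with h1 | h1
    · -- middle
      obtain ⟨k, rfl⟩ : ∃ k, i = k + 1 := ⟨i - 1, by omega⟩
      have hmR : mR g L (k + 1) =
          (((certOf g L).col (k + 1)).scal ((certOf g L).col (k + 2))).1 := by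
        simp only [mR, hn]; rw [if_pos (by omega)]
      have hmL : mL g L (k + 1) =
          (((certOf g L).col k).scal ((certOf g L).col (k + 1))).2 := by
        simp only [mL, Nat.succ_ne_zero, if_false, Nat.add_sub_cancel]
      have hmL1 : mL g L (k + 2) =
          (((certOf g L).col (k + 1)).scal ((certOf g L).col (k + 2))).2 := by
        simp only [mL, Nat.succ_ne_zero, if_false]
        rfl
      have hmR1 : mR g L k =
          (((certOf g L).col k).scal ((certOf g L).col (k + 1))).1 := by
        simp only [mR, hn]; rw [if_pos (by omega)]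
      have heN : ((certOf g L).eN (k + 1)).segs =
          segsF g ((certOf g L).col (k + 2)) ((certOf g L).col (k + 2)).a
          (((certOf g L).col (k + 1)).scal ((certOf g L).col (k + 2))).2 false := by
        rw [Cert.eN, if_pos (by rw [hn]; omega), eL_mL, hmL1, hsR (by omega)]
      have heR : ((certOf g L).eR (k + 1)).segs =
          segsF g ((certOf g L).col (k + 1)) ((certOf g L).col (k + 1)).b
          (((certOf g L).col (k + 1)).scal ((certOf g L).col (k + 2))).1 true := by
        rw [eR_mR, hmR, hsR (by omega)]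
      have heP : ((certOf g L).eP (k + 1)).segs =
          segsF g ((certOf g L).col k) ((certOf g L).col k).b
          (((certOf g L).col k).scal ((certOf g L).col (k + 1))).1 true := by
        rw [hsR (by omega), ← hmR1, ← eR_mR]
        rfl
      have hch := chkAll_spec hall (i := k) (by rw [List.length_tail]; omega)
      have e1 : (L.getD 0 col0 :: L.tail).getD k col0 = L.getD k col0 := by
        cases L with
        | nil => simp at hi
        | cons a L => simp
      have e2 : ∀ j, L.tail.getD j col0 = L.getD (j + 1) col0 := by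
        intro j
        cases L with
        | nil => simp
        | cons a L => simp
      rw [e1, e2, e2] at hch
      simp only [chk3, chainF, Bool.and_eq_true, decide_eq_true_eq, ltZ_iff] at hch
      obtain ⟨⟨⟨⟨⟨⟨⟨ha, hb⟩, hs1⟩, hs2⟩, hgl⟩, hs1'⟩, hs2'⟩, hrk⟩ := hch
      refine ⟨⟨?_, ?_⟩, ?_, ?_, ?_, ?_, ?_⟩
      · rw [hmR]; exact hs1
      · rw [hmL]; exact hs2'
      · rw [if_pos (by omega), hmL1]; exact hs2
      · rw [if_neg (by omega), Nat.add_sub_cancel, hmR1]; exact hs1'
      · rw [heR, heN]; exact hgl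
      · rw [heN, heP, hmR, hmL]; exact hrk
      · intro _; exact ⟨ha, hb⟩
    · -- last
      have hil : i = L.length - 1 := by omega
      obtain ⟨k, rfl⟩ : ∃ k, i = k + 1 := ⟨i - 1, by omega⟩
      have hk : L.length - 2 = k := by omega
      rw [hk, ← hil] at hlast
      have hmR : mR g L (k + 1) =
          (((certOf g L).col (k + 1)).scalS ((certOf g L).col 0)).1 := by
        simp only [mR, hn]; rw [if_neg (by omega)]
      have hmL : mL g L (k + 1) =
          (((certOf g L).col k).scal ((certOf g L).col (k + 1))).2 := by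
        simp only [mL, Nat.succ_ne_zero, if_false, Nat.add_sub_cancel]
      have hmL1 : mL g L 0 =
          (((certOf g L).col (k + 1)).scalS ((certOf g L).col 0)).2 := by
        simp only [mL, if_true, hn]
        rw [← hil]
      have hmR1 : mR g L k =
          (((certOf g L).col k).scal ((certOf g L).col (k + 1))).1 := by
        simp only [mR, hn]; rw [if_pos (by omega)]
      have heN : ((certOf g L).eN (k + 1)).segs =
          flipF (segsF g ((certOf g L).col 0) ((certOf g L).col 0).a
          (((certOf g L).col (k + 1)).scalS ((certOf g L).col 0)).2 false) := by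
        rw [Cert.eN, if_neg (by rw [hn]; omega), eL_mL, hmL1, hsR (by omega)]
        rfl
      have heR : ((certOf g L).eR (k + 1)).segs =
          segsF g ((certOf g L).col (k + 1)) ((certOf g L).col (k + 1)).b
          (((certOf g L).col (k + 1)).scalS ((certOf g L).col 0)).1 true := by
        rw [eR_mR, hmR, hsR (by omega)]
      have heP : ((certOf g L).eP (k + 1)).segs =
          segsF g ((certOf g L).col k) ((certOf g L).col k).b
          (((certOf g L).col k).scal ((certOf g L).col (k + 1))).1 true := by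
        rw [hsR (by omega), ← hmR1, ← eR_mR]
        rfl
      simp only [chkLast, Bool.and_eq_true, decide_eq_true_eq, ltZ_iff] at hlast
      obtain ⟨⟨⟨⟨⟨⟨⟨hgl, -⟩, -⟩, hs1⟩, hs2⟩, hs1'⟩, hs2'⟩, hrk⟩ := hlast
      refine ⟨⟨?_, ?_⟩, ?_, ?_, ?_, ?_, ?_⟩
      · rw [hmR]; exact hs1
      · rw [hmL]; exact hs2'
      · rw [if_neg (by omega), hmL1]; exact hs2
      · rw [if_neg (by omega), Nat.add_sub_cancel, hmR1]; exact hs1'
      · rw [heR, heN]; exact hgl
      · rw [heN, heP, hmR, hmL]; exact hrk
      · intro h; omega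

theorem bl_of (b : Box) (s : Bool) :
    (certOf g L).bl b (S3.of s) = regLab g.par g.s0 b s := by
  cases s <;> rfl

theorem vertF_spec {l : List Box} (h : vertF g l = true) {j : ℕ} (hj : j + 1 < l.length) :
    (l.getD j box0).hi = (l.getD (j + 1) box0).lo ∧
    (l.getD j box0).sh = (l.getD (j + 1) box0).sl ∧
    regF g (l.getD j box0) (l.getD j box0).sh = regF g (l.getD (j + 1) box0) (l.getD j box0).sh := by
  induction l generalizing j with
  | nil => simp at hj
  | cons a l ih =>
    cases l with
    | nil => simp at hj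
    | cons b l =>
      simp only [vertF, Bool.and_eq_true, eqZ_iff, beq_iff_eq] at h
      cases j with
      | zero => simpa using ⟨h.1.1.1, h.1.1.2, h.1.2⟩
      | succ j =>
        have := ih h.2 (j := j) (by simpa using hj)
        simpa using this

theorem nat_beq0 {a : ℕ} : Nat.beq a 0 = true ↔ a = 0 := by
  rw [Nat.beq_eq]

theorem nat_blt {a b : ℕ} : Nat.blt a b = true ↔ a < b := by
  unfold Nat.blt
  rw [Nat.ble_eq]
  rfl

theorem colC_lab {c : Column} (h : colC g c = true) :
    ∀ b ∈ c.bx, 0 < b.s ∧ b.lab.natAbs ≤ g.par.length ∧ (b.ty ≠ 0 → b.lab ≠ 0) := by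
  simp only [colC, Bool.and_eq_true, List.all_eq_true, ltZ_iff, Nat.ble_eq] at h
  obtain ⟨⟨⟨⟨_, hb⟩, _⟩, _⟩, _⟩ := h
  intro b hbm
  obtain ⟨⟨h1, h2⟩, h3⟩ := hb b hbm
  refine ⟨h1, h2, fun hty h0 => ?_⟩
  rcases (Bool.or_eq_true_iff).1 h3 with h3 | h3
  · exact hty (Nat.eq_of_beq_eq_true h3)
  · rw [(eqZ_iff _ _).2 h0] at h3
    simp at h3

/-- the conditions `colC` -/
theorem colC_spec {c : Column} (hg : glOK g = true) (h : colC g c = true) :
    (0 < c.R ∧ 0 < c.ch.al ∧ 0 < c.ch.x1 * c.ch.y0 - c.ch.x0 * c.ch.y1 ∧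
      0 ≤ c.ch.vyZ c.a ∧ 0 ≤ c.ch.vyZ c.b ∧ c.bx ≠ []) ∧
    (∀ j, j + 1 < c.bx.length → (c.box j).hi = (c.box (j + 1)).lo ∧
      (c.box j).sh = (c.box (j + 1)).sl ∧
      regLab g.par g.s0 (c.box j) (c.box j).sh =
        regLab g.par g.s0 (c.box (j + 1)) (c.box j).sh) ∧
    ((c.box 0).sl = g.sp ∧ regLab g.par g.s0 (c.box 0) g.sp = -g.pl ∧
      (c.rb0 = 0 ∨ g.rp1 < c.rb0 ∨ (c.box 0).rk false (S3.of g.sp) < c.rb0) ∧
      (c.rb1 = 0 ∨ g.rp0 < c.rb1 ∨ (c.box 0).rk true (S3.of g.sp) < c.rb1)) ∧
    ((c.box (c.bx.length - 1)).sh = g.sp ∧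
      regLab g.par g.s0 (c.box (c.bx.length - 1)) g.sp = g.pl ∧
      (c.rt0 = 0 ∨ g.rp0 < c.rt0 ∨
        (c.box (c.bx.length - 1)).rk false (S3.of g.sp) < c.rt0) ∧
      (c.rt1 = 0 ∨ g.rp1 < c.rt1 ∨
        (c.box (c.bx.length - 1)).rk true (S3.of g.sp) < c.rt1)) := by
  have hlab := colC_lab h
  have hbox : ∀ j, j < c.bx.length → (c.box j).lab.natAbs ≤ g.par.length := by
    intro j hj
    have : c.box j = c.bx[j] := List.getD_eq_getElem _ _ hj
    rw [this]
    exact (hlab _ (List.getElem_mem hj)).2.1
  simp only [colC, Bool.and_eq_true, ltZ_iff, leZ_iff] at h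
  obtain ⟨⟨⟨⟨⟨⟨⟨⟨hR, hal⟩, hdet⟩, hva⟩, hvb⟩, _⟩, hv⟩, hbot⟩, htop⟩ := h
  have hne : c.bx ≠ [] := by
    intro h0
    rw [h0] at hbot
    simp at hbot
  have hlen : 0 < c.bx.length := List.length_pos_iff.2 hne
  have h0 : c.bx.head? = some (c.box 0) := by
    cases hc : c.bx with
    | nil => exact absurd hc hne
    | cons a l => simp [Column.box, hc]
  have hl : c.bx.getLast? = some (c.box (c.bx.length - 1)) := by
    rw [List.getLast?_eq_getElem?, List.getElem?_eq_getElem (by omega)]
    exact congrArg some (List.getD_eq_getElem _ _ (by omega)).symm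
  rw [h0] at hbot
  rw [hl] at htop
  simp only [Bool.and_eq_true, Bool.or_eq_true, beq_iff_eq, eqZ_iff, negZ_eq,
    nat_beq0, nat_blt, regF_eq hg (hbox 0 hlen),
    regF_eq hg (hbox (c.bx.length - 1) (by omega))] at hbot htop
  refine ⟨⟨hR, hal, hdet, hva, hvb, hne⟩, ?_, ⟨hbot.1.1.1, hbot.1.1.2, ?_, ?_⟩,
    ⟨htop.1.1.1, htop.1.1.2, ?_, ?_⟩⟩
  · intro j hj
    have := vertF_spec hv hj
    refine ⟨this.1, this.2.1, ?_⟩
    rw [← regF_eq hg (hbox j (by omega)), ← regF_eq hg (hbox (j + 1) hj)]
    exact this.2.2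
  · rcases hbot.1.2 with (h | h) | h
    · exact Or.inl h
    · exact Or.inr (Or.inl h)
    · exact Or.inr (Or.inr h)
  · rcases hbot.2 with (h | h) | h
    · exact Or.inl h
    · exact Or.inr (Or.inl h)
    · exact Or.inr (Or.inr h)
  · rcases htop.1.2 with (h | h) | h
    · exact Or.inl h
    · exact Or.inr (Or.inl h)
    · exact Or.inr (Or.inr h)
  · rcases htop.2 with (h | h) | h
    · exact Or.inl h
    · exact Or.inr (Or.inl h)
    · exact Or.inr (Or.inr h)

end P6

open P6 in
theorem comb_sound {g : Gl} {L : List Column} (hL : 3 ≤ L.length) (hg : glOK g = true)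
    (hcol : ∀ c ∈ L, colC g c = true)
    (hfirst : chkFirst g (L.getD (L.length - 1) col0) (L.getD 0 col0) (L.getD 1 col0) = true)
    (hlast : chkLast g (L.getD (L.length - 2) col0) (L.getD (L.length - 1) col0)
      (L.getD 0 col0) = true)
    (hall : chkAll g (L.getD 0 col0) L.tail = true)
    (hroots : rootsOK g (rootsP g ++ rootsL g 0 L) = true) (hpole : poleF g L = true) :
    Comb (certOf g L) := by
  have hn : (certOf g L).n = L.length := rfl
  have hm : (certOf g L).m = g.par.length := rfl
  have hlab : ∀ c ∈ L, ∀ b ∈ c.bx, b.lab.natAbs ≤ g.par.length :=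
    fun c hc b hb => (colC_lab (hcol c hc) b hb).2.1
  have hgl := hg
  simp only [glOK, Bool.and_eq_true, beq_iff_eq, nat_blt, decide_eq_true_eq, List.all_eq_true,
    List.mem_range, Nat.ble_eq] at hgl
  obtain ⟨⟨⟨⟨⟨hsp, hpar⟩, hpl⟩, _⟩, htree⟩, _⟩ := hgl
  have hsp' : (certOf g L).sp = g.sp := hsp.symm
  have hcm : ∀ i < L.length, (certOf g L).col i ∈ L := fun i hi => col_mem hi
  have hspec : ∀ i < L.length, _ := fun i hi => colC_spec hg (hcol _ (hcm i hi))
  have hcond : ∀ i < L.length, _ := fun i (hi : i < L.length) =>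
    cond_i hL hg hcol hlab hfirst hlast hall hi
  -- edges
  have fitR : ∀ i < L.length, EdgeFit ((certOf g L).eR i) := by
    intro i hi
    rw [eR_mR]
    exact edge_fit hg (hcol _ (hcm i hi)) _ _ _
  have fitL : ∀ i < L.length, EdgeFit ((certOf g L).eL i) := by
    intro i hi
    rw [eL_mL]
    exact edge_fit hg (hcol _ (hcm i hi)) _ _ _
  have srtR : ∀ i < L.length, Srt ((certOf g L).eR i).segs := by
    intro i hi
    rw [eR_mR]
    exact segs_srt hg (hcol _ (hcm i hi)) (hcond i hi).1.1 _
  have srtL : ∀ i < L.length, Srt ((certOf g L).eL i).segs := by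
    intro i hi
    rw [eL_mL]
    exact segs_srt hg (hcol _ (hcm i hi)) (hcond i hi).1.2 _
  have fitN : ∀ i < L.length, EdgeFit ((certOf g L).eN i) := by
    intro i hi
    rw [Cert.eN]
    split_ifs with h
    · exact fitL _ h
    · exact flip_fit (fitL 0 (by omega))
  have srtN : ∀ i < L.length, Srt ((certOf g L).eN i).segs := by
    intro i hi
    rw [Cert.eN]
    split_ifs with h
    · exact srtL _ h
    · exact flip_srt (srtL 0 (by omega))
  have srtP : ∀ i < L.length, Srt ((certOf g L).eP i).segs := by
    intro i hi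
    cases i with
    | zero => exact flip_srt (srtR _ (by rw [hn]; omega))
    | succ i => exact srtR i (by omega)
  have hroot := roots_sound hg hcol hroots
  refine
    { pos_n := by rw [hn]; omega
      pos_m := by rw [hm]; exact hpar
      colR := fun c hc => (colC_spec hg (hcol c hc)).1
      boxS := fun c hc b hb => (colC_lab (hcol c hc) b hb).1
      first := ?_
      last := ?_
      chain := fun i hi => (hcond i (by rw [hn] at hi; omega)).2.2.2.2.2 hi
      vert := ?_
      top := ?_
      bot := ?_
      glue := ?_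
      rankB := ?_
      rankT := ?_
      rankBo := ?_
      rankP := ?_
      lab0 := fun c hc b hb => (colC_lab (hcol c hc) b hb).2
      labp := hpl
      tree := htree
      root := hroot.1
      all := hroot.2 }
  · simp only [chkFirst, Bool.and_eq_true, decide_eq_true_eq, ltZ_iff] at hfirst
    obtain ⟨⟨⟨⟨⟨_, h1⟩, h2⟩, _⟩, _⟩, _⟩ := hfirst
    exact ⟨h1, h2⟩
  · simp only [chkLast, Bool.and_eq_true, decide_eq_true_eq, ltZ_iff] at hlast
    obtain ⟨⟨⟨⟨⟨⟨⟨_, h1⟩, h2⟩, _⟩, _⟩, _⟩, _⟩, _⟩ := hlast
    exact ⟨h1, h2⟩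
  · intro c hc j hj
    have := (colC_spec hg (hcol c hc)).2.1 j hj
    refine ⟨this.1, this.2.1, ?_⟩
    rw [bl_of, bl_of]
    exact this.2.2
  · intro c hc
    have := (colC_spec hg (hcol c hc)).2.2.2
    rw [hsp', bl_of]
    exact ⟨this.1, this.2.1⟩
  · intro c hc
    have := (colC_spec hg (hcol c hc)).2.2.1
    rw [hsp', bl_of]
    exact ⟨this.1, this.2.1⟩
  · intro i hi
    rw [hsp']
    exact glue_sound (fitR i hi) (fitN i hi) (srtR i hi) (srtN i hi) (hcond i hi).2.2.2.1
  · intro i hi
    exact rkCol_sound hg hcol hi (hcond i hi).1.1 (hcond i hi).1.2 rfl rfl rfl rfl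
      (srtN i hi).1 (srtP i hi).1 (hcond i hi).2.2.2.2.1
  · intro i hi l
    have := (hspec i hi).2.2.2.2.2
    rw [hsp']
    cases l with
    | false => exact this.1
    | true => exact this.2
  · intro i hi l
    have := (hspec i hi).2.2.1.2.2
    rw [hsp']
    cases l with
    | false => exact this.1
    | true => exact this.2
  · simp only [poleF, Bool.and_eq_true, Bool.or_eq_true, nat_beq0, List.any_eq_true,
      nat_blt] at hpole
    have key : ∀ c ∈ L, ∃ i < L.length, (certOf g L).col i = c := by
      intro c hc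
      obtain ⟨i, hi, rfl⟩ := List.getElem_of_mem hc
      exact ⟨i, hi, List.getD_eq_getElem _ _ hi⟩
    intro l
    cases l with
    | false =>
      rcases hpole.1 with h | ⟨c, hc, h⟩
      · exact Or.inl h
      · obtain ⟨i, hi, rfl⟩ := key c hc
        exact Or.inr ⟨i, hi, h⟩
    | true =>
      rcases hpole.2 with h | ⟨c, hc, h⟩
      · exact Or.inl h
      · obtain ⟨i, hi, rfl⟩ := key c hc
        exact Or.inr ⟨i, hi, h⟩

end Oct
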