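import Pool.Agent.helper70.M8.Chk

/-! Module OCT-J1 (helper17): digits of a number in base `2^B`, mask test. -/

set_option autoImplicit false

namespace Oct

private theorem mask_succ (B n : ℕ) : mask B (n + 1) = mask B n * 2 ^ B + 2 ^ (B - 1) := rfl

/-- peeling off the lowest digit -/
private theorem land_step {B n x : ℕ} (hB : 1 ≤ B) (hm : Nat.land x (mask B (n + 1)) = 0) :
    x % 2 ^ B < 2 ^ (B - 1) ∧ Nat.land (x / 2 ^ B) (mask B n) = 0 := by
  have hlt : 2 ^ (B - 1) < 2 ^ B := Nat.pow_lt_pow_right (by norm_num) (by omega)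
  have hm' : x &&& mask B (n + 1) = 0 := hm
  rw [mask_succ] at hm'
  constructor
  · have h1 : (x &&& (mask B n * 2 ^ B + 2 ^ (B - 1))).testBit (B - 1) = false := by
      rw [hm', Nat.zero_testBit]
    rw [Nat.testBit_and, mul_comm, Nat.testBit_two_pow_mul_add _ hlt, if_pos (by omega),
      Nat.testBit_two_pow_self, Bool.and_true, Nat.testBit_eq_decide_div_mod_eq] at h1
    have h2 : x / 2 ^ (B - 1) % 2 = 0 := by
      have h3 : ¬ (x / 2 ^ (B - 1) % 2 = 1) := by simpa using h1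
      omega
    have h4 : 2 ^ B = 2 ^ (B - 1) * 2 := by
      rw [← pow_succ]; congr 1; omega
    rw [h4, Nat.mod_mul, h2, mul_zero, add_zero]
    exact Nat.mod_lt _ (by positivity)
  · have h1 : (x &&& (mask B n * 2 ^ B + 2 ^ (B - 1))) / 2 ^ B = 0 := by
      rw [hm', Nat.zero_div]
    have h2 : (mask B n * 2 ^ B + 2 ^ (B - 1)) / 2 ^ B = mask B n := by
      rw [Nat.add_comm, Nat.add_mul_div_right _ _ (by positivity), Nat.div_eq_of_lt hlt, zero_add]
    have h3 : (x &&& (mask B n * 2 ^ B + 2 ^ (B - 1))) / 2 ^ B =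
        (x / 2 ^ B) &&& ((mask B n * 2 ^ B + 2 ^ (B - 1)) / 2 ^ B) := by
      rw [← Nat.shiftRight_eq_div_pow, ← Nat.shiftRight_eq_div_pow, ← Nat.shiftRight_eq_div_pow,
        Nat.shiftRight_and_distrib]
    rw [h3, h2] at h1
    exact h1

theorem digits_nonneg {B N : ℕ} (hB : 1 ≤ B) (k : ℕ → ℤ) (hk : ∀ i < N, |k i| < 2 ^ (B - 1))
    (x : ℕ) (hx : (x : ℤ) ≡ ∑ i ∈ Finset.range N, k i * (2 : ℤ) ^ (B * i) [ZMOD 2 ^ (B * N)])
    (hm : Nat.land x (mask B N) = 0) : ∀ i < N, 0 ≤ k i := by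
  induction N generalizing k x with
  | zero => intro i hi; omega
  | succ n ih =>
    obtain ⟨hd, hm'⟩ := land_step hB hm
    have hb : (2 : ℤ) ^ B = 2 ^ (B - 1) * 2 := by
      rw [← pow_succ]; congr 1; omega
    have hbpos : (0 : ℤ) < 2 ^ (B - 1) := by positivity
    have hsum : ∑ i ∈ Finset.range (n + 1), k i * (2 : ℤ) ^ (B * i) =
        k 0 + 2 ^ B * ∑ i ∈ Finset.range n, k (i + 1) * (2 : ℤ) ^ (B * i) := by
      rw [Finset.sum_range_succ', Finset.mul_sum, add_comm]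
      congr 1
      · simp
      · apply Finset.sum_congr rfl
        intro i _
        rw [Nat.mul_add, mul_one, pow_add]
        ring
    have hpow : (2 : ℤ) ^ (B * (n + 1)) = 2 ^ B * 2 ^ (B * n) := by
      rw [Nat.mul_add, mul_one, pow_add]; ring
    have hxd : (x : ℤ) = 2 ^ B * ((x / 2 ^ B : ℕ) : ℤ) + ((x % 2 ^ B : ℕ) : ℤ) := by
      have := Nat.div_add_mod x (2 ^ B)
      exact_mod_cast this.symm
    rw [hsum, hpow] at hx
    obtain ⟨c, hc⟩ := hx.dvd
    -- the lowest digit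
    have hd' : ((x % 2 ^ B : ℕ) : ℤ) < 2 ^ (B - 1) := by exact_mod_cast hd
    have hd0 : (0 : ℤ) ≤ ((x % 2 ^ B : ℕ) : ℤ) := by positivity
    have hk0 := abs_lt.1 (hk 0 (by omega))
    have h0 : k 0 = ((x % 2 ^ B : ℕ) : ℤ) := by
      have h1 : (2 : ℤ) ^ B ∣ k 0 - ((x % 2 ^ B : ℕ) : ℤ) := by
        refine ⟨2 ^ (B * n) * c + ((x / 2 ^ B : ℕ) : ℤ) -
          ∑ i ∈ Finset.range n, k (i + 1) * (2 : ℤ) ^ (B * i), ?_⟩
        linear_combination hc + hxd
      have h2 : |k 0 - ((x % 2 ^ B : ℕ) : ℤ)| < 2 ^ B := by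
        rw [abs_lt, hb]
        constructor <;> linarith [hk0.1, hk0.2]
      have h3 := Int.eq_zero_of_abs_lt_dvd h1 h2
      linarith
    have hstep : ((x / 2 ^ B : ℕ) : ℤ) ≡
        ∑ i ∈ Finset.range n, k (i + 1) * (2 : ℤ) ^ (B * i) [ZMOD 2 ^ (B * n)] := by
      rw [Int.modEq_iff_dvd]
      refine ⟨c, ?_⟩
      have h2B : (2 : ℤ) ^ B ≠ 0 := by positivity
      apply mul_left_cancel₀ h2B
      linear_combination hc + hxd - h0
    have hall := ih (fun i => k (i + 1)) (fun i hi => hk (i + 1) (by omega)) (x / 2 ^ B) hstep hm'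
    intro i hi
    rcases i with _ | i
    · rw [h0]; exact hd0
    · exact hall i (by omega)

end Oct
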