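import Pool.Agent.helper70.M8.Chk
import Pool.Agent.helper70.M8.J1

set_option autoImplicit false

/-!
# [OCT-J2] nonnegative coefficients by Kronecker packing
-/

open Finset

namespace Oct

namespace J2

/-- `F` is given by a polynomial in two variables with integer coefficients supported in
`i ≤ m`, `j ≤ n`, with `ℓ¹` norm at most `c` -/
def Rep (m n : ℕ) (c : ℤ) (F : ∀ (R : Type) [CommRing R], R → R → R) : Prop :=
  ∃ k : ℕ → ℕ → ℤ, (∀ i j, m < i ∨ n < j → k i j = 0) ∧
    ∑ i ∈ range (m + 1), ∑ j ∈ range (n + 1), |k i j| ≤ c ∧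
    ∀ (R : Type) [CommRing R] (S T : R), F R S T =
      ∑ i ∈ range (m + 1), ∑ j ∈ range (n + 1), (k i j : R) * S ^ i * T ^ j

theorem Rep.congr {m n : ℕ} {c : ℤ} {F F' : ∀ (R : Type) [CommRing R], R → R → R}
    (h : Rep m n c F) (hF : ∀ (R : Type) [CommRing R] (S T : R), F' R S T = F R S T) :
    Rep m n c F' := by
  obtain ⟨k, h1, h2, h3⟩ := h
  exact ⟨k, h1, h2, fun R _ S T => by rw [hF, h3]⟩

theorem Rep.monoC {m n : ℕ} {c c' : ℤ} {F : ∀ (R : Type) [CommRing R], R → R → R}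
    (h : Rep m n c F) (hc : c ≤ c') : Rep m n c' F := by
  obtain ⟨k, h1, h2, h3⟩ := h
  exact ⟨k, h1, h2.trans hc, h3⟩

theorem Rep.swap {m n : ℕ} {c : ℤ} {F : ∀ (R : Type) [CommRing R], R → R → R}
    (h : Rep m n c F) : Rep n m c (fun R _ S T => F R T S) := by
  obtain ⟨k, h1, h2, h3⟩ := h
  refine ⟨fun i j => k j i, fun i j hij => h1 j i (hij.symm), ?_, fun R _ S T => ?_⟩
  · rw [Finset.sum_comm]; exact h2
  · rw [Finset.sum_comm]
    show F R T S = _
    rw [h3]
    refine Finset.sum_congr rfl fun i _ => Finset.sum_congr rfl fun j _ => ?_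
    ring

theorem Rep.zero (m n : ℕ) : Rep m n 0 (fun R _ _ _ => (0 : R)) :=
  ⟨fun _ _ => 0, fun _ _ _ => rfl, by simp, fun R _ S T => by simp⟩

theorem Rep.add {m n : ℕ} {c c' : ℤ} {F F' : ∀ (R : Type) [CommRing R], R → R → R}
    (h : Rep m n c F) (h' : Rep m n c' F') :
    Rep m n (c + c') (fun R _ S T => F R S T + F' R S T) := by
  obtain ⟨k, h1, h2, h3⟩ := h
  obtain ⟨k', h1', h2', h3'⟩ := h'
  refine ⟨fun i j => k i j + k' i j, fun i j hij => by
    show k i j + k' i j = 0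
    rw [h1 i j hij, h1' i j hij, add_zero],
    ?_, fun R _ S T => ?_⟩
  · refine le_trans ?_ (add_le_add h2 h2')
    rw [← Finset.sum_add_distrib]
    refine Finset.sum_le_sum fun i _ => ?_
    rw [← Finset.sum_add_distrib]
    exact Finset.sum_le_sum fun j _ => abs_add_le _ _
  · show F R S T + F' R S T = _
    rw [h3, h3', ← Finset.sum_add_distrib]
    refine Finset.sum_congr rfl fun i _ => ?_
    rw [← Finset.sum_add_distrib]
    refine Finset.sum_congr rfl fun j _ => ?_
    push_cast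
    ring

theorem Rep.neg {m n : ℕ} {c : ℤ} {F : ∀ (R : Type) [CommRing R], R → R → R}
    (h : Rep m n c F) : Rep m n c (fun R _ S T => - F R S T) := by
  obtain ⟨k, h1, h2, h3⟩ := h
  refine ⟨fun i j => - k i j, fun i j hij => by
    show - k i j = 0
    rw [h1 i j hij, neg_zero], ?_, fun R _ S T => ?_⟩
  · simpa only [abs_neg] using h2
  · show - F R S T = _
    rw [h3, ← Finset.sum_neg_distrib]
    refine Finset.sum_congr rfl fun i _ => ?_
    rw [← Finset.sum_neg_distrib]
    refine Finset.sum_congr rfl fun j _ => ?_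
    push_cast
    ring

theorem Rep.mulConst {m n : ℕ} {c : ℤ} {F : ∀ (R : Type) [CommRing R], R → R → R}
    (h : Rep m n c F) (z : ℤ) : Rep m n (|z| * c) (fun R _ S T => (z : R) * F R S T) := by
  obtain ⟨k, h1, h2, h3⟩ := h
  refine ⟨fun i j => z * k i j, fun i j hij => by
    show z * k i j = 0
    rw [h1 i j hij, mul_zero], ?_,
    fun R _ S T => ?_⟩
  · refine le_trans (le_of_eq ?_) (mul_le_mul_of_nonneg_left h2 (abs_nonneg z))
    rw [Finset.mul_sum]
    refine Finset.sum_congr rfl fun i _ => ?_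
    rw [Finset.mul_sum]
    exact Finset.sum_congr rfl fun j _ => abs_mul _ _
  · show (z : R) * F R S T = _
    rw [h3, Finset.mul_sum]
    refine Finset.sum_congr rfl fun i _ => ?_
    rw [Finset.mul_sum]
    refine Finset.sum_congr rfl fun j _ => ?_
    push_cast
    ring

theorem Rep.one : Rep 0 0 1 (fun R _ _ _ => (1 : R)) := by
  refine ⟨fun i j => if i = 0 ∧ j = 0 then 1 else 0, fun i j hij => ?_, by simp,
    fun R _ S T => by simp⟩
  have : ¬ (i = 0 ∧ j = 0) := by omega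
  simp [this]

/-- enlarge the degree in `S` by one -/
theorem Rep.succS {m n : ℕ} {c : ℤ} {F : ∀ (R : Type) [CommRing R], R → R → R}
    (h : Rep m n c F) : Rep (m + 1) n c F := by
  obtain ⟨k, h1, h2, h3⟩ := h
  refine ⟨k, fun i j hij => h1 i j (by omega), ?_, fun R _ S T => ?_⟩
  · rw [Finset.sum_range_succ _ (m + 1)]
    have : ∑ j ∈ range (n + 1), |k (m + 1) j| = 0 :=
      Finset.sum_eq_zero fun j _ => by rw [h1 _ _ (Or.inl (Nat.lt_succ_self m)), abs_zero]
    rw [this, add_zero]; exact h2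
  · rw [Finset.sum_range_succ _ (m + 1)]
    have : ∑ j ∈ range (n + 1), ((k (m + 1) j : ℤ) : R) * S ^ (m + 1) * T ^ j = 0 :=
      Finset.sum_eq_zero fun j _ => by
        rw [h1 _ _ (Or.inl (Nat.lt_succ_self m))]; push_cast; ring
    rw [this, add_zero]; exact h3 R S T

/-- multiplication by `S` -/
theorem Rep.mulVar {m n : ℕ} {c : ℤ} {F : ∀ (R : Type) [CommRing R], R → R → R}
    (h : Rep m n c F) : Rep (m + 1) n c (fun R _ S T => S * F R S T) := by
  obtain ⟨k, h1, h2, h3⟩ := h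
  refine ⟨fun i j => Nat.casesOn i 0 (fun i => k i j), fun i j hij => ?_, ?_, fun R _ S T => ?_⟩
  · cases i with
    | zero => rfl
    | succ i => exact h1 i j (by omega)
  · rw [Finset.sum_range_succ']
    simpa using h2
  · rw [Finset.sum_range_succ']
    show S * F R S T = ∑ i ∈ range (m + 1), ∑ j ∈ range (n + 1),
      ((k i j : ℤ) : R) * S ^ (i + 1) * T ^ j +
      ∑ j ∈ range (n + 1), ((0 : ℤ) : R) * S ^ 0 * T ^ j
    have h0 : ∑ j ∈ range (n + 1), ((0 : ℤ) : R) * S ^ 0 * T ^ j = 0 :=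
      Finset.sum_eq_zero fun j _ => by simp
    rw [h0, add_zero, h3, Finset.mul_sum]
    refine Finset.sum_congr rfl fun i _ => ?_
    rw [Finset.mul_sum]
    refine Finset.sum_congr rfl fun j _ => ?_
    ring

/-- multiplication by `c0 + c1 S` -/
theorem Rep.mulS {m n : ℕ} {c : ℤ} {F : ∀ (R : Type) [CommRing R], R → R → R}
    (h : Rep m n c F) (c0 c1 : ℤ) :
    Rep (m + 1) n ((|c0| + |c1|) * c) (fun R _ S T => ((c0 : R) + c1 * S) * F R S T) := by
  have := (h.succS.mulConst c0).add (h.mulVar.mulConst c1)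
  refine (this.congr fun R _ S T => ?_).monoC (le_of_eq (by ring))
  ring

/-- multiplication by `c0 + c1 T` -/
theorem Rep.mulT {m n : ℕ} {c : ℤ} {F : ∀ (R : Type) [CommRing R], R → R → R}
    (h : Rep m n c F) (c0 c1 : ℤ) :
    Rep m (n + 1) ((|c0| + |c1|) * c) (fun R _ S T => ((c0 : R) + c1 * T) * F R S T) :=
  (h.swap.mulS c0 c1).swap

theorem Rep.nonneg {m n : ℕ} {c : ℤ} {F : ∀ (R : Type) [CommRing R], R → R → R}
    (h : Rep m n c F) : 0 ≤ c := by
  obtain ⟨k, _, h2, _⟩ := h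
  exact le_trans (Finset.sum_nonneg fun i _ => Finset.sum_nonneg fun j _ => abs_nonneg _) h2

/-- `(1 + S)^m` -/
theorem rep_pow (m : ℕ) : Rep m 0 (2 ^ m) (fun R _ S _ => (1 + S) ^ m) := by
  induction m with
  | zero => exact Rep.one.congr fun R _ S T => by simp
  | succ m ih =>
    refine ((ih.mulS 1 1).congr fun R _ S T => ?_).monoC (le_of_eq ?_)
    · push_cast; ring
    · simp; ring

theorem rep_mulPow {m : ℕ} {c : ℤ} {F : ∀ (R : Type) [CommRing R], R → R → R}
    (h : Rep m 0 c F) {q0 q1 : ℤ} (hq : |q0| + |q1| ≤ 2) (n : ℕ) :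
    Rep m n (2 ^ n * c) (fun R _ S T => F R S T * ((q0 : R) + q1 * T) ^ n) := by
  induction n with
  | zero => exact (h.congr fun R _ S T => by simp).monoC (by simp)
  | succ n ih =>
    refine ((ih.mulT q0 q1).congr fun R _ S T => ?_).monoC ?_
    · ring
    · have := ih.nonneg
      calc (|q0| + |q1|) * (2 ^ n * c) ≤ 2 * (2 ^ n * c) := mul_le_mul_of_nonneg_right hq this
        _ = 2 ^ (n + 1) * c := by ring

theorem rep_homP {tm a b : ℕ} (ha : a ≤ tm) (hb : b ≤ tm) (l : List ℤ) : ∀ (m : ℕ),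
    l.length ≤ m + 1 →
    Rep m 0 (2 ^ m * (absP l tm : ℤ))
      (fun R _ S _ => homP (R := R) m l ((a : R) + b * S) (1 + S)) := by
  induction l with
  | nil =>
    intro m _
    exact ((Rep.zero m 0).congr fun R _ S T => rfl).monoC (by simp [absP])
  | cons g l ih =>
    intro m hm
    have h1 : Rep m 0 (|g| * 2 ^ m) (fun R _ S _ => (g : R) * (1 + S) ^ m) :=
      (rep_pow m).mulConst g
    cases m with
    | zero =>
      have hl : l = [] := by
        simp only [List.length_cons] at hm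
        exact List.length_eq_zero_iff.mp (by omega)
      subst hl
      refine (h1.congr fun R _ S T => ?_).monoC ?_
      · simp [homP]
      · simp [absP]
    | succ m =>
      simp only [List.length_cons] at hm
      have h2 := (ih m (by omega)).mulS (a : ℤ) (b : ℤ)
      refine ((h1.add h2).congr fun R _ S T => ?_).monoC ?_
      · simp [homP]
      · have hc : (0 : ℤ) ≤ 2 ^ m * (absP l tm : ℤ) := by positivity
        have hab : |(a : ℤ)| + |(b : ℤ)| ≤ 2 * tm := by
          rw [Nat.abs_cast, Nat.abs_cast]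
          have : ((a : ℤ)) ≤ tm := by exact_mod_cast ha
          have : ((b : ℤ)) ≤ tm := by exact_mod_cast hb
          linarith
        have h3 : (absP (g :: l) tm : ℤ) = |g| + tm * (absP l tm : ℤ) := by
          simp [absP]
        rw [h3]
        calc |g| * 2 ^ (m + 1) + (|(a : ℤ)| + |(b : ℤ)|) * (2 ^ m * (absP l tm : ℤ))
            ≤ |g| * 2 ^ (m + 1) + (2 * tm) * (2 ^ m * (absP l tm : ℤ)) :=
              add_le_add le_rfl (mul_le_mul_of_nonneg_right hab hc)
          _ = 2 ^ (m + 1) * (|g| + tm * (absP l tm : ℤ)) := by ring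

theorem rep_homT {tm um a b m : ℕ} (ha : a ≤ tm) (hb : b ≤ tm) {p0 p1 q0 q1 : ℤ}
    (hp : |p0| + |p1| ≤ 2 * um) (hq : |q0| + |q1| ≤ 2) (G : List (List ℤ)) : ∀ (n : ℕ),
    G.length ≤ n + 1 → (∀ l ∈ G, l.length ≤ m + 1) →
    Rep m n (2 ^ (m + n) * (absT G tm um : ℤ))
      (fun R _ S T => homT (R := R) m n G ((a : R) + b * S) (1 + S) ((p0 : R) + p1 * T)
        ((q0 : R) + q1 * T)) := by
  induction G with
  | nil =>
    intro n _ _
    exact ((Rep.zero m n).congr fun R _ S T => rfl).monoC (by simp [absT])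
  | cons l G ih =>
    intro n hn hm
    have h1 := rep_mulPow (rep_homP ha hb l m (hm l (by simp))) hq n
    cases n with
    | zero =>
      have hG : G = [] := by
        simp only [List.length_cons] at hn
        exact List.length_eq_zero_iff.mp (by omega)
      subst hG
      refine (h1.congr fun R _ S T => ?_).monoC ?_
      · simp [homT]
      · simp [absT]
    | succ n =>
      simp only [List.length_cons] at hn
      have h2 := (ih n (by omega) (fun l' hl' => hm l' (by simp [hl']))).mulT p0 p1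
      refine ((h1.add h2).congr fun R _ S T => ?_).monoC ?_
      · simp [homT]
      · have hc : (0 : ℤ) ≤ 2 ^ (m + n) * (absT G tm um : ℤ) := by positivity
        have h3 : (absT (l :: G) tm um : ℤ) = (absP l tm : ℤ) + um * (absT G tm um : ℤ) := by
          simp [absT]
        rw [h3]
        calc 2 ^ (n + 1) * (2 ^ m * (absP l tm : ℤ))
              + (|p0| + |p1|) * (2 ^ (m + n) * (absT G tm um : ℤ))
            ≤ 2 ^ (n + 1) * (2 ^ m * (absP l tm : ℤ))
              + (2 * um) * (2 ^ (m + n) * (absT G tm um : ℤ)) :=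
              add_le_add le_rfl (mul_le_mul_of_nonneg_right hp hc)
          _ = 2 ^ (m + (n + 1)) * ((absP l tm : ℤ) + um * (absT G tm um : ℤ)) := by ring

theorem sum_pack {A : Type} [AddCommMonoid A] (N : ℕ) (f : ℕ → A) : ∀ M : ℕ,
    ∑ r ∈ range (M * N), f r = ∑ i ∈ range M, ∑ j ∈ range N, f (i * N + j)
  | 0 => by simp
  | M + 1 => by
    rw [Nat.succ_mul, Finset.sum_range_add, sum_pack N f M, Finset.sum_range_succ]

end J2

open J2 in
theorem core {B m n : ℕ} {G : List (List ℤ)} {tm um : ℕ} (hs : sizeOK B m n G tm um = true)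
    {a b : ℕ} (ha : a ≤ tm) (hb : b ≤ tm) {p0 p1 q0 q1 : ℤ} (hp : |p0| + |p1| ≤ 2 * um)
    (hq : |q0| + |q1| ≤ 2) {x : ℕ}
    (hx : (x : ℤ) ≡ homT (R := ℤ) m n G (a + b * 2 ^ (B * (n + 1))) (1 + 2 ^ (B * (n + 1)))
        (p0 + p1 * 2 ^ B) (q0 + q1 * 2 ^ B)
      - (1 + 2 ^ (B * (n + 1))) ^ m * (q0 + q1 * 2 ^ B) ^ n [ZMOD 2 ^ (B * ((m + 1) * (n + 1)))])
    (hm : Nat.land x (mask B ((m + 1) * (n + 1))) = 0) (s w : ℝ) (hs0 : 0 ≤ s) (hw : 0 ≤ w) :
    (1 + s) ^ m * (q0 + q1 * w) ^ n ≤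
      homT (R := ℝ) m n G (a + b * s) (1 + s) (p0 + p1 * w) (q0 + q1 * w) := by
  simp only [sizeOK, Bool.and_eq_true, decide_eq_true_eq, List.all_eq_true] at hs
  obtain ⟨⟨⟨⟨⟨hn, hl⟩, hsz⟩, hB⟩, _⟩, _⟩ := hs
  have hrep := (rep_homT ha hb hp hq G n hn hl).add (rep_mulPow (rep_pow m) hq n).neg
  obtain ⟨k, hk1, hk2, hk3⟩ := hrep
  have hbound : (2 : ℤ) ^ (m + n) * (absT G tm um : ℤ) + 2 ^ n * 2 ^ m < 2 ^ (B - 1) := by
    have : ((2 ^ (m + n) * (absT G tm um + 1) : ℕ) : ℤ) < ((2 ^ (B - 1) : ℕ) : ℤ) := by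
      exact_mod_cast hsz
    push_cast at this
    calc (2 : ℤ) ^ (m + n) * (absT G tm um : ℤ) + 2 ^ n * 2 ^ m
        = 2 ^ (m + n) * ((absT G tm um : ℤ) + 1) := by ring
      _ < _ := this
  have hkb : ∀ i ≤ m, ∀ j ≤ n, |k i j| < 2 ^ (B - 1) := by
    intro i hi j hj
    refine lt_of_le_of_lt ?_ hbound
    refine le_trans ?_ hk2
    have h1 : |k i j| ≤ ∑ j ∈ range (n + 1), |k i j| :=
      Finset.single_le_sum (f := fun j => |k i j|) (fun j _ => abs_nonneg _)
        (Finset.mem_range.mpr (by omega))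
    refine h1.trans ?_
    exact Finset.single_le_sum (f := fun i => ∑ j ∈ range (n + 1), |k i j|)
      (fun i _ => Finset.sum_nonneg fun j _ => abs_nonneg _) (Finset.mem_range.mpr (by omega))
  set κ : ℕ → ℤ := fun r => k (r / (n + 1)) (r % (n + 1)) with hκ
  have hdiv : ∀ i j, j ≤ n → (i * (n + 1) + j) / (n + 1) = i ∧ (i * (n + 1) + j) % (n + 1) = j := by
    intro i j hj
    constructor
    · rw [mul_comm, Nat.mul_add_div (by omega), Nat.div_eq_of_lt (by omega), add_zero]
    · rw [mul_comm, Nat.mul_add_mod, Nat.mod_eq_of_lt (by omega)]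
  have hpos := digits_nonneg (B := B) (N := (m + 1) * (n + 1)) hB κ ?_ x ?_ hm
  · have hkpos : ∀ i ≤ m, ∀ j ≤ n, 0 ≤ k i j := by
      intro i hi j hj
      have h1 := hpos (i * (n + 1) + j) (by nlinarith)
      rw [hκ] at h1
      simp only [(hdiv i j hj).1, (hdiv i j hj).2] at h1
      exact h1
    have h2 := hk3 ℝ s w
    have h3 : 0 ≤ ∑ i ∈ range (m + 1), ∑ j ∈ range (n + 1), ((k i j : ℤ) : ℝ) * s ^ i * w ^ j := by
      refine Finset.sum_nonneg fun i hi => Finset.sum_nonneg fun j hj => ?_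
      have hi' : i ≤ m := by have := Finset.mem_range.mp hi; omega
      have hj' : j ≤ n := by have := Finset.mem_range.mp hj; omega
      have : (0 : ℝ) ≤ (k i j : ℝ) := by exact_mod_cast hkpos i hi' j hj'
      positivity
    rw [← h2] at h3
    linarith
  · intro r hr
    refine hkb _ ?_ _ ?_
    · have : r / (n + 1) < m + 1 := by
        rw [Nat.div_lt_iff_lt_mul (by omega)]; exact hr
      omega
    · have := Nat.mod_lt r (show 0 < n + 1 by omega)
      omega
  · have h2 := hk3 ℤ (2 ^ (B * (n + 1))) (2 ^ B)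
    have h4 : ∑ r ∈ range ((m + 1) * (n + 1)), κ r * (2 : ℤ) ^ (B * r) =
        ∑ i ∈ range (m + 1), ∑ j ∈ range (n + 1),
          ((k i j : ℤ) : ℤ) * (2 ^ (B * (n + 1))) ^ i * (2 ^ B) ^ j := by
      rw [sum_pack]
      refine Finset.sum_congr rfl fun i _ => Finset.sum_congr rfl fun j hj => ?_
      have hj' : j ≤ n := by have := Finset.mem_range.mp hj; omega
      rw [hκ]
      simp only [(hdiv i j hj').1, (hdiv i j hj').2, Int.cast_id]
      rw [mul_assoc, ← pow_mul, ← pow_mul, ← pow_add]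
      congr 2
      ring
    rw [h4]
    have h5 := h2.symm
    simp only [Int.cast_id] at h5
    rw [h5]
    simpa [sub_eq_add_neg] using hx

end Oct
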