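import Pool.Agent.helper70.M8.ChkC
import Pool.Agent.helper70.M8.Defs

set_option autoImplicit false

/-!
# [OCT-P1] basics of the combinatorial checker
-/

open Set

namespace Oct

theorem ltZ_iff (a b : ℤ) : ltZ a b = true ↔ a < b := by
  rcases a with a | a <;> rcases b with b | b
  · simp only [ltZ, Nat.blt_eq, Int.ofNat_eq_natCast]
    omega
  · simp only [ltZ, Int.ofNat_eq_natCast]
    constructor
    · intro h; exact absurd h (by simp)
    · intro h; omega
  · simp only [ltZ, Int.ofNat_eq_natCast]
    constructor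
    · intro _; omega
    · intro _; trivial
  · simp only [ltZ, Nat.blt_eq]
    omega

theorem leZ_iff (a b : ℤ) : leZ a b = true ↔ a ≤ b := by
  rcases a with a | a <;> rcases b with b | b
  · simp only [leZ, Nat.ble_eq, Int.ofNat_eq_natCast]
    omega
  · simp only [leZ, Int.ofNat_eq_natCast]
    constructor
    · intro h; exact absurd h (by simp)
    · intro h; omega
  · simp only [leZ, Int.ofNat_eq_natCast]
    constructor
    · intro _; omega
    · intro _; trivial
  · simp only [leZ, Nat.ble_eq]
    omega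

theorem eqZ_iff (a b : ℤ) : eqZ a b = true ↔ a = b := by
  rcases a with a | a <;> rcases b with b | b
  · simp only [eqZ, Int.ofNat_eq_natCast]
    rw [Nat.beq_eq]
    omega
  · simp only [eqZ, Int.ofNat_eq_natCast]
    constructor
    · intro h; exact absurd h (by simp)
    · intro h; omega
  · simp only [eqZ, Int.ofNat_eq_natCast]
    constructor
    · intro h; exact absurd h (by simp)
    · intro h; omega
  · simp only [eqZ]
    rw [Nat.beq_eq]
    omega

theorem negZ_eq (a : ℤ) : negZ a = -a := by
  rcases a with a | a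
  · cases a with
    | zero => rfl
    | succ n => rfl
  · rfl

theorem glOK_tab {g : Gl} (hg : glOK g = true) : ∀ n ≤ g.par.length,
    upF g.PT (n : ℤ) = up g.par n ∧ sgF g.ST (n : ℤ) = sgnR g.par g.s0 n := by
  intro n hn
  simp only [glOK, Bool.and_eq_true, List.all_eq_true, List.mem_range, decide_eq_true_eq,
    beq_iff_eq] at hg
  exact hg.2 n (by omega)

/-- labels with absolute value at most `m` -/
theorem upF_eq {g : Gl} (hg : glOK g = true) {z : ℤ} (hz : z.natAbs ≤ g.par.length) :
    upF g.PT z = up g.par z := by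
  rcases z with n | n
  · exact (glOK_tab hg n hz).1
  · have h1 := (glOK_tab hg (n + 1) hz).1
    have h2 : upF g.PT (Int.negSucc n) = - upF g.PT ((n + 1 : ℕ) : ℤ) := by
      show negZ _ = - _
      rw [negZ_eq]
      rfl
    rw [h2, h1]
    rfl

theorem sgF_eq {g : Gl} (hg : glOK g = true) {z : ℤ} (hz : z.natAbs ≤ g.par.length) :
    sgF g.ST z = sgnR g.par g.s0 z := by
  rcases z with n | n
  · exact (glOK_tab hg n hz).2
  · exact (glOK_tab hg (n + 1) hz).2

theorem regF_eq {g : Gl} (hg : glOK g = true) {b : Box} (hz : b.lab.natAbs ≤ g.par.length)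
    (s : Bool) : regF g b s = regLab g.par g.s0 b s := by
  unfold regF regLab
  rw [sgF_eq hg hz, upF_eq hg hz]
  rcases h : b.ty with _ | k
  · simp
  · simp

theorem blF_eq {g : Gl} (hg : glOK g = true) {b : Box} (hz : b.lab.natAbs ≤ g.par.length)
    (L : List Column) (s : S3) : blF g b s = (certOf g L).bl b s := by
  cases s
  · exact regF_eq hg hz true
  · exact regF_eq hg hz false
  · rfl

theorem segsF_eq {g : Gl} (hg : glOK g = true) {c : Column}
    (hz : ∀ b ∈ c.bx, b.lab.natAbs ≤ g.par.length) (t m : ℤ) (right : Bool) :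
    segsF g c t m right = (edgeOf g.par g.s0 c t m right).segs := by
  unfold segsF edgeOf
  refine List.map_congr_left fun b hb => ?_
  unfold segF segOf
  have hb : ∀ x y : ℕ, Nat.beq x y = (x == y) := by
    intro x y
    rw [Bool.eq_iff_iff, Nat.beq_eq, beq_iff_eq]
  rw [regF_eq hg (hz b ‹_›), regF_eq hg (hz b ‹_›)]
  simp only [hb]

theorem presF_eq {e e' : Seg} (h : e.lo ≤ e.hi) (h' : e'.lo ≤ e'.hi) (h1 : e.lo ≤ e'.hi)
    (h2 : e'.lo ≤ e.hi) : presF e e' = pres e e' := by
  unfold presF pres
  have h3 : ¬ (min e.hi e'.hi < max e.lo e'.lo) := by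
    rw [not_lt, max_le_iff, le_min_iff, le_min_iff]
    exact ⟨⟨h, h1⟩, ⟨h2, h'⟩⟩
  rw [if_neg h3]
  simp only [leZ_iff]

end Oct
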