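import Mathlib

set_option autoImplicit false

/-!
# Arrangements of ovals of real plane curves: the statement

The real projective plane, ovals with interior, arrangements.
-/

open MvPolynomial Set

namespace Oct

/-- nonzero vectors of `ℝ³` -/
abbrev V3 : Type := {v : Fin 3 → ℝ // v ≠ 0}

/-- the real projective plane -/
abbrev RP2 : Type := Projectivization ℝ (Fin 3 → ℝ)

/-- the point of the projective plane given by a nonzero vector -/
noncomputable def toP (v : V3) : RP2 := Projectivization.mk ℝ v.1 v.2

/-- the quotient topology -/
noncomputable instance : TopologicalSpace RP2 := TopologicalSpace.coinduced toP inferInstance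

/-- the real part of the curve `F = 0` -/
def realPart (F : MvPolynomial (Fin 3) ℝ) : Set RP2 := {P | eval P.rep F = 0}

/-- no common zero of `F` and its partial derivatives in `ℂ³ \ 0` -/
def Nonsingular (F : MvPolynomial (Fin 3) ℝ) : Prop :=
  ∀ x : Fin 3 → ℂ, x ≠ 0 → ¬ (aeval x F = 0 ∧ ∀ i, aeval x (pderiv i F) = 0)

/-- `O` is an oval with interior `D`: both are connected, `O` closed, `D` open, the rest
(the exterior) is open and connected, and the exterior, but not the interior, has a connected
preimage in `ℝ³ \ 0` (equivalently in the sphere). -/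
structure IsOval (O D : Set RP2) : Prop where
  isClosed : IsClosed O
  conn : IsConnected O
  intOpen : IsOpen D
  intConn : IsConnected D
  disj : Disjoint O D
  extOpen : IsOpen (O ∪ D)ᶜ
  extConn : IsConnected (O ∪ D)ᶜ
  intLift : ¬ IsPreconnected (toP ⁻¹' D)
  extLift : IsPreconnected (toP ⁻¹' (O ∪ D)ᶜ)

/-- The real part of `F` is the disjoint union of `m` ovals, and oval number `j` lies in the
interior of oval number `i` if and only if `nest i j`. -/
def HasArrangement (F : MvPolynomial (Fin 3) ℝ) (m : ℕ) (nest : Fin m → Fin m → Prop) : Prop :=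
  ∃ O D : Fin m → Set RP2, (∀ i, IsOval (O i) (D i)) ∧ (∀ i j, i ≠ j → Disjoint (O i) (O j)) ∧
    (⋃ i, O i) = realPart F ∧ ∀ i j, O j ⊆ D i ↔ nest i j

end Oct
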